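import Mathlib

/-!
Sums of the standard additive character of `ZMod q` over sign vectors.
-/

set_option autoImplicit false

namespace Pool.Agent.Lib.MP_938ce2_ag_h67

open Finset Real

/-- the sign vector of a set -/
def sg {Ω : Type*} [DecidableEq Ω] (η : Finset Ω) (x : Ω) : ℤ := if x ∈ η then 1 else -1

section Trig

lemma sin_ge {q w : ℕ} (hw : 0 < w) (hwq : w < q) : 2 / (q : ℝ) ≤ sin (π * w / q) := by
  have hq : (0 : ℝ) < q := by exact_mod_cast (hw.trans hwq)
  have hπ := Real.pi_pos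
  have key : ∀ v : ℕ, 0 < v → 2 * v ≤ q → 2 / (q : ℝ) ≤ sin (π * v / q) := by
    intro v hv hvq
    have h1 : (1 : ℝ) ≤ v := by exact_mod_cast hv
    have h2 : (2 : ℝ) * v ≤ q := by exact_mod_cast hvq
    have h3 : π * v / q ≤ π / 2 := by
      rw [div_le_div_iff₀ hq two_pos]
      nlinarith
    have h4 := mul_le_sin (x := π * v / q) (by positivity) h3
    refine le_trans ?_ h4
    have : 2 / π * (π * v / q) = 2 * v / q := by field_simp
    rw [this]
    gcongr
    linarith
  rcases le_total (2 * w) q with h | h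
  · exact key w hw h
  · have h5 := key (q - w) (by omega) (by omega)
    have h6 : π * ((q - w : ℕ) : ℝ) / q = π - π * w / q := by
      rw [Nat.cast_sub hwq.le]
      field_simp
    rw [h6, sin_pi_sub] at h5
    exact h5

lemma abs_sin_ge {q : ℕ} (hq : Odd q) {v : ℕ} (hv : 0 < v) (hvq : v < q) :
    2 / (q : ℝ) ≤ |sin (2 * π * v / q)| := by
  have hq0 : (0 : ℝ) < q := by exact_mod_cast (hv.trans hvq)
  rcases Nat.lt_or_ge (2 * v) q with h | h
  · have h1 := sin_ge (q := q) (w := 2 * v) (by omega) h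
    have h2 : π * ((2 * v : ℕ) : ℝ) / q = 2 * π * v / q := by push_cast; ring
    rw [h2] at h1
    exact h1.trans (le_abs_self _)
  · have hne : 2 * v ≠ q := by
      intro h'
      rw [← h'] at hq
      exact (Nat.not_even_iff_odd.mpr hq) (even_two_mul v)
    have h1 := sin_ge (q := q) (w := 2 * v - q) (by omega) (by omega)
    have h2 : π * ((2 * v - q : ℕ) : ℝ) / q = 2 * π * v / q - π := by
      rw [Nat.cast_sub h]
      push_cast
      field_simp
    rw [h2, sin_sub_pi] at h1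
    exact h1.trans (neg_le_abs _)

lemma abs_cos_le_exp {q : ℕ} (hq : Odd q) {v : ℕ} (hv : 0 < v) (hvq : v < q) :
    |cos (2 * π * v / q)| ≤ exp (-2 / (q : ℝ) ^ 2) := by
  have hq0 : (0 : ℝ) < q := by exact_mod_cast (hv.trans hvq)
  have h1 := abs_sin_ge hq hv hvq
  set θ := 2 * π * v / q with hθ
  have h2 : (2 / (q : ℝ)) ^ 2 ≤ sin θ ^ 2 := by
    rw [← sq_abs (sin θ)]
    exact pow_le_pow_left₀ (by positivity) h1 2
  have h3 : cos θ ^ 2 ≤ exp (-2 / (q : ℝ) ^ 2) ^ 2 := by
    rw [← exp_nat_mul]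
    have h4 : cos θ ^ 2 = -(sin θ ^ 2) + 1 := by
      have := sin_sq_add_cos_sq θ
      linarith
    calc cos θ ^ 2 = -(sin θ ^ 2) + 1 := h4
      _ ≤ -((2 / (q : ℝ)) ^ 2) + 1 := by linarith
      _ ≤ exp (-((2 / (q : ℝ)) ^ 2)) := add_one_le_exp _
      _ = exp ((2 : ℕ) * (-2 / (q : ℝ) ^ 2)) := by
        congr 1
        push_cast
        field_simp
  rw [← sq_abs] at h3
  exact le_of_sq_le_sq h3 (exp_pos _).le

end Trig

section Char

lemma addChar_sum {A ι : Type*} [AddCommMonoid A] (ψ : AddChar A ℂ) (s : Finset ι) (f : ι → A) :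
    ψ (∑ i ∈ s, f i) = ∏ i ∈ s, ψ (f i) := by
  classical
  induction s using Finset.induction_on with
  | empty => simp
  | insert a s ha ih => rw [Finset.sum_insert ha, Finset.prod_insert ha, AddChar.map_add_eq_mul, ih]

variable {q : ℕ} [Fact q.Prime]

open ZMod in
lemma norm_char_add_le (hq : Odd q) {t : ZMod q} (ht : t ≠ 0) :
    ‖(stdAddChar t : ℂ) + stdAddChar (-t)‖ ≤ 2 * exp (-2 / (q : ℝ) ^ 2) := by
  have h1 : (stdAddChar t : ℂ) = Complex.exp ((2 * π * t.val / q : ℝ) * Complex.I) := by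
    have := toCircle_apply (N := q) t
    rw [stdAddChar_apply, this]
    congr 1
    push_cast
    ring
  have h2 : (stdAddChar (-t) : ℂ) = Complex.exp (-((2 * π * t.val / q : ℝ) * Complex.I)) := by
    rw [AddChar.map_neg_eq_inv, h1, Complex.exp_neg]
  rw [h1, h2, ← neg_mul, ← Complex.two_cos, norm_mul, ← Complex.ofReal_cos, Complex.norm_real]
  simp only [Complex.norm_ofNat, Real.norm_eq_abs]
  refine mul_le_mul_of_nonneg_left ?_ two_pos.le
  refine abs_cos_le_exp hq ?_ (ZMod.val_lt t)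
  exact Nat.pos_of_ne_zero fun h => ht ((ZMod.val_eq_zero t).mp h)

variable {Ω : Type*} [Fintype Ω] [DecidableEq Ω]

/-- number of nonzero coordinates -/
def wt (y : Ω → ZMod q) : ℕ := (univ.filter fun x => y x ≠ 0).card

open ZMod in
lemma norm_sum_char_le (hq : Odd q) (y : Ω → ZMod q) :
    ‖∑ η : Finset Ω, (stdAddChar (∑ x, (sg η x : ZMod q) * y x) : ℂ)‖
      ≤ 2 ^ Fintype.card Ω * exp (-2 / (q : ℝ) ^ 2) ^ wt y := by
  have h1 : ∀ η : Finset Ω, (stdAddChar (∑ x, (sg η x : ZMod q) * y x) : ℂ)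
      = (∏ x ∈ η, (stdAddChar (y x) : ℂ)) * ∏ x ∈ univ \ η, (stdAddChar (-(y x)) : ℂ) := by
    intro η
    rw [addChar_sum, ← Finset.prod_sdiff (Finset.subset_univ η), mul_comm]
    congr 1
    · refine Finset.prod_congr rfl fun x hx => ?_
      simp [sg, hx]
    · refine Finset.prod_congr rfl fun x hx => ?_
      have : x ∉ η := (Finset.mem_sdiff.mp hx).2
      simp [sg, this]
  have h2 : ∑ η : Finset Ω, (stdAddChar (∑ x, (sg η x : ZMod q) * y x) : ℂ)
      = ∏ x, ((stdAddChar (y x) : ℂ) + stdAddChar (-(y x))) := by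
    rw [Finset.prod_add, Finset.powerset_univ]
    exact Finset.sum_congr rfl fun η _ => h1 η
  rw [h2, norm_prod]
  have h3 : ∀ x, ‖(stdAddChar (y x) : ℂ) + stdAddChar (-(y x))‖
      ≤ 2 * (if y x ≠ 0 then exp (-2 / (q : ℝ) ^ 2) else 1) := by
    intro x
    by_cases hx : y x = 0
    · simp only [hx, neg_zero, AddChar.map_zero_eq_one, ne_eq, not_true_eq_false, if_false]
      norm_num
    · rw [if_pos hx]
      exact norm_char_add_le hq hx
  calc ∏ x, ‖(stdAddChar (y x) : ℂ) + stdAddChar (-(y x))‖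
      ≤ ∏ x, (2 * (if y x ≠ 0 then exp (-2 / (q : ℝ) ^ 2) else 1)) :=
        Finset.prod_le_prod (fun _ _ => norm_nonneg _) fun x _ => h3 x
    _ = 2 ^ Fintype.card Ω * exp (-2 / (q : ℝ) ^ 2) ^ wt y := by
        rw [Finset.prod_mul_distrib, Finset.prod_const, Finset.card_univ, Finset.prod_ite,
          Finset.prod_const, Finset.prod_const_one, mul_one, wt]

open ZMod Classical in
/-- first moment method: the number of sign vectors orthogonal to the code `C` -/
lemma card_orth_le (hq : Odd q) (C : Submodule (ZMod q) (Ω → ZMod q)) :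
    ((univ.filter fun η : Finset Ω => ∀ y ∈ C, ∑ x, (sg η x : ZMod q) * y x = 0).card : ℝ)
        * Nat.card C
      ≤ 2 ^ Fintype.card Ω * ∑ y : C, exp (-2 / (q : ℝ) ^ 2) ^ wt (y : Ω → ZMod q) := by
  let φ : Finset Ω → C →+ ZMod q := fun η =>
    { toFun := fun y => ∑ x, (sg η x : ZMod q) * (y : Ω → ZMod q) x
      map_zero' := by simp
      map_add' := fun a b => by
        simp only [Submodule.coe_add, Pi.add_apply, mul_add, Finset.sum_add_distrib] }
  let χ : Finset Ω → AddChar C ℂ := fun η => stdAddChar.compAddMonoidHom (φ η)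
  have hχ : ∀ η y, χ η y = stdAddChar (∑ x, (sg η x : ZMod q) * (y : Ω → ZMod q) x) :=
    fun η y => rfl
  have h1 : ∀ η : Finset Ω, ∑ y : C, χ η y
      = if (∀ y ∈ C, ∑ x, (sg η x : ZMod q) * y x = 0) then (Nat.card C : ℂ) else 0 := by
    intro η
    rw [AddChar.sum_eq_ite]
    have h2 : χ η = 0 ↔ ∀ y ∈ C, ∑ x, (sg η x : ZMod q) * y x = 0 := by
      constructor
      · intro h y hy
        have h3 : χ η ⟨y, hy⟩ = 1 := by rw [h]; rfl
        rw [hχ] at h3
        have h4 : (stdAddChar (∑ x, (sg η x : ZMod q) * y x) : ℂ) = stdAddChar (0 : ZMod q) := by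
          rw [AddChar.map_zero_eq_one]; exact h3
        exact injective_stdAddChar h4
      · intro h
        ext y
        rw [hχ, h y y.2, AddChar.map_zero_eq_one]
        rfl
    rw [Nat.card_eq_fintype_card]
    by_cases h3 : χ η = 0
    · rw [if_pos h3, if_pos (h2.mp h3)]
    · rw [if_neg h3, if_neg (fun h => h3 (h2.mpr h))]
  have h5 : ((univ.filter fun η : Finset Ω =>
      ∀ y ∈ C, ∑ x, (sg η x : ZMod q) * y x = 0).card : ℂ) * Nat.card C
      = ∑ y : C, ∑ η : Finset Ω, χ η y := by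
    rw [Finset.sum_comm, Finset.sum_congr rfl fun η _ => h1 η, ← Finset.sum_filter,
      Finset.sum_const, nsmul_eq_mul]
  have h6 : ((univ.filter fun η : Finset Ω =>
      ∀ y ∈ C, ∑ x, (sg η x : ZMod q) * y x = 0).card : ℝ) * Nat.card C
      = ‖∑ y : C, ∑ η : Finset Ω, χ η y‖ := by
    rw [← h5]
    simp
  rw [h6, Finset.mul_sum]
  refine (norm_sum_le _ _).trans (Finset.sum_le_sum fun y _ => ?_)
  exact norm_sum_char_le hq (y : Ω → ZMod q)

end Char

end Pool.Agent.Lib.MP_938ce2_ag_h67
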