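import Pool.Agent.Lib.MP_938ce2_ag_h67.Code

/-!
The refined count of the sign vectors orthogonal to an invariant code: the bound is a power of
`∑ t, |cos (2 π t / q)| ^ (g / ν)`.
-/

set_option autoImplicit false
set_option linter.unusedSectionVars false

namespace Pool.Agent.Lib.MP_938ce2_ag_h67

open Finset Real Module

/-- the absolute value of the cosine at `2 π t / q` -/
noncomputable def cs {q : ℕ} (t : ZMod q) : ℝ := |cos (2 * π * t.val / q)|

/-- the cosine sum -/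
noncomputable def csum (q : ℕ) [Fact q.Prime] (ρ : ℝ) : ℝ := ∑ t : ZMod q, cs t ^ ρ

section

variable {q : ℕ} [Fact q.Prime]

lemma cs_zero : cs (0 : ZMod q) = 1 := by
  unfold cs
  rw [ZMod.val_zero, Nat.cast_zero, mul_zero, zero_div, cos_zero, abs_one]

lemma cs_pos (hq : Odd q) (t : ZMod q) : 0 < cs t := by
  unfold cs
  rw [abs_pos]
  intro h
  rw [Real.cos_eq_zero_iff] at h
  obtain ⟨k, hk⟩ := h
  have hq0 : (q : ℝ) ≠ 0 := by exact_mod_cast (Fact.out : q.Prime).ne_zero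
  have hπ := Real.pi_ne_zero
  have h1 : (4 : ℝ) * t.val = (2 * k + 1) * q := by
    field_simp at hk
    linarith
  have h2 : (4 : ℤ) * t.val = (2 * k + 1) * q := by exact_mod_cast h1
  obtain ⟨s, hs⟩ := hq
  have hqs : (q : ℤ) = 2 * s + 1 := by exact_mod_cast hs
  have h3 : (4 : ℤ) * t.val = 2 * (2 * k * s + k + s) + 1 := by rw [h2, hqs]; ring
  generalize (2 * k * s + k + s : ℤ) = w at h3
  omega

lemma cs_le_one (t : ZMod q) : cs t ≤ 1 := abs_cos_le_one _

lemma cs_le_exp (hq : Odd q) {t : ZMod q} (ht : t ≠ 0) : cs t ≤ exp (-2 / (q : ℝ) ^ 2) :=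
  abs_cos_le_exp hq (Nat.pos_of_ne_zero fun h => ht ((ZMod.val_eq_zero t).mp h)) (ZMod.val_lt t)

lemma csum_nonneg (ρ : ℝ) : 0 ≤ csum q ρ :=
  Finset.sum_nonneg fun t _ => Real.rpow_nonneg (abs_nonneg _) _

open ZMod in
lemma norm_char_add (t : ZMod q) :
    ‖(stdAddChar t : ℂ) + stdAddChar (-t)‖ = 2 * cs t := by
  have h1 : (stdAddChar t : ℂ) = Complex.exp ((2 * π * t.val / q : ℝ) * Complex.I) := by
    have := toCircle_apply (N := q) t
    rw [stdAddChar_apply, this]
    congr 1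
    push_cast
    ring
  have h2 : (stdAddChar (-t) : ℂ) = Complex.exp (-((2 * π * t.val / q : ℝ) * Complex.I)) := by
    rw [AddChar.map_neg_eq_inv, h1, Complex.exp_neg]
  rw [h1, h2, ← neg_mul, ← Complex.two_cos, norm_mul, ← Complex.ofReal_cos, Complex.norm_real]
  simp only [Complex.norm_ofNat, Real.norm_eq_abs]
  rfl

variable {Ω : Type*} [Fintype Ω] [DecidableEq Ω]

open ZMod in
lemma norm_sum_char_eq (y : Ω → ZMod q) :
    ‖∑ η : Finset Ω, (stdAddChar (∑ x, (sg η x : ZMod q) * y x) : ℂ)‖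
      = 2 ^ Fintype.card Ω * ∏ x, cs (y x) := by
  have h1 : ∀ η : Finset Ω, (stdAddChar (∑ x, (sg η x : ZMod q) * y x) : ℂ)
      = (∏ x ∈ η, (stdAddChar (y x) : ℂ)) * ∏ x ∈ univ \ η, (stdAddChar (-(y x)) : ℂ) := by
    intro η
    rw [addChar_sum, ← Finset.prod_sdiff (Finset.subset_univ η), mul_comm]
    congr 1
    · refine Finset.prod_congr rfl fun x hx => ?_
      simp [sg, hx]
    · refine Finset.prod_congr rfl fun x hx => ?_
      have : x ∉ η := (Finset.mem_sdiff.mp hx).2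
      simp [sg, this]
  have h2 : ∑ η : Finset Ω, (stdAddChar (∑ x, (sg η x : ZMod q) * y x) : ℂ)
      = ∏ x, ((stdAddChar (y x) : ℂ) + stdAddChar (-(y x))) := by
    rw [Finset.prod_add, Finset.powerset_univ]
    exact Finset.sum_congr rfl fun η _ => h1 η
  rw [h2, norm_prod]
  simp_rw [norm_char_add]
  rw [Finset.prod_mul_distrib, Finset.prod_const, Finset.card_univ]

open ZMod Classical in
lemma card_orth_cos (C : Submodule (ZMod q) (Ω → ZMod q)) :
    ((univ.filter fun η : Finset Ω => ∀ y ∈ C, ∑ x, (sg η x : ZMod q) * y x = 0).card : ℝ)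
        * Nat.card C
      ≤ 2 ^ Fintype.card Ω * ∑ y : C, ∏ x, cs ((y : Ω → ZMod q) x) := by
  let φ : Finset Ω → C →+ ZMod q := fun η =>
    { toFun := fun y => ∑ x, (sg η x : ZMod q) * (y : Ω → ZMod q) x
      map_zero' := by simp
      map_add' := fun a b => by
        simp only [Submodule.coe_add, Pi.add_apply, mul_add, Finset.sum_add_distrib] }
  let χ : Finset Ω → AddChar C ℂ := fun η => stdAddChar.compAddMonoidHom (φ η)
  have hχ : ∀ η y, χ η y = stdAddChar (∑ x, (sg η x : ZMod q) * (y : Ω → ZMod q) x) :=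
    fun η y => rfl
  have h1 : ∀ η : Finset Ω, ∑ y : C, χ η y
      = if (∀ y ∈ C, ∑ x, (sg η x : ZMod q) * y x = 0) then (Nat.card C : ℂ) else 0 := by
    intro η
    rw [AddChar.sum_eq_ite]
    have h2 : χ η = 0 ↔ ∀ y ∈ C, ∑ x, (sg η x : ZMod q) * y x = 0 := by
      constructor
      · intro h y hy
        have h3 : χ η ⟨y, hy⟩ = 1 := by rw [h]; rfl
        rw [hχ] at h3
        have h4 : (stdAddChar (∑ x, (sg η x : ZMod q) * y x) : ℂ) = stdAddChar (0 : ZMod q) := by
          rw [AddChar.map_zero_eq_one]; exact h3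
        exact injective_stdAddChar h4
      · intro h
        ext y
        rw [hχ, h y y.2, AddChar.map_zero_eq_one]
        rfl
    rw [Nat.card_eq_fintype_card]
    by_cases h3 : χ η = 0
    · rw [if_pos h3, if_pos (h2.mp h3)]
    · rw [if_neg h3, if_neg (fun h => h3 (h2.mpr h))]
  have h5 : ((univ.filter fun η : Finset Ω =>
      ∀ y ∈ C, ∑ x, (sg η x : ZMod q) * y x = 0).card : ℂ) * Nat.card C
      = ∑ y : C, ∑ η : Finset Ω, χ η y := by
    rw [Finset.sum_comm, Finset.sum_congr rfl fun η _ => h1 η, ← Finset.sum_filter,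
      Finset.sum_const, nsmul_eq_mul]
  have h6 : ((univ.filter fun η : Finset Ω =>
      ∀ y ∈ C, ∑ x, (sg η x : ZMod q) * y x = 0).card : ℝ) * Nat.card C
      = ‖∑ y : C, ∑ η : Finset Ω, χ η y‖ := by
    rw [← h5]
    simp
  rw [h6, Finset.mul_sum]
  refine (norm_sum_le _ _).trans (Finset.sum_le_sum fun y _ => ?_)
  exact (norm_sum_char_eq (y : Ω → ZMod q)).le

end

section Transitive

variable {P : Type} [Group P] [Fintype P] {Ω : Type} [Fintype Ω] [MulAction P Ω]
  [MulAction.IsPretransitive P Ω] {q : ℕ} [Fact q.Prime]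

lemma sum_code_cos (hq : Odd q) (C : Submodule (ZMod q) (Ω → ZMod q))
    (hC : ∀ σ : P, ∀ y ∈ C, (fun x => y (σ • x)) ∈ C)
    (hpos : 0 < finrank (ZMod q) C) [Fintype C] :
    ∑ y : C, ∏ x, cs ((y : Ω → ZMod q) x)
      ≤ csum q ((Fintype.card Ω : ℝ) / finrank (ZMod q) C) ^ finrank (ZMod q) C := by
  classical
  obtain ⟨κ, _, a, ha, hcard, hbij⟩ := exists_info C
  set ν := finrank (ZMod q) C with hν
  set g := Fintype.card Ω with hg
  have hνR : (0 : ℝ) < ν := by exact_mod_cast hpos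
  have hP : (0 : ℝ) < Fintype.card P := by
    exact_mod_cast Fintype.card_pos
  set ρ : ℝ := (g : ℝ) / ν with hρ
  let l : C → Ω → ℝ := fun y x => log (cs ((y : Ω → ZMod q) x))
  have hexp : ∀ y x, exp (l y x) = cs ((y : Ω → ZMod q) x) := fun y x => exp_log (cs_pos hq _)
  have hw : ∀ y : C, (ν : ℝ) * (Fintype.card P * ∑ x, l y x)
      = g * ∑ σ : P, ∑ i : κ, l y (σ • a i) := by
    intro y
    have h1 : ∀ i : κ, (g : ℝ) * ∑ σ : P, l y (σ • a i) = Fintype.card P * ∑ x, l y x := by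
      intro i
      rw [hg, sum_smul_transitive (P := P) (fun x => l y x) (a i)]
    have h2 : (g : ℝ) * ∑ σ : P, ∑ i : κ, l y (σ • a i)
        = ∑ i : κ, (g : ℝ) * ∑ σ : P, l y (σ • a i) := by
      rw [Finset.sum_comm, Finset.mul_sum]
    rw [h2, Finset.sum_congr rfl fun i _ => h1 i, Finset.sum_const, Finset.card_univ, hcard,
      nsmul_eq_mul]
  have h3 : ∀ y : C, ∏ x, cs ((y : Ω → ZMod q) x)
      ≤ ∑ σ : P, (Fintype.card P : ℝ)⁻¹ * ∏ i : κ, cs ((y : Ω → ZMod q) (σ • a i)) ^ ρ := by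
    intro y
    have h4 := convexOn_exp.map_sum_le (t := (univ : Finset P))
      (w := fun _ => (Fintype.card P : ℝ)⁻¹) (p := fun σ => ρ * ∑ i : κ, l y (σ • a i))
      (fun _ _ => by positivity) (by
        rw [Finset.sum_const, Finset.card_univ, nsmul_eq_mul, mul_inv_cancel₀ hP.ne'])
      (fun _ _ => Set.mem_univ _)
    simp only [smul_eq_mul] at h4
    have h5 : ∏ x, cs ((y : Ω → ZMod q) x)
        = exp (∑ σ : P, (Fintype.card P : ℝ)⁻¹ * (ρ * ∑ i : κ, l y (σ • a i))) := by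
      rw [← Finset.mul_sum, ← Finset.mul_sum]
      have h6 := hw y
      have h7 : ∑ x, l y x = (Fintype.card P : ℝ)⁻¹ * (ρ * ∑ σ : P, ∑ i : κ, l y (σ • a i)) := by
        rw [hρ]
        field_simp
        linarith
      rw [← h7, exp_sum]
      exact (Finset.prod_congr rfl fun x _ => hexp y x).symm
    rw [h5]
    refine h4.trans (le_of_eq (Finset.sum_congr rfl fun σ _ => ?_))
    congr 1
    rw [Finset.mul_sum, exp_sum]
    refine Finset.prod_congr rfl fun i _ => ?_
    rw [mul_comm, exp_mul, hexp]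
  have h8 : ∀ σ : P, ∑ y : C, ∏ i : κ, cs ((y : Ω → ZMod q) (σ • a i)) ^ ρ = csum q ρ ^ ν := by
    intro σ
    have hb : Function.Bijective (fun (y : C) (i : κ) => (y : Ω → ZMod q) (σ • a i)) := by
      let T : C → C := fun y => ⟨fun x => (y : Ω → ZMod q) (σ • x), hC σ y y.2⟩
      have hT : Function.Bijective T := by
        refine Function.bijective_iff_has_inverse.mpr
          ⟨fun y => ⟨fun x => (y : Ω → ZMod q) (σ⁻¹ • x), hC σ⁻¹ y y.2⟩, fun y => ?_, fun y => ?_⟩
        · apply Subtype.ext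
          funext x
          show (y : Ω → ZMod q) (σ • σ⁻¹ • x) = _
          rw [smul_inv_smul]
        · apply Subtype.ext
          funext x
          show (y : Ω → ZMod q) (σ⁻¹ • σ • x) = _
          rw [inv_smul_smul]
      exact hbij.comp hT
    have h9 := Function.Bijective.sum_comp hb (fun z : κ → ZMod q => ∏ i, cs (z i) ^ ρ)
    rw [h9]
    have h10 : ∑ z : κ → ZMod q, ∏ i, cs (z i) ^ ρ = ∏ _i : κ, csum q ρ := by
      unfold csum
      rw [Finset.prod_univ_sum, Fintype.piFinset_univ]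
    rw [h10, Finset.prod_const, Finset.card_univ, hcard]
  calc ∑ y : C, ∏ x, cs ((y : Ω → ZMod q) x)
      ≤ ∑ y : C, ∑ σ : P, (Fintype.card P : ℝ)⁻¹ * ∏ i : κ, cs ((y : Ω → ZMod q) (σ • a i)) ^ ρ :=
        Finset.sum_le_sum fun y _ => h3 y
    _ = ∑ σ : P, (Fintype.card P : ℝ)⁻¹ * ∑ y : C, ∏ i : κ, cs ((y : Ω → ZMod q) (σ • a i)) ^ ρ := by
        rw [Finset.sum_comm]
        exact Finset.sum_congr rfl fun σ _ => by rw [Finset.mul_sum]
    _ = csum q ρ ^ ν := by
        rw [Finset.sum_congr rfl fun σ _ => by rw [h8 σ], Finset.sum_const, Finset.card_univ,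
          nsmul_eq_mul, ← mul_assoc, mul_inv_cancel₀ hP.ne', one_mul]

open Classical in
/-- The number of sign vectors orthogonal to an invariant code, with the cosine sum. -/
theorem card_orth_code_cos (hq : Odd q) (C : Submodule (ZMod q) (Ω → ZMod q))
    (hC : ∀ σ : P, ∀ y ∈ C, (fun x => y (σ • x)) ∈ C)
    (hpos : 0 < finrank (ZMod q) C) :
    ((univ.filter fun η : Finset Ω => ∀ y ∈ C, ∑ x, (sg η x : ZMod q) * y x = 0).card : ℝ)
        * (q : ℝ) ^ finrank (ZMod q) C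
      ≤ 2 ^ Fintype.card Ω *
        csum q ((Fintype.card Ω : ℝ) / finrank (ZMod q) C) ^ finrank (ZMod q) C := by
  have h1 := card_orth_cos C
  have h2 := sum_code_cos (P := P) hq C hC hpos
  have h3 : Nat.card C = q ^ finrank (ZMod q) C := by
    have := Module.card_eq_pow_finrank (K := ZMod q) (V := C)
    rw [Nat.card_eq_fintype_card, this, ZMod.card]
  rw [h3] at h1
  push_cast at h1
  refine h1.trans ?_
  exact mul_le_mul_of_nonneg_left h2 (by positivity)

end Transitive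

section Estimates

variable {q : ℕ} [Fact q.Prime]

/-- the crude bound for the cosine sum -/
theorem csum_le (hq : Odd q) {ρ : ℝ} (hρ : 0 ≤ ρ) :
    csum q ρ ≤ 1 + ((q : ℝ) - 1) * exp (-(2 * ρ / (q : ℝ) ^ 2)) := by
  unfold csum
  have h1 : ∀ t ∈ (univ : Finset (ZMod q)).erase 0, cs t ^ ρ ≤ exp (-(2 * ρ / (q : ℝ) ^ 2)) := by
    intro t ht
    have ht0 : t ≠ 0 := Finset.ne_of_mem_erase ht
    calc cs t ^ ρ ≤ exp (-2 / (q : ℝ) ^ 2) ^ ρ :=
          Real.rpow_le_rpow (abs_nonneg _) (cs_le_exp hq ht0) hρ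
      _ = exp (-(2 * ρ / (q : ℝ) ^ 2)) := by
          rw [← exp_mul]
          congr 1
          ring
  rw [← Finset.add_sum_erase _ _ (Finset.mem_univ (0 : ZMod q)), cs_zero, Real.one_rpow]
  have h2 := Finset.sum_le_card_nsmul _ _ _ h1
  have h3 : ((univ : Finset (ZMod q)).erase 0).card = q - 1 := by
    rw [Finset.card_erase_of_mem (Finset.mem_univ _), Finset.card_univ, ZMod.card]
  rw [h3, nsmul_eq_mul, Nat.cast_sub (Fact.out : q.Prime).one_le, Nat.cast_one] at h2
  linarith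

lemma cs_three {ρ : ℝ} [Fact (Nat.Prime 3)] : csum 3 ρ = 1 + 2 * (2 : ℝ) ^ (-ρ) := by
  unfold csum
  have h0 : cs (0 : ZMod 3) = 1 := cs_zero
  have h1 : cs (1 : ZMod 3) = 2⁻¹ := by
    unfold cs
    have hv : (1 : ZMod 3).val = 1 := rfl
    rw [hv]
    have : 2 * π * ((1 : ℕ) : ℝ) / ((3 : ℕ) : ℝ) = π - π / 3 := by push_cast; ring
    rw [this, Real.cos_pi_sub, Real.cos_pi_div_three]
    norm_num
  have h2 : cs (2 : ZMod 3) = 2⁻¹ := by
    unfold cs
    have hv : (2 : ZMod 3).val = 2 := rfl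
    rw [hv]
    have : 2 * π * ((2 : ℕ) : ℝ) / ((3 : ℕ) : ℝ) = π / 3 + π := by push_cast; ring
    rw [this, Real.cos_add_pi, Real.cos_pi_div_three]
    norm_num
  have h3 : ∑ t : ZMod 3, cs t ^ ρ = cs (0 : ZMod 3) ^ ρ + cs (1 : ZMod 3) ^ ρ + cs (2 : ZMod 3) ^ ρ :=
    Fin.sum_univ_three _
  rw [h3, h0, h1, h2, Real.one_rpow, Real.inv_rpow two_pos.le, ← Real.rpow_neg two_pos.le]
  ring

/-- cosine of a double -/
lemma cs_eq_half (t : ZMod q) : cs t = |cos (π * (2 * t : ZMod q).val / q)| := by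
  unfold cs
  have hq0 : (q : ℝ) ≠ 0 := by exact_mod_cast (Fact.out : q.Prime).ne_zero
  have h1 : (2 * t : ZMod q).val = (2 * t.val) % q := by
    have h2 : (2 * t : ZMod q) = ((2 * t.val : ℕ) : ZMod q) := by
      push_cast
      rw [ZMod.natCast_zmod_val]
    rw [h2, ZMod.val_natCast]
  have h3 : 2 * t.val = q * (2 * t.val / q) + (2 * t.val) % q := (Nat.div_add_mod _ _).symm
  have h4 : 2 * π * t.val / q = π * ((2 * t : ZMod q).val : ℝ) / q + (2 * t.val / q : ℕ) * π := by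
    have h5 : (2 : ℝ) * t.val = q * (2 * t.val / q : ℕ) + ((2 * t.val) % q : ℕ) := by
      exact_mod_cast h3
    rw [h1]
    field_simp
    linarith
  rw [h4, Real.cos_add_nat_mul_pi, abs_mul, abs_pow, abs_neg, abs_one, one_pow, one_mul]

lemma abs_cos_le_exp' {v : ℕ} (hv : 2 * v ≤ q) : |cos (π * v / q)| ≤ exp (-(2 * v / (q : ℝ) ^ 2)) := by
  have hq0 : (0 : ℝ) < q := by exact_mod_cast (Fact.out : q.Prime).pos
  have h2 : (2 : ℝ) * v ≤ q := by exact_mod_cast hv
  have hπ := Real.pi_pos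
  have h3 : π * v / q ≤ π / 2 := by
    rw [div_le_div_iff₀ hq0 two_pos]
    nlinarith
  have h4 := mul_le_sin (x := π * v / q) (by positivity) h3
  have h5 : 2 / π * (π * v / q) = 2 * v / q := by field_simp
  rw [h5] at h4
  set θ := π * v / q with hθ
  have h6 : (2 * (v : ℝ) / q) ^ 2 ≤ sin θ ^ 2 := pow_le_pow_left₀ (by positivity) h4 2
  have h7 : (v : ℝ) ≤ (v : ℝ) ^ 2 := by
    have : v ≤ v ^ 2 := Nat.le_self_pow two_ne_zero v
    exact_mod_cast this
  have h8 : cos θ ^ 2 ≤ exp (-(2 * v / (q : ℝ) ^ 2)) ^ 2 := by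
    rw [← exp_nat_mul]
    have h9 : cos θ ^ 2 = -(sin θ ^ 2) + 1 := by
      have := sin_sq_add_cos_sq θ
      linarith
    calc cos θ ^ 2 = -(sin θ ^ 2) + 1 := h9
      _ ≤ -((2 * (v : ℝ) / q) ^ 2) + 1 := by linarith
      _ ≤ exp (-((2 * (v : ℝ) / q) ^ 2)) := add_one_le_exp _
      _ ≤ exp ((2 : ℕ) * (-(2 * v / (q : ℝ) ^ 2))) := by
        apply exp_le_exp.mpr
        push_cast
        rw [div_pow, mul_neg, neg_le_neg_iff, ← mul_div_assoc]
        gcongr
        nlinarith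
  rw [← sq_abs] at h8
  exact le_of_sq_le_sq h8 (exp_pos _).le

/-- the refined bound for the cosine sum -/
theorem csum_le_refined (hq : Odd q) {ρ : ℝ} (hρ : (q : ℝ) ^ 2 ≤ ρ) :
    csum q ρ ≤ 1 + 3 * exp (-(ρ / (q : ℝ) ^ 2)) := by
  have hp : q.Prime := Fact.out
  have hq0 : (0 : ℝ) < q := by exact_mod_cast hp.pos
  have hρ0 : 0 ≤ ρ := le_trans (by positivity) hρ
  set r : ℝ := exp (-(2 * ρ / (q : ℝ) ^ 2)) with hr
  have hr0 : 0 < r := exp_pos _
  -- reindex
  let u2 : (ZMod q)ˣ := Units.mk0 (2 : ZMod q) (by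
    intro h
    have h1 : ((2 : ℕ) : ZMod q) = 0 := by exact_mod_cast h
    rw [ZMod.natCast_eq_zero_iff] at h1
    have h2 := Nat.le_of_dvd two_pos h1
    have h3 := hp.two_le
    have h4 : q = 2 := le_antisymm h2 h3
    rw [h4] at hq
    exact absurd hq (by decide))
  have h1 : csum q ρ = ∑ t : ZMod q, |cos (π * t.val / q)| ^ ρ := by
    unfold csum
    rw [← Equiv.sum_comp (Units.mulLeft u2) (fun t : ZMod q => |cos (π * t.val / q)| ^ ρ)]
    refine Finset.sum_congr rfl fun t _ => ?_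
    rw [cs_eq_half]
    rfl
  have h2 : ∑ t : ZMod q, |cos (π * t.val / q)| ^ ρ
      = ∑ v ∈ Finset.range q, |cos (π * v / q)| ^ ρ := by
    refine Finset.sum_bij (fun t _ => t.val) ?_ ?_ ?_ ?_
    · intro t _
      exact Finset.mem_range.mpr (ZMod.val_lt t)
    · intro a _ b _ h
      exact ZMod.val_injective q h
    · intro v hv
      exact ⟨(v : ZMod q), Finset.mem_univ _, ZMod.val_cast_of_lt (Finset.mem_range.mp hv)⟩
    · intro t _
      rfl
  have h3 : ∀ v ∈ Finset.range (q - 1), |cos (π * ((v + 1 : ℕ) : ℝ) / q)| ^ ρ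
      ≤ r ^ (v + 1) + r ^ (q - (v + 1)) := by
    intro v hv
    have hvq : v + 1 < q := by
      have := Finset.mem_range.mp hv
      omega
    have key : ∀ w : ℕ, 2 * w ≤ q → |cos (π * w / q)| ^ ρ ≤ r ^ w := by
      intro w hw
      calc |cos (π * w / q)| ^ ρ ≤ exp (-(2 * w / (q : ℝ) ^ 2)) ^ ρ :=
            Real.rpow_le_rpow (abs_nonneg _) (abs_cos_le_exp' hw) hρ0
        _ = r ^ w := by
            rw [hr, ← exp_mul, ← exp_nat_mul]
            congr 1
            ring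
    rcases le_total (2 * (v + 1)) q with h | h
    · exact (key _ h).trans (le_add_of_nonneg_right (by positivity))
    · have h5 := key (q - (v + 1)) (by omega)
      have h6 : |cos (π * ((q - (v + 1) : ℕ) : ℝ) / q)| = |cos (π * ((v + 1 : ℕ) : ℝ) / q)| := by
        rw [Nat.cast_sub hvq.le]
        have : π * ((q : ℝ) - ((v + 1 : ℕ) : ℝ)) / q = π - π * ((v + 1 : ℕ) : ℝ) / q := by
          field_simp
        rw [this, Real.cos_pi_sub, abs_neg]
      rw [h6] at h5
      exact h5.trans (le_add_of_nonneg_left (by positivity))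
  have hx : r ≤ exp (-2) := by
    apply exp_le_exp.mpr
    rw [neg_le_neg_iff, le_div_iff₀ (by positivity)]
    linarith
  have hx2 : exp (-2 : ℝ) < 1 / 7 := by
    have h7 : (7 : ℝ) < exp 2 := by
      have h8 := Real.exp_one_gt_d9
      have h9 : exp (2 : ℝ) = exp 1 ^ 2 := by rw [← exp_nat_mul]; norm_num
      rw [h9]
      nlinarith
    rw [exp_neg, inv_eq_one_div]
    exact one_div_lt_one_div_of_lt (by norm_num) h7
  have hr1 : r < 1 / 7 := lt_of_le_of_lt hx hx2
  have hgeo : ∑ v ∈ Finset.range (q - 1), r ^ (v + 1) ≤ r * (7 / 6) := by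
    have h4 : ∑ v ∈ Finset.range (q - 1), r ^ (v + 1) = r * ∑ v ∈ Finset.range (q - 1), r ^ v := by
      rw [Finset.mul_sum]
      exact Finset.sum_congr rfl fun v _ => by rw [pow_succ, mul_comm]
    rw [h4]
    apply mul_le_mul_of_nonneg_left _ hr0.le
    have h5 := geom_sum_eq (by linarith : r ≠ 1) (q - 1)
    rw [h5, div_le_iff_of_neg (by linarith)]
    have h6 : 0 < r ^ (q - 1) := by positivity
    nlinarith
  have hgeo2 : ∑ v ∈ Finset.range (q - 1), r ^ (q - (v + 1)) ≤ r * (7 / 6) := by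
    refine le_trans (le_of_eq ?_) hgeo
    rw [← Finset.sum_range_reflect]
    refine Finset.sum_congr rfl fun v hv => ?_
    have := Finset.mem_range.mp hv
    congr 1
    omega
  have h4 : ∑ v ∈ Finset.range q, |cos (π * v / q)| ^ ρ
      ≤ 1 + (r * (7 / 6) + r * (7 / 6)) := by
    have hq1 : q = (q - 1) + 1 := by have := hp.pos; omega
    have h5 : ∑ v ∈ Finset.range q, |cos (π * v / q)| ^ ρ
        = ∑ v ∈ Finset.range (q - 1), |cos (π * ((v + 1 : ℕ) : ℝ) / q)| ^ ρ
          + |cos (π * ((0 : ℕ) : ℝ) / q)| ^ ρ := by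
      conv_lhs => rw [hq1]
      rw [Finset.sum_range_succ']
      congr 1
      · refine Finset.sum_congr rfl fun v _ => ?_
        congr 3
        rw [← hq1]
      · congr 3
        rw [← hq1]
    rw [h5]
    have h6 : |cos (π * ((0 : ℕ) : ℝ) / q)| ^ ρ = 1 := by
      rw [Nat.cast_zero, mul_zero, zero_div, cos_zero, abs_one, Real.one_rpow]
    rw [h6]
    have h7 := Finset.sum_le_sum h3
    rw [Finset.sum_add_distrib] at h7
    linarith
  rw [h1, h2]
  refine h4.trans ?_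
  have h8 : r = exp (-(ρ / (q : ℝ) ^ 2)) ^ 2 := by
    rw [hr, ← exp_nat_mul]
    congr 1
    push_cast
    ring
  have h9 : exp (-(ρ / (q : ℝ) ^ 2)) ≤ 1 := by
    rw [exp_le_one_iff, neg_nonpos]
    positivity
  have h10 := exp_pos (-(ρ / (q : ℝ) ^ 2))
  nlinarith

end Estimates

end Pool.Agent.Lib.MP_938ce2_ag_h67
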