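import Mathlib

/-!
An integer matrix `T` with `T ^ 2 = c T` has the same rank over `ℚ` and modulo every prime which does
not divide `c`.
-/

set_option autoImplicit false
set_option linter.unusedSectionVars false

namespace Pool.Agent.Lib.MP_938ce2_ag_h67

open Module

variable {ι : Type} [Fintype ι] [DecidableEq ι]

/-- the linear map given by an integer matrix over a field -/
noncomputable def mv (K : Type) [Field K] (T : Matrix ι ι ℤ) : (ι → K) →ₗ[K] (ι → K) :=
  (T.map (Int.cast : ℤ → K)).mulVecLin

lemma mv_apply {K : Type} [Field K] (T : Matrix ι ι ℤ) (v : ι → K) (x : ι) :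
    mv K T v x = ∑ y, (T x y : K) * v y := rfl

lemma mv_cast {K : Type} [Field K] (T : Matrix ι ι ℤ) (v : ι → ℤ) :
    mv K T (fun x => (v x : K)) = fun x => ((T.mulVec v x : ℤ) : K) := by
  funext x
  rw [mv_apply, Matrix.mulVec, dotProduct]
  push_cast
  rfl

lemma mv_mul {K : Type} [Field K] (S T : Matrix ι ι ℤ) :
    mv K (S * T) = (mv K S).comp (mv K T) := by
  unfold mv
  rw [← Matrix.mulVecLin_mul]
  congr 1
  have := (Matrix.map_mul (L := S) (M := T) (f := Int.castRingHom K))
  simpa using this

lemma mv_smul {K : Type} [Field K] (c : ℤ) (T : Matrix ι ι ℤ) :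
    mv K (c • T) = (c : K) • mv K T := by
  apply LinearMap.ext
  intro v
  funext x
  rw [LinearMap.smul_apply, Pi.smul_apply, mv_apply, mv_apply, smul_eq_mul, Finset.mul_sum]
  refine Finset.sum_congr rfl fun y _ => ?_
  rw [Matrix.smul_apply, smul_eq_mul]
  push_cast
  ring

lemma mv_sub {K : Type} [Field K] (S T : Matrix ι ι ℤ) :
    mv K (S - T) = mv K S - mv K T := by
  apply LinearMap.ext
  intro v
  funext x
  rw [LinearMap.sub_apply, Pi.sub_apply, mv_apply, mv_apply, mv_apply, ← Finset.sum_sub_distrib]
  refine Finset.sum_congr rfl fun y _ => ?_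
  rw [Matrix.sub_apply]
  push_cast
  ring

lemma mv_one {K : Type} [Field K] : mv K (1 : Matrix ι ι ℤ) = LinearMap.id := by
  apply LinearMap.ext
  intro v
  funext x
  rw [mv_apply, LinearMap.id_apply, Finset.sum_eq_single x]
  · rw [Matrix.one_apply_eq, Int.cast_one, one_mul]
  · intro y _ hy
    rw [Matrix.one_apply_ne hy.symm, Int.cast_zero, zero_mul]
  · intro h
    exact absurd (Finset.mem_univ x) h

lemma finrank_mod_le (q : ℕ) [Fact q.Prime] (T : Matrix ι ι ℤ) :
    finrank (ZMod q) (LinearMap.range (mv (ZMod q) T)) ≤ finrank ℚ (LinearMap.range (mv ℚ T)) := by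
  let I : Submodule ℤ (ι → ℤ) := LinearMap.range T.mulVecLin
  let b := Module.finBasis ℤ I
  set r := finrank ℤ I with hr
  have h1 : finrank (ZMod q) (LinearMap.range (mv (ZMod q) T)) ≤ r := by
    let v : Fin r → (ι → ZMod q) := fun j x => ((b j : ι → ℤ) x : ZMod q)
    have h2 : LinearMap.range (mv (ZMod q) T) ≤ Submodule.span (ZMod q) (Set.range v) := by
      rintro _ ⟨w, rfl⟩
      have hw : w = fun x => (((w x).val : ℤ) : ZMod q) := by
        funext x
        push_cast
        rw [ZMod.natCast_zmod_val]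
      rw [hw, mv_cast]
      have hmem : T.mulVec (fun x => ((w x).val : ℤ)) ∈ I := ⟨_, rfl⟩
      have hsum := b.sum_repr ⟨_, hmem⟩
      have hsum' : T.mulVec (fun x => ((w x).val : ℤ))
          = ∑ j, b.repr ⟨_, hmem⟩ j • (b j : ι → ℤ) := by
        have := congrArg (Subtype.val) hsum
        refine this.symm.trans ?_
        rw [AddSubmonoidClass.coe_finsetSum]
        rfl
      have : (fun x => ((T.mulVec (fun x => ((w x).val : ℤ)) x : ℤ) : ZMod q))
          = ∑ j, ((b.repr ⟨_, hmem⟩ j : ℤ) : ZMod q) • v j := by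
        funext x
        rw [Finset.sum_apply]
        conv_lhs => rw [hsum']
        rw [Finset.sum_apply]
        push_cast
        refine Finset.sum_congr rfl fun j _ => ?_
        rw [Pi.smul_apply, Pi.smul_apply, smul_eq_mul, smul_eq_mul]
        push_cast
        rfl
      rw [this]
      exact Submodule.sum_mem _ fun j _ => Submodule.smul_mem _ _ (Submodule.subset_span ⟨j, rfl⟩)
    calc _ ≤ finrank (ZMod q) (Submodule.span (ZMod q) (Set.range v)) :=
          Submodule.finrank_mono h2
      _ ≤ Fintype.card (Fin r) := finrank_range_le_card v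
      _ = r := Fintype.card_fin r
  refine h1.trans ?_
  -- the basis is linearly independent over `ℚ`
  let v : Fin r → (ι → ℚ) := fun j x => ((b j : ι → ℤ) x : ℚ)
  have hv : LinearIndependent ℤ v := by
    have h3 : LinearIndependent ℤ (fun j => (b j : ι → ℤ)) :=
      b.linearIndependent.map' I.subtype (Submodule.ker_subtype I)
    let c : (ι → ℤ) →ₗ[ℤ] (ι → ℚ) :=
      { toFun := fun w x => (w x : ℚ)
        map_add' := fun w w' => by funext x; simp
        map_smul' := fun a w => by funext x; simp }
    refine h3.map' c ?_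
    rw [LinearMap.ker_eq_bot]
    intro w w' hww
    funext x
    have : ((w x : ℤ) : ℚ) = ((w' x : ℤ) : ℚ) := congrFun hww x
    exact_mod_cast this
  rw [LinearIndependent.iff_fractionRing ℤ ℚ] at hv
  have hmem : ∀ j, v j ∈ LinearMap.range (mv ℚ T) := by
    intro j
    obtain ⟨w, hw⟩ := (b j).2
    refine ⟨fun x => (w x : ℚ), ?_⟩
    rw [mv_cast]
    funext x
    show ((T.mulVecLin w x : ℤ) : ℚ) = _
    rw [hw]
  let v' : Fin r → LinearMap.range (mv ℚ T) := fun j => ⟨v j, hmem j⟩
  have hv' : LinearIndependent ℚ v' := by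
    refine LinearIndependent.of_comp (LinearMap.range (mv ℚ T)).subtype ?_
    exact hv
  have := hv'.fintype_card_le_finrank
  rwa [Fintype.card_fin] at this

lemma finrank_range_add (K : Type) [Field K] (T : Matrix ι ι ℤ) (c : ℤ) (hc : (c : K) ≠ 0)
    (hT : T * T = c • T) :
    finrank K (LinearMap.range (mv K T)) + finrank K (LinearMap.range (mv K (c • 1 - T)))
      = Fintype.card ι := by
  have h1 : LinearMap.range (mv K (c • 1 - T)) = LinearMap.ker (mv K T) := by
    ext v
    rw [LinearMap.mem_ker, LinearMap.mem_range]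
    constructor
    · rintro ⟨w, rfl⟩
      have h2 : mv K (T * (c • 1 - T)) = 0 := by
        have : T * (c • 1 - T) = T * T - T * T := by
          rw [mul_sub, mul_smul_comm, mul_one, ← hT]
        rw [this, sub_self]
        ext; simp [mv]
      have h3 := congrArg (fun f => f w) (mv_mul (K := K) T (c • 1 - T))
      simp only [LinearMap.comp_apply] at h3
      rw [← h3, h2]
      rfl
    · intro hv
      refine ⟨(c : K)⁻¹ • v, ?_⟩
      rw [mv_sub, mv_smul, mv_one, LinearMap.sub_apply, map_smul, map_smul, hv, smul_zero, sub_zero,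
        LinearMap.smul_apply, LinearMap.id_apply, smul_smul, inv_mul_cancel₀ hc, one_smul]
  rw [h1, LinearMap.finrank_range_add_finrank_ker, finrank_fintype_fun_eq_card]

/-- The rank is the same modulo `q`. -/
theorem finrank_mod_eq (q : ℕ) [Fact q.Prime] (T : Matrix ι ι ℤ) (c : ℤ)
    (hc : (c : ZMod q) ≠ 0) (hT : T * T = c • T) :
    finrank (ZMod q) (LinearMap.range (mv (ZMod q) T)) = finrank ℚ (LinearMap.range (mv ℚ T)) := by
  have hc' : (c : ℚ) ≠ 0 := by
    intro h
    apply hc
    have : c = 0 := by exact_mod_cast h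
    rw [this, Int.cast_zero]
  have h1 := finrank_range_add (ZMod q) T c hc hT
  have h2 := finrank_range_add ℚ T c hc' hT
  have h3 := finrank_mod_le q T
  have h4 := finrank_mod_le q (c • 1 - T)
  omega

end Pool.Agent.Lib.MP_938ce2_ag_h67
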