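import Mathlib
import Pool.Agent.Lib.MP_938ce2_ag_h67.Rank

/-!
Homomorphisms between the images of equivariant operators on a permutation module.
-/

set_option autoImplicit false
set_option linter.unusedSectionVars false

namespace Pool.Agent.Lib.MP_938ce2_ag_h67

open Module MonoidAlgebra

/-- the permutation module on functions; the type `P` only records the group -/
@[nolint unusedArguments]
def VV (K _P Ω : Type) : Type := Ω → K

instance (K P Ω : Type) [Field K] : AddCommGroup (VV K P Ω) :=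
  inferInstanceAs (AddCommGroup (Ω → K))

instance (K P Ω : Type) [Field K] : Module K (VV K P Ω) :=
  inferInstanceAs (Module K (Ω → K))

instance (K P Ω : Type) [Field K] [Finite Ω] : Module.Finite K (VV K P Ω) :=
  inferInstanceAs (Module.Finite K (Ω → K))

/-- a function as an element of the permutation module -/
def mkV {K Ω : Type} (P : Type) [Field K] : (Ω → K) ≃ₗ[K] VV K P Ω := LinearEquiv.refl K (Ω → K)

/-- the value of an element of the permutation module at a point -/
def ev {K P Ω : Type} [Field K] (v : VV K P Ω) (x : Ω) : K := v x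

section

variable {K P Ω : Type} [Field K]

lemma ev_ext {v w : VV K P Ω} (h : ∀ x, ev v x = ev w x) : v = w := funext h

lemma ev_add (v w : VV K P Ω) (x : Ω) : ev (v + w) x = ev v x + ev w x := rfl

lemma ev_sub (v w : VV K P Ω) (x : Ω) : ev (v - w) x = ev v x - ev w x := rfl

lemma ev_smul (a : K) (v : VV K P Ω) (x : Ω) : ev (a • v) x = a * ev v x := rfl

lemma ev_zero (x : Ω) : ev (0 : VV K P Ω) x = 0 := rfl

lemma ev_mkV (f : Ω → K) (x : Ω) : ev (mkV P f) x = f x := rfl

lemma mkV_ev (v : VV K P Ω) : mkV P (ev v) = v := rfl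

lemma ev_sum {ι : Type} (s : Finset ι) (f : ι → VV K P Ω) (x : Ω) :
    ev (∑ i ∈ s, f i) x = ∑ i ∈ s, ev (f i) x := by
  let e : VV K P Ω →+ K :=
    { toFun := fun v => ev v x
      map_zero' := rfl
      map_add' := fun v w => rfl }
  exact map_sum e f s

variable [Group P] [MulAction P Ω]

/-- the permutation representation -/
def perm (K P Ω : Type) [Field K] [Group P] [MulAction P Ω] : Representation K P (VV K P Ω) where
  toFun σ :=
    { toFun := fun v => mkV P (fun x => ev v (σ⁻¹ • x))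
      map_add' := fun v w => rfl
      map_smul' := fun a v => rfl }
  map_one' := by
    apply LinearMap.ext
    intro v
    apply ev_ext
    intro x
    show ev v ((1 : P)⁻¹ • x) = ev v x
    rw [inv_one, one_smul]
  map_mul' σ τ := by
    apply LinearMap.ext
    intro v
    apply ev_ext
    intro x
    show ev v ((σ * τ)⁻¹ • x) = ev v (τ⁻¹ • σ⁻¹ • x)
    rw [mul_inv_rev, mul_smul]

lemma ev_perm (σ : P) (v : VV K P Ω) (x : Ω) : ev (perm K P Ω σ v) x = ev v (σ⁻¹ • x) := rfl

noncomputable instance (K P Ω : Type) [Field K] [Group P] [MulAction P Ω] :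
    Module (MonoidAlgebra K P) (VV K P Ω) :=
  Module.compHom (VV K P Ω) (perm K P Ω).asAlgebraHom.toRingHom

lemma smul_def (r : MonoidAlgebra K P) (v : VV K P Ω) : r • v = (perm K P Ω).asAlgebraHom r v := rfl

instance (K P Ω : Type) [Field K] [Group P] [MulAction P Ω] :
    IsScalarTower K (MonoidAlgebra K P) (VV K P Ω) where
  smul_assoc t r v := by
    rw [smul_def, smul_def, map_smul, LinearMap.smul_apply]

lemma ev_single (σ : P) (a : K) (v : VV K P Ω) (x : Ω) :
    ev (MonoidAlgebra.single σ a • v) x = a * ev v (σ⁻¹ • x) := by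
  rw [smul_def, Representation.asAlgebraHom_single, LinearMap.smul_apply, ev_smul, ev_perm]

variable [Fintype Ω]

/-- the equivariant operator given by an invariant matrix -/
noncomputable def opM (B : Matrix Ω Ω K) (hB : ∀ (σ : P) (x y : Ω), B (σ • x) (σ • y) = B x y) :
    VV K P Ω →ₗ[MonoidAlgebra K P] VV K P Ω :=
  MonoidAlgebra.equivariantOfLinearOfComm
    (((mkV P).toLinearMap.comp B.mulVecLin).comp (mkV P).symm.toLinearMap) (by
    intro σ v
    apply ev_ext
    intro x
    rw [ev_single, one_mul]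
    show ∑ y, B x y * ev (MonoidAlgebra.single σ (1 : K) • v) y = ∑ y, B (σ⁻¹ • x) y * ev v y
    rw [← Equiv.sum_comp (MulAction.toPerm σ)
      (fun y => B x y * ev (MonoidAlgebra.single σ (1 : K) • v) y)]
    refine Finset.sum_congr rfl fun y _ => ?_
    rw [MulAction.toPerm_apply, ev_single, one_mul, inv_smul_smul]
    have := hB σ⁻¹ x (σ • y)
    rw [inv_smul_smul] at this
    rw [this])

lemma ev_opM (B : Matrix Ω Ω K) (hB : ∀ (σ : P) (x y : Ω), B (σ • x) (σ • y) = B x y)
    (v : VV K P Ω) (x : Ω) : ev (opM B hB v) x = ∑ y, B x y * ev v y := rfl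

end

section TT

variable {P Ω : Type} [Group P] [Fintype P] [MulAction P Ω] [Fintype Ω] [DecidableEq Ω]

/-- the operator on matrices whose image is the space of homomorphisms -/
def TT (P : Type) [Group P] [Fintype P] [MulAction P Ω] {K : Type} [CommRing K]
    (A A' : Matrix Ω Ω K) : Matrix (Ω × Ω) (Ω × Ω) K :=
  fun p r => ∑ σ : P, A' p.1 (σ • r.1) * A (σ • r.2) p.2

lemma TT_map {K L : Type} [CommRing K] [CommRing L] (f : K →+* L) (A A' : Matrix Ω Ω K) :
    (TT P A A').map f = TT P (A.map f) (A'.map f) := by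
  ext p r
  simp only [TT, Matrix.map_apply, map_sum, map_mul]

lemma TT_sq {K : Type} [CommRing K] (n : K) (hn : n = (Fintype.card P : K)) (A A' : Matrix Ω Ω K)
    (hA : ∀ (σ : P) (x y : Ω), A (σ • x) (σ • y) = A x y)
    (hA' : ∀ (σ : P) (x y : Ω), A' (σ • x) (σ • y) = A' x y)
    (h : A * A = n • A) (h' : A' * A' = n • A') :
    TT P A A' * TT P A A' = n ^ 3 • TT P A A' := by
  have e : ∀ (B : Matrix Ω Ω K), (∀ (σ : P) (x y : Ω), B (σ • x) (σ • y) = B x y) →
      B * B = n • B → ∀ (σ τ : P) (x y : Ω),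
      ∑ u, B x (σ • u) * B u (τ • y) = n * B x ((σ * τ) • y) := by
    intro B hB hBB σ τ x y
    have h1 := congrFun (congrFun hBB x) ((σ * τ) • y)
    rw [Matrix.mul_apply, Matrix.smul_apply, smul_eq_mul] at h1
    rw [← h1, ← Equiv.sum_comp (MulAction.toPerm σ) (fun u => B x u * B u ((σ * τ) • y))]
    refine Finset.sum_congr rfl fun u _ => ?_
    rw [MulAction.toPerm_apply, mul_smul, hB]
  have e' : ∀ (σ τ : P) (x y : Ω),
      ∑ u, A (σ • u) x * A (τ • y) u = n * A ((σ * τ) • y) x := by
    intro σ τ x y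
    have h1 := congrFun (congrFun h ((σ * τ) • y)) x
    rw [Matrix.mul_apply, Matrix.smul_apply, smul_eq_mul] at h1
    rw [← h1, ← Equiv.sum_comp (MulAction.toPerm σ) (fun u => A ((σ * τ) • y) u * A u x)]
    refine Finset.sum_congr rfl fun u _ => ?_
    rw [MulAction.toPerm_apply, mul_smul, hA, mul_comm]
  ext p r
  rw [Matrix.mul_apply, Matrix.smul_apply, smul_eq_mul]
  have h1 : ∀ s : Ω × Ω, TT P A A' p s * TT P A A' s r
      = ∑ σ : P, ∑ τ : P, (A' p.1 (σ • s.1) * A' s.1 (τ • r.1))
        * (A (σ • s.2) p.2 * A (τ • r.2) s.2) := by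
    intro s
    rw [TT, TT, Finset.sum_mul_sum]
    refine Finset.sum_congr rfl fun σ _ => Finset.sum_congr rfl fun τ _ => ?_
    ring
  rw [Finset.sum_congr rfl fun s _ => h1 s, Finset.sum_comm]
  have h2 : ∀ σ : P, ∑ s : Ω × Ω, ∑ τ : P, (A' p.1 (σ • s.1) * A' s.1 (τ • r.1))
        * (A (σ • s.2) p.2 * A (τ • r.2) s.2)
      = ∑ τ : P, n ^ 2 * (A' p.1 ((σ * τ) • r.1) * A ((σ * τ) • r.2) p.2) := by
    intro σ
    rw [Finset.sum_comm]
    refine Finset.sum_congr rfl fun τ _ => ?_
    rw [Fintype.sum_prod_type]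
    simp_rw [← Finset.mul_sum, ← Finset.sum_mul]
    rw [e A' hA' h' σ τ, e' σ τ]
    ring
  rw [Finset.sum_congr rfl fun σ _ => h2 σ]
  have h3 : ∀ σ : P, ∑ τ : P, n ^ 2 * (A' p.1 ((σ * τ) • r.1) * A ((σ * τ) • r.2) p.2)
      = n ^ 2 * TT P A A' p r := by
    intro σ
    rw [TT, Finset.mul_sum, ← Equiv.sum_comp (Equiv.mulLeft σ)
      (fun τ : P => n ^ 2 * (A' p.1 (τ • r.1) * A (τ • r.2) p.2))]
    rfl
  rw [Finset.sum_congr rfl fun σ _ => h3 σ, Finset.sum_const, Finset.card_univ, nsmul_eq_mul, ← hn]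
  ring

end TT

section H

variable {K P Ω : Type} [Field K] [Group P] [Fintype P] [MulAction P Ω] [Fintype Ω]
  [DecidableEq Ω]

lemma eq_sum_mkV (v : VV K P Ω) : v = ∑ y, ev v y • mkV P (Pi.single y (1 : K)) := by
  apply ev_ext
  intro x
  rw [ev_sum, Finset.sum_eq_single x]
  · rw [ev_smul, ev_mkV, Pi.single_eq_same, mul_one]
  · intro y _ hy
    rw [ev_smul, ev_mkV, Pi.single_eq_of_ne hy.symm, mul_zero]
  · intro h
    exact absurd (Finset.mem_univ x) h

lemma single_smul_mkV (σ : P) (y : Ω) :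
    MonoidAlgebra.single σ (1 : K) • mkV P (Pi.single y (1 : K))
      = mkV P (Pi.single (σ • y) (1 : K)) := by
  apply ev_ext
  intro x
  rw [ev_single, one_mul, ev_mkV, ev_mkV]
  by_cases h : x = σ • y
  · subst h
    rw [inv_smul_smul, Pi.single_eq_same, Pi.single_eq_same]
  · rw [Pi.single_eq_of_ne h, Pi.single_eq_of_ne]
    intro h'
    apply h
    rw [← h', smul_inv_smul]

lemma opM_comp_self (n : K) (A : Matrix Ω Ω K)
    (hA : ∀ (σ : P) (x y : Ω), A (σ • x) (σ • y) = A x y) (h : A * A = n • A) (v : VV K P Ω) :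
    opM A hA (opM A hA v) = n • opM A hA v := by
  apply ev_ext
  intro x
  rw [ev_opM, ev_smul]
  simp_rw [ev_opM, Finset.mul_sum]
  rw [Finset.sum_comm]
  refine Finset.sum_congr rfl fun y _ => ?_
  simp_rw [← mul_assoc]
  rw [← Finset.sum_mul]
  congr 1
  have := congrFun (congrFun h x) y
  rwa [Matrix.mul_apply] at this

/-- The space of homomorphisms between the images of `A` and `A'`. -/
theorem finrank_hom_eq (n : K) (hn : n = (Fintype.card P : K)) (hn0 : n ≠ 0)
    (A A' : Matrix Ω Ω K)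
    (hA : ∀ (σ : P) (x y : Ω), A (σ • x) (σ • y) = A x y)
    (hA' : ∀ (σ : P) (x y : Ω), A' (σ • x) (σ • y) = A' x y)
    (h : A * A = n • A) (h' : A' * A' = n • A') :
    finrank K (LinearMap.range (opM A hA) →ₗ[MonoidAlgebra K P] LinearMap.range (opM A' hA'))
      = finrank K (LinearMap.range (TT P A A').mulVecLin) := by
  let r : VV K P Ω →ₗ[MonoidAlgebra K P] LinearMap.range (opM A hA) := (opM A hA).rangeRestrict
  let Ψ : (LinearMap.range (opM A hA) →ₗ[MonoidAlgebra K P] LinearMap.range (opM A' hA'))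
      →ₗ[K] (Ω × Ω → K) :=
    { toFun := fun φ p => ev (φ (r (mkV P (Pi.single p.2 1))) : VV K P Ω) p.1
      map_add' := fun φ ψ => rfl
      map_smul' := fun a φ => rfl }
  have hΨ : ∀ φ p, Ψ φ p = ev (φ (r (mkV P (Pi.single p.2 1))) : VV K P Ω) p.1 := fun _ _ => rfl
  have hinj : Function.Injective Ψ := by
    rw [injective_iff_map_eq_zero]
    intro φ hφ
    have h1 : ∀ y, φ (r (mkV P (Pi.single y 1))) = 0 := by
      intro y
      apply Subtype.ext
      apply ev_ext
      intro x
      exact congrFun hφ (x, y)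
    apply LinearMap.ext
    rintro ⟨_, w, rfl⟩
    have h2 : (⟨opM A hA w, w, rfl⟩ : LinearMap.range (opM A hA)) = r w := rfl
    rw [h2, eq_sum_mkV w, map_sum, map_sum, LinearMap.zero_apply]
    refine Finset.sum_eq_zero fun y _ => ?_
    rw [LinearMap.map_smul_of_tower, LinearMap.map_smul_of_tower, h1, smul_zero]
  have hrange : LinearMap.range Ψ = LinearMap.range (TT P A A').mulVecLin := by
    apply le_antisymm
    · rintro _ ⟨φ, rfl⟩
      -- invariance
      have ha : ∀ (σ : P) (u v : Ω), Ψ φ (σ • u, σ • v) = Ψ φ (u, v) := by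
        intro σ u v
        rw [hΨ, hΨ]
        show ev (φ (r (mkV P (Pi.single (σ • v) 1))) : VV K P Ω) (σ • u) = _
        rw [← single_smul_mkV, map_smul, map_smul, Submodule.coe_smul, ev_single, one_mul,
          inv_smul_smul]
      have hb : ∀ x v : Ω, ∑ u, A' x u * Ψ φ (u, v) = n * Ψ φ (x, v) := by
        intro x v
        obtain ⟨w, hw⟩ := (φ (r (mkV P (Pi.single v 1)))).2
        have h1 := congrArg (fun z => ev z x) (opM_comp_self n A' hA' h' w)
        simp only [ev_smul] at h1
        rw [ev_opM, hw] at h1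
        exact h1
      have hc : ∀ u y : Ω, ∑ v, A v y * Ψ φ (u, v) = n * Ψ φ (u, y) := by
        intro u y
        have h1 : r (opM A hA (mkV P (Pi.single y 1))) = n • r (mkV P (Pi.single y 1)) :=
          Subtype.ext (opM_comp_self n A hA h _)
        have h2 : opM A hA (mkV P (Pi.single y (1 : K))) = ∑ v, A v y • mkV P (Pi.single v 1) := by
          conv_lhs => rw [eq_sum_mkV (opM A hA (mkV P (Pi.single y (1 : K))))]
          refine Finset.sum_congr rfl fun v _ => ?_
          congr 1
          rw [ev_opM, Finset.sum_eq_single y]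
          · rw [ev_mkV, Pi.single_eq_same, mul_one]
          · intro z _ hz
            rw [ev_mkV, Pi.single_eq_of_ne hz, mul_zero]
          · intro h
            exact absurd (Finset.mem_univ y) h
        rw [h2, map_sum] at h1
        have h3 := congrArg (fun z => ev ((φ z : LinearMap.range (opM A' hA')) : VV K P Ω) u) h1
        simp only [map_sum] at h3
        have h4 : ev ((∑ v, φ (r (A v y • mkV P (Pi.single v 1))) :
            LinearMap.range (opM A' hA')) : VV K P Ω) u
            = ∑ v, A v y * Ψ φ (u, v) := by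
          have h5 : ((∑ v, φ (r (A v y • mkV P (Pi.single v 1))) :
              LinearMap.range (opM A' hA')) : VV K P Ω)
              = ∑ v, A v y • ((φ (r (mkV P (Pi.single v 1))) :
                LinearMap.range (opM A' hA')) : VV K P Ω) := by
            rw [AddSubmonoidClass.coe_finsetSum]
            refine Finset.sum_congr rfl fun v _ => ?_
            rw [LinearMap.map_smul_of_tower, LinearMap.map_smul_of_tower]
            rfl
          rw [h5, ev_sum]
          rfl
        rw [h4] at h3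
        rw [h3, LinearMap.map_smul_of_tower]
        rfl
      refine ⟨(n ^ 3)⁻¹ • Ψ φ, ?_⟩
      rw [map_smul]
      have h1 : (TT P A A').mulVecLin (Ψ φ) = n ^ 3 • Ψ φ := by
        funext p
        obtain ⟨x, y⟩ := p
        show ∑ s : Ω × Ω, (∑ σ : P, A' x (σ • s.1) * A (σ • s.2) y) * Ψ φ s = n ^ 3 * Ψ φ (x, y)
        simp_rw [Finset.sum_mul]
        rw [Finset.sum_comm]
        have h2 : ∀ σ : P, ∑ s : Ω × Ω, A' x (σ • s.1) * A (σ • s.2) y * Ψ φ s
            = n ^ 2 * Ψ φ (x, y) := by
          intro σ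
          rw [← Equiv.sum_comp (Equiv.prodCongr (MulAction.toPerm σ⁻¹) (MulAction.toPerm σ⁻¹))
            (fun s : Ω × Ω => A' x (σ • s.1) * A (σ • s.2) y * Ψ φ s)]
          have h3 : ∀ s : Ω × Ω, A' x (σ • ((Equiv.prodCongr (MulAction.toPerm σ⁻¹)
              (MulAction.toPerm σ⁻¹)) s).1) * A (σ • ((Equiv.prodCongr (MulAction.toPerm σ⁻¹)
              (MulAction.toPerm σ⁻¹)) s).2) y * Ψ φ ((Equiv.prodCongr (MulAction.toPerm σ⁻¹)
              (MulAction.toPerm σ⁻¹)) s) = A' x s.1 * (A s.2 y * Ψ φ (s.1, s.2)) := by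
            intro s
            show A' x (σ • (σ⁻¹ • s.1)) * A (σ • (σ⁻¹ • s.2)) y * Ψ φ (σ⁻¹ • s.1, σ⁻¹ • s.2) = _
            rw [smul_inv_smul, smul_inv_smul, ha, mul_assoc]
          rw [Finset.sum_congr rfl fun s _ => h3 s, Fintype.sum_prod_type]
          simp_rw [← Finset.mul_sum]
          simp_rw [hc]
          have h6 : ∀ u : Ω, A' x u * (n * Ψ φ (u, y)) = n * (A' x u * Ψ φ (u, y)) := by
            intro u; ring
          rw [Finset.sum_congr rfl fun u _ => h6 u, ← Finset.mul_sum, hb]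
          ring
        rw [Finset.sum_congr rfl fun σ _ => h2 σ, Finset.sum_const, Finset.card_univ,
          nsmul_eq_mul, ← hn]
        ring
      rw [h1, smul_smul, inv_mul_cancel₀ (pow_ne_zero 3 hn0), one_smul]
    · rintro _ ⟨Y, rfl⟩
      let N : Matrix Ω Ω K := fun u v => ∑ σ : P, Y (σ⁻¹ • u, σ⁻¹ • v)
      have hN : ∀ (σ : P) (x y : Ω), N (σ • x) (σ • y) = N x y := by
        intro σ x y
        show ∑ τ : P, Y (τ⁻¹ • σ • x, τ⁻¹ • σ • y) = ∑ τ : P, Y (τ⁻¹ • x, τ⁻¹ • y)
        rw [← Equiv.sum_comp (Equiv.mulLeft σ) (fun τ : P => Y (τ⁻¹ • σ • x, τ⁻¹ • σ • y))]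
        refine Finset.sum_congr rfl fun τ _ => ?_
        rw [Equiv.coe_mulLeft, mul_inv_rev, mul_smul, mul_smul, inv_smul_smul, inv_smul_smul]
      refine ⟨(opM A' hA').rangeRestrict.comp
        ((opM N hN).comp (LinearMap.range (opM A hA)).subtype), ?_⟩
      funext p
      obtain ⟨x, y⟩ := p
      rw [hΨ]
      show ev (opM A' hA' (opM N hN (opM A hA (mkV P (Pi.single y 1))))) x
        = ∑ s : Ω × Ω, (∑ σ : P, A' x (σ • s.1) * A (σ • s.2) y) * Y s
      have h1 : ∀ v, ev (opM A hA (mkV P (Pi.single y (1 : K)))) v = A v y := by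
        intro v
        rw [ev_opM, Finset.sum_eq_single y]
        · rw [ev_mkV, Pi.single_eq_same, mul_one]
        · intro z _ hz
          rw [ev_mkV, Pi.single_eq_of_ne hz, mul_zero]
        · intro h
          exact absurd (Finset.mem_univ y) h
      rw [ev_opM]
      have h2 : ∀ u, ev (opM N hN (opM A hA (mkV P (Pi.single y (1 : K))))) u
          = ∑ v, N u v * A v y := by
        intro u
        rw [ev_opM]
        exact Finset.sum_congr rfl fun v _ => by rw [h1]
      simp_rw [h2]
      simp_rw [Finset.sum_mul]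
      rw [Finset.sum_comm]
      have h3 : ∀ σ : P, ∑ s : Ω × Ω, A' x (σ • s.1) * A (σ • s.2) y * Y s
          = ∑ u, ∑ v, A' x u * (Y (σ⁻¹ • u, σ⁻¹ • v) * A v y) := by
        intro σ
        rw [← Fintype.sum_prod_type' (f := fun u v => A' x u * (Y (σ⁻¹ • u, σ⁻¹ • v) * A v y)),
          ← Equiv.sum_comp (Equiv.prodCongr (MulAction.toPerm σ) (MulAction.toPerm σ))
            (fun s : Ω × Ω => A' x s.1 * (Y (σ⁻¹ • s.1, σ⁻¹ • s.2) * A s.2 y))]
        refine Finset.sum_congr rfl fun s _ => ?_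
        show _ = A' x (σ • s.1) * (Y (σ⁻¹ • σ • s.1, σ⁻¹ • σ • s.2) * A (σ • s.2) y)
        rw [inv_smul_smul, inv_smul_smul]
        ring
      rw [Finset.sum_congr rfl fun σ _ => h3 σ, Finset.sum_comm]
      refine Finset.sum_congr rfl fun u _ => ?_
      rw [Finset.sum_comm, Finset.mul_sum]
      refine Finset.sum_congr rfl fun v _ => ?_
      rw [Finset.sum_mul, Finset.mul_sum]
  rw [← hrange, LinearMap.finrank_range_of_inj hinj]

end H

end Pool.Agent.Lib.MP_938ce2_ag_h67
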