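import Mathlib
import Pool.Agent.Lib.MP_938ce2_ag_h67.Hom

/-!
Every submodule of the rational permutation module is the image of an invariant integer matrix `A`
with `A ^ 2 = |P| A`.
-/

set_option autoImplicit false
set_option linter.unusedSectionVars false

namespace Pool.Agent.Lib.MP_938ce2_ag_h67

open Module MonoidAlgebra

variable {P Ω : Type} [Group P] [Fintype P] [MulAction P Ω] [Fintype Ω] [DecidableEq Ω]

/-- the integral points of a submodule -/
def lat (M : Submodule (MonoidAlgebra ℚ P) (VV ℚ P Ω)) : Submodule ℤ (Ω → ℤ) where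
  carrier := {f | mkV P (fun x => (f x : ℚ)) ∈ M}
  zero_mem' := by
    have h : mkV P (fun x : Ω => (((0 : Ω → ℤ) x : ℤ) : ℚ)) = 0 := by
      apply ev_ext
      intro x
      rw [ev_mkV, ev_zero, Pi.zero_apply, Int.cast_zero]
    show mkV P (fun x : Ω => (((0 : Ω → ℤ) x : ℤ) : ℚ)) ∈ M
    rw [h]
    exact M.zero_mem
  add_mem' := by
    intro f f' hf hf'
    have h : mkV P (fun x : Ω => (((f + f') x : ℤ) : ℚ))
        = mkV P (fun x => (f x : ℚ)) + mkV P (fun x => (f' x : ℚ)) := by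
      apply ev_ext
      intro x
      rw [ev_add, ev_mkV, ev_mkV, ev_mkV, Pi.add_apply, Int.cast_add]
    show mkV P (fun x : Ω => (((f + f') x : ℤ) : ℚ)) ∈ M
    rw [h]
    exact M.add_mem hf hf'
  smul_mem' := by
    intro a f hf
    have h : mkV P (fun x : Ω => (((a • f) x : ℤ) : ℚ)) = (a : ℚ) • mkV P (fun x => (f x : ℚ)) := by
      apply ev_ext
      intro x
      rw [ev_smul, ev_mkV, ev_mkV, Pi.smul_apply, smul_eq_mul, Int.cast_mul]
    show mkV P (fun x : Ω => (((a • f) x : ℤ) : ℚ)) ∈ M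
    rw [h]
    exact M.smul_of_tower_mem _ hf

lemma mem_lat (M : Submodule (MonoidAlgebra ℚ P) (VV ℚ P Ω)) (f : Ω → ℤ) :
    f ∈ lat M ↔ mkV P (fun x => (f x : ℚ)) ∈ M := Iff.rfl

/-- translation of functions -/
def tr (σ : P) : (Ω → ℤ) →ₗ[ℤ] (Ω → ℤ) := LinearMap.funLeft ℤ ℤ (fun x => σ⁻¹ • x)

lemma tr_apply (σ : P) (f : Ω → ℤ) (x : Ω) : tr σ f x = f (σ⁻¹ • x) := rfl

lemma tr_mul (σ τ : P) (f : Ω → ℤ) : tr (σ * τ) f = tr σ (tr τ f) := by
  funext x
  rw [tr_apply, tr_apply, tr_apply, mul_inv_rev, mul_smul]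

lemma tr_one (f : Ω → ℤ) : tr (1 : P) f = f := by
  funext x
  rw [tr_apply, inv_one, one_smul]

lemma tr_mem (M : Submodule (MonoidAlgebra ℚ P) (VV ℚ P Ω)) (σ : P) {f : Ω → ℤ}
    (hf : f ∈ lat M) : tr σ f ∈ lat M := by
  rw [mem_lat] at hf ⊢
  have h := M.smul_mem (MonoidAlgebra.single σ (1 : ℚ)) hf
  have h2 : MonoidAlgebra.single σ (1 : ℚ) • mkV P (fun x => (f x : ℚ))
      = mkV P (fun x => ((tr σ f x : ℤ) : ℚ)) := by
    apply ev_ext
    intro x
    rw [ev_single, one_mul, ev_mkV, ev_mkV, tr_apply]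
  rwa [h2] at h

lemma exists_proj (M : Submodule (MonoidAlgebra ℚ P) (VV ℚ P Ω)) :
    ∃ π : (Ω → ℤ) →ₗ[ℤ] (Ω → ℤ), (∀ f, π f ∈ lat M) ∧ (∀ f ∈ lat M, π f = f) := by
  have htf : Module.IsTorsionFree ℤ ((Ω → ℤ) ⧸ lat M) := by
    rw [Module.isTorsionFree_iff_smul_eq_zero]
    intro a v
    obtain ⟨f, rfl⟩ := Submodule.mkQ_surjective _ v
    intro h
    by_cases ha : a = 0
    · exact Or.inl ha
    · right
      rw [← map_smul, Submodule.mkQ_apply, Submodule.Quotient.mk_eq_zero] at h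
      rw [Submodule.mkQ_apply, Submodule.Quotient.mk_eq_zero]
      rw [mem_lat] at h ⊢
      have h1 := M.smul_of_tower_mem ((a : ℚ)⁻¹) h
      have h2 : (a : ℚ)⁻¹ • mkV P (fun x => (((a • f) x : ℤ) : ℚ))
          = mkV P (fun x => (f x : ℚ)) := by
        apply ev_ext
        intro x
        rw [ev_smul, ev_mkV, ev_mkV, Pi.smul_apply, smul_eq_mul, Int.cast_mul, ← mul_assoc,
          inv_mul_cancel₀ (by exact_mod_cast ha), one_mul]
      rwa [h2] at h1
  have hfree : Module.Free ℤ ((Ω → ℤ) ⧸ lat M) := inferInstance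
  obtain ⟨s, hs⟩ := Module.projective_lifting_property (lat M).mkQ
    (LinearMap.id : ((Ω → ℤ) ⧸ lat M) →ₗ[ℤ] _) (Submodule.mkQ_surjective _)
  let π : (Ω → ℤ) →ₗ[ℤ] (Ω → ℤ) := LinearMap.id - s.comp (lat M).mkQ
  have hπ : ∀ f, π f = f - s ((lat M).mkQ f) := fun f => rfl
  refine ⟨π, ?_, ?_⟩
  · intro f
    have h1 : (lat M).mkQ (π f) = 0 := by
      have h2 := congrArg (fun t => t ((lat M).mkQ f)) hs
      simp only [LinearMap.comp_apply, LinearMap.id_apply] at h2
      rw [hπ, map_sub, h2, sub_self]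
    rwa [Submodule.mkQ_apply, Submodule.Quotient.mk_eq_zero] at h1
  · intro f hf
    have h1 : (lat M).mkQ f = 0 := by
      rwa [Submodule.mkQ_apply, Submodule.Quotient.mk_eq_zero]
    rw [hπ, h1, map_zero, sub_zero]

/-- the invariant integer matrix -/
theorem exists_mat (M : Submodule (MonoidAlgebra ℚ P) (VV ℚ P Ω)) :
    ∃ A : Matrix Ω Ω ℤ, (∀ (σ : P) (x y : Ω), A (σ • x) (σ • y) = A x y) ∧
      A * A = (Fintype.card P : ℤ) • A ∧
      (∀ f : Ω → ℤ, A.mulVec f ∈ lat M) ∧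
      (∀ f ∈ lat M, A.mulVec f = (Fintype.card P : ℤ) • f) := by
  obtain ⟨π, h1, h2⟩ := exists_proj M
  let T : (Ω → ℤ) →ₗ[ℤ] (Ω → ℤ) := ∑ σ : P, (tr σ).comp (π.comp (tr σ⁻¹))
  have hT : ∀ f, T f = ∑ σ : P, tr σ (π (tr σ⁻¹ f)) := by
    intro f
    rw [LinearMap.sum_apply]
    rfl
  have hTm : ∀ f, T f ∈ lat M := by
    intro f
    rw [hT]
    exact Submodule.sum_mem _ fun σ _ => tr_mem M σ (h1 _)
  have hTid : ∀ f ∈ lat M, T f = (Fintype.card P : ℤ) • f := by
    intro f hf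
    have h3 : ∀ σ : P, tr σ (π (tr σ⁻¹ f)) = f := by
      intro σ
      rw [h2 _ (tr_mem M σ⁻¹ hf), ← tr_mul, mul_inv_cancel, tr_one]
    rw [hT, Finset.sum_congr rfl fun σ _ => h3 σ, Finset.sum_const, Finset.card_univ]
    exact (natCast_zsmul _ _).symm
  have hTe : ∀ (σ : P) f, T (tr σ f) = tr σ (T f) := by
    intro σ f
    rw [hT, hT, map_sum, ← Equiv.sum_comp (Equiv.mulLeft σ)]
    refine Finset.sum_congr rfl fun τ _ => ?_
    rw [Equiv.coe_mulLeft, mul_inv_rev, tr_mul]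
    have h3 : tr (τ⁻¹ * σ⁻¹) (tr σ f) = tr τ⁻¹ f := by
      rw [← tr_mul, inv_mul_cancel_right]
    rw [h3]
  refine ⟨LinearMap.toMatrix' T, ?_, ?_, ?_, ?_⟩
  · intro σ x y
    rw [LinearMap.toMatrix'_apply, LinearMap.toMatrix'_apply]
    have h3 : (Pi.single (σ • y) (1 : ℤ) : Ω → ℤ) = tr σ (Pi.single y 1) := by
      funext j
      rw [tr_apply]
      by_cases h : j = σ • y
      · subst h
        rw [Pi.single_eq_same, inv_smul_smul, Pi.single_eq_same]
      · rw [Pi.single_eq_of_ne h, Pi.single_eq_of_ne]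
        intro h'
        apply h
        rw [← h', smul_inv_smul]
    rw [h3, hTe, tr_apply, inv_smul_smul]
  · rw [← LinearMap.toMatrix'_comp, ← map_smul]
    congr 1
    apply LinearMap.ext
    intro f
    rw [LinearMap.comp_apply, hTid _ (hTm f), LinearMap.smul_apply]
  · intro f
    rw [LinearMap.toMatrix'_mulVec]
    exact hTm f
  · intro f hf
    rw [LinearMap.toMatrix'_mulVec]
    exact hTid f hf

/-- the matrix over a field -/
def castM (K : Type) [Field K] (A : Matrix Ω Ω ℤ) : Matrix Ω Ω K := A.map (Int.cast : ℤ → K)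

lemma castM_inv {K : Type} [Field K] {A : Matrix Ω Ω ℤ}
    (hA : ∀ (σ : P) (x y : Ω), A (σ • x) (σ • y) = A x y) (σ : P) (x y : Ω) :
    castM K A (σ • x) (σ • y) = castM K A x y := by
  show ((A (σ • x) (σ • y) : ℤ) : K) = ((A x y : ℤ) : K)
  rw [hA]

lemma castM_sq {K : Type} [Field K] {A : Matrix Ω Ω ℤ} {n : ℕ} (h : A * A = (n : ℤ) • A) :
    castM K A * castM K A = (n : K) • castM K A := by
  have h1 := congrArg (fun B : Matrix Ω Ω ℤ => B.map (Int.castRingHom K)) h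
  simp only [Matrix.map_mul] at h1
  have h2 : ((n : ℤ) • A).map (Int.castRingHom K) = (n : K) • castM K A := by
    ext x y
    show (((n : ℤ) • A) x y : K) = (n : K) * (A x y : K)
    rw [Matrix.smul_apply, smul_eq_mul]
    push_cast
    rfl
  rw [h2] at h1
  exact h1

lemma range_castM (M : Submodule (MonoidAlgebra ℚ P) (VV ℚ P Ω)) (A : Matrix Ω Ω ℤ)
    (hA : ∀ (σ : P) (x y : Ω), A (σ • x) (σ • y) = A x y)
    (h1 : ∀ f : Ω → ℤ, A.mulVec f ∈ lat M)
    (h2 : ∀ f ∈ lat M, A.mulVec f = (Fintype.card P : ℤ) • f) :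
    LinearMap.range (opM (castM ℚ A) (castM_inv hA)) = M := by
  have hn : (Fintype.card P : ℚ) ≠ 0 := by
    exact_mod_cast Fintype.card_ne_zero
  apply le_antisymm
  · rintro _ ⟨w, rfl⟩
    rw [eq_sum_mkV w, map_sum]
    refine Submodule.sum_mem _ fun y _ => ?_
    rw [LinearMap.map_smul_of_tower]
    refine M.smul_of_tower_mem _ ?_
    have h3 := h1 (Pi.single y 1)
    rw [mem_lat] at h3
    convert h3 using 1
    apply ev_ext
    intro x
    rw [ev_opM, ev_mkV, Matrix.mulVec_single_one]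
    rw [Finset.sum_eq_single y]
    · rw [ev_mkV, Pi.single_eq_same, mul_one]
      rfl
    · intro z _ hz
      rw [ev_mkV, Pi.single_eq_of_ne hz, mul_zero]
    · intro h
      exact absurd (Finset.mem_univ y) h
  · intro v hv
    -- clear denominators
    obtain ⟨N, hN0, f, hf⟩ : ∃ N : ℤ, N ≠ 0 ∧
        ∃ f : Ω → ℤ, (N : ℚ) • v = mkV P (fun x => (f x : ℚ)) := by
      obtain ⟨b, hb⟩ := IsLocalization.exist_integer_multiples_of_finite
        (nonZeroDivisors ℤ) (ev v)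
      refine ⟨b, nonZeroDivisors.ne_zero b.2, fun x => (hb x).choose, ?_⟩
      apply ev_ext
      intro x
      have := (hb x).choose_spec
      rw [ev_smul, ev_mkV]
      have h3 : (algebraMap ℤ ℚ) (hb x).choose = (((hb x).choose : ℤ) : ℚ) := rfl
      rw [← h3, this, zsmul_eq_mul]
    have hN : (N : ℚ) ≠ 0 := by exact_mod_cast hN0
    have hfL : f ∈ lat M := by
      rw [mem_lat, ← hf]
      exact M.smul_of_tower_mem _ hv
    have h3 := h2 f hfL
    have h4 : opM (castM ℚ A) (castM_inv hA) (mkV P (fun x => (f x : ℚ)))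
        = (Fintype.card P : ℚ) • mkV P (fun x => (f x : ℚ)) := by
      apply ev_ext
      intro x
      rw [ev_opM, ev_smul, ev_mkV]
      have h5 := congrArg (fun t : ℤ => (t : ℚ)) (congrFun h3 x)
      simp only [Matrix.mulVec, dotProduct, Pi.smul_apply, smul_eq_mul] at h5
      push_cast at h5
      rw [← h5]
      rfl
    rw [← hf, LinearMap.map_smul_of_tower, smul_comm] at h4
    have h6 : opM (castM ℚ A) (castM_inv hA) v = (Fintype.card P : ℚ) • v :=
      smul_right_injective _ hN h4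
    refine ⟨(Fintype.card P : ℚ)⁻¹ • v, ?_⟩
    rw [LinearMap.map_smul_of_tower, h6, smul_smul, inv_mul_cancel₀ hn, one_smul]

end Pool.Agent.Lib.MP_938ce2_ag_h67
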