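import Mathlib
import Pool.Agent.Lib.MP_938ce2_ag_h67.Lattice
import Pool.Agent.Lib.MP_938ce2_ag_h79.ModuleCount

/-!
Reduction modulo `q` of the submodules of the rational permutation module.
-/

set_option autoImplicit false
set_option linter.unusedSectionVars false

namespace Pool.Agent.Lib.MP_938ce2_ag_h67

open Module MonoidAlgebra

variable {P Ω : Type} [Group P] [Fintype P] [MulAction P Ω] [Fintype Ω] [DecidableEq Ω]

lemma finrank_hom_congr {K R A B A' B' : Type} [Field K] [Ring R] [Algebra K R] [AddCommGroup A]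
    [AddCommGroup B] [Module K A] [Module K B] [Module R A] [Module R B] [IsScalarTower K R A]
    [IsScalarTower K R B] [AddCommGroup A'] [AddCommGroup B'] [Module K A'] [Module K B']
    [Module R A'] [Module R B'] [IsScalarTower K R A'] [IsScalarTower K R B']
    (e : A ≃ₗ[R] A') (f : B ≃ₗ[R] B') :
    finrank K (A →ₗ[R] B) = finrank K (A' →ₗ[R] B') := by
  let E : (A →ₗ[R] B) ≃ₗ[K] (A' →ₗ[R] B') :=
    { LinearEquiv.arrowCongrAddEquiv e f with
      map_smul' := by
        intro c φ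
        apply LinearMap.ext
        intro x
        show f (c • φ (e.symm x)) = c • f (φ (e.symm x))
        exact LinearMap.map_smul_of_tower f.toLinearMap c (φ (e.symm x)) }
  exact E.finrank_eq

/-- the invariant integer matrix of a submodule -/
noncomputable def mat (M : Submodule (MonoidAlgebra ℚ P) (VV ℚ P Ω)) : Matrix Ω Ω ℤ :=
  (exists_mat M).choose

section

variable (M M' : Submodule (MonoidAlgebra ℚ P) (VV ℚ P Ω))

lemma mat_inv (σ : P) (x y : Ω) : mat M (σ • x) (σ • y) = mat M x y :=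
  (exists_mat M).choose_spec.1 σ x y

lemma mat_sq : mat M * mat M = (Fintype.card P : ℤ) • mat M := (exists_mat M).choose_spec.2.1

lemma mat_mem (f : Ω → ℤ) : (mat M).mulVec f ∈ lat M := (exists_mat M).choose_spec.2.2.1 f

lemma mat_id (f : Ω → ℤ) (hf : f ∈ lat M) : (mat M).mulVec f = (Fintype.card P : ℤ) • f :=
  (exists_mat M).choose_spec.2.2.2 f hf

/-- the image of the matrix of `M` over the field `K` -/
noncomputable def red (K : Type) [Field K] : Submodule (MonoidAlgebra K P) (VV K P Ω) :=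
  LinearMap.range (opM (castM K (mat M)) (castM_inv (mat_inv M)))

lemma red_rat : red M ℚ = M := range_castM M (mat M) (mat_inv M) (mat_mem M) (mat_id M)

/-- The dimension of the space of homomorphisms over `K` is the rank of an integer matrix. -/
lemma finrank_hom_red (K : Type) [Field K] (hK : (Fintype.card P : K) ≠ 0) :
    finrank K (red M K →ₗ[MonoidAlgebra K P] red M' K)
      = finrank K (LinearMap.range (mv K (TT P (mat M) (mat M')))) := by
  have h1 := finrank_hom_eq (P := P) (Fintype.card P : K) rfl hK (castM K (mat M))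
    (castM K (mat M')) (castM_inv (mat_inv M)) (castM_inv (mat_inv M'))
    (castM_sq (mat_sq M)) (castM_sq (mat_sq M'))
  have h2 : TT P (castM K (mat M)) (castM K (mat M')) = (TT P (mat M) (mat M')).map (Int.castRingHom K) :=
    (TT_map (Int.castRingHom K) _ _).symm
  rw [h2] at h1
  exact h1

variable (q : ℕ) [Fact q.Prime]

lemma card_ne_zero_mod (hq : ¬ q ∣ Fintype.card P) : (Fintype.card P : ZMod q) ≠ 0 := by
  intro h
  exact hq ((ZMod.natCast_eq_zero_iff _ _).mp h)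

/-- homomorphisms between the reductions modulo `q` -/
theorem finrank_hom_red_mod (hq : ¬ q ∣ Fintype.card P) :
    finrank (ZMod q) (red M (ZMod q) →ₗ[MonoidAlgebra (ZMod q) P] red M' (ZMod q))
      = finrank ℚ (M →ₗ[MonoidAlgebra ℚ P] M') := by
  have hn := card_ne_zero_mod (P := P) q hq
  have hn' : (Fintype.card P : ℚ) ≠ 0 := by exact_mod_cast Fintype.card_ne_zero
  have h1 := finrank_hom_red M M' (ZMod q) hn
  have h2 := finrank_hom_red M M' ℚ hn'
  rw [red_rat, red_rat] at h2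
  rw [h1, h2]
  refine finrank_mod_eq q _ ((Fintype.card P : ℤ) ^ 3) ?_ ?_
  · push_cast
    exact pow_ne_zero 3 hn
  · exact TT_sq (Fintype.card P : ℤ) rfl _ _ (mat_inv M) (mat_inv M') (mat_sq M) (mat_sq M')

/-- dimension of the reduction -/
theorem finrank_red_mod (hq : ¬ q ∣ Fintype.card P) :
    finrank (ZMod q) (red M (ZMod q)) = finrank ℚ M := by
  have hn := card_ne_zero_mod (P := P) q hq
  have e : ∀ (K : Type) [Field K], finrank K (red M K)
      = finrank K (LinearMap.range (mv K (mat M))) := by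
    intro K _
    exact rfl
  have h2 := e ℚ
  rw [red_rat] at h2
  rw [h2, e (ZMod q)]
  exact finrank_mod_eq q _ (Fintype.card P : ℤ) (by push_cast; exact hn) (mat_sq M)

lemma red_top (K : Type) [Field K] (hK : (Fintype.card P : K) ≠ 0) :
    red (⊤ : Submodule (MonoidAlgebra ℚ P) (VV ℚ P Ω)) K = ⊤ := by
  rw [eq_top_iff]
  intro v _
  have h1 : mat (⊤ : Submodule (MonoidAlgebra ℚ P) (VV ℚ P Ω)) = (Fintype.card P : ℤ) • 1 := by
    ext x y
    have h2 := congrFun (mat_id (⊤ : Submodule (MonoidAlgebra ℚ P) (VV ℚ P Ω)) (Pi.single y 1)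
      (by rw [mem_lat]; trivial)) x
    rw [Matrix.mulVec_single_one] at h2
    rw [Matrix.smul_apply, Matrix.one_apply]
    refine h2.trans ?_
    rw [Pi.smul_apply, Pi.single_apply]
  refine ⟨(Fintype.card P : K)⁻¹ • v, ?_⟩
  apply ev_ext
  intro x
  rw [ev_opM, Finset.sum_eq_single x]
  · show ((mat (⊤ : Submodule (MonoidAlgebra ℚ P) (VV ℚ P Ω)) x x : ℤ) : K) * _ = _
    rw [h1, Matrix.smul_apply, Matrix.one_apply_eq, smul_eq_mul, mul_one, ev_smul, ← mul_assoc]
    push_cast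
    rw [mul_inv_cancel₀ hK, one_mul]
  · intro y _ hy
    show ((mat (⊤ : Submodule (MonoidAlgebra ℚ P) (VV ℚ P Ω)) x y : ℤ) : K) * _ = _
    rw [h1, Matrix.smul_apply, Matrix.one_apply_ne hy.symm, smul_zero, Int.cast_zero, zero_mul]
  · intro h
    exact absurd (Finset.mem_univ x) h

/-- homomorphisms of the reduction to the permutation module -/
theorem finrank_hom_top_mod (hq : ¬ q ∣ Fintype.card P) :
    finrank (ZMod q) (red M (ZMod q) →ₗ[MonoidAlgebra (ZMod q) P] VV (ZMod q) P Ω)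
      = finrank ℚ (M →ₗ[MonoidAlgebra ℚ P] VV ℚ P Ω) := by
  have h1 := finrank_hom_red_mod M ⊤ q hq
  rw [red_top _ (card_ne_zero_mod (P := P) q hq)] at h1
  have e1 : finrank (ZMod q) (red M (ZMod q) →ₗ[MonoidAlgebra (ZMod q) P]
      (⊤ : Submodule (MonoidAlgebra (ZMod q) P) (VV (ZMod q) P Ω)))
      = finrank (ZMod q) (red M (ZMod q) →ₗ[MonoidAlgebra (ZMod q) P] VV (ZMod q) P Ω) := by
    exact finrank_hom_congr (LinearEquiv.refl _ _) Submodule.topEquiv
  have e2 : finrank ℚ (M →ₗ[MonoidAlgebra ℚ P]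
      (⊤ : Submodule (MonoidAlgebra ℚ P) (VV ℚ P Ω)))
      = finrank ℚ (M →ₗ[MonoidAlgebra ℚ P] VV ℚ P Ω) := by
    exact finrank_hom_congr (LinearEquiv.refl _ _) Submodule.topEquiv
  rw [← e1, ← e2, h1]

lemma card_hom_eq (K R A B : Type) [Field K] [Fintype K] [Ring R] [Algebra K R] [AddCommGroup A]
    [AddCommGroup B] [Module K A] [Module K B] [Module R A] [Module R B] [IsScalarTower K R A]
    [IsScalarTower K R B] [Finite A] [Finite B] :
    Nat.card (A →ₗ[R] B) = Fintype.card K ^ finrank K (A →ₗ[R] B) := by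
  have : Finite (A →ₗ[R] B) := DFunLike.finite _
  have : Module.Finite K (A →ₗ[R] B) := inferInstance
  have h := Module.natCard_eq_pow_finrank (K := K) (V := A →ₗ[R] B)
  rw [h, Nat.card_eq_fintype_card]

instance : Finite (VV (ZMod q) P Ω) := inferInstanceAs (Finite (Ω → ZMod q))

/-- isomorphic submodules have isomorphic reductions -/
theorem red_iso (hq : ¬ q ∣ Fintype.card P) (h : Nonempty (M ≃ₗ[MonoidAlgebra ℚ P] M')) :
    Nonempty (red M (ZMod q) ≃ₗ[MonoidAlgebra (ZMod q) P] red M' (ZMod q)) := by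
  obtain ⟨e⟩ := h
  have hne : NeZero (Nat.card P : ZMod q) := ⟨by
    rw [Nat.card_eq_fintype_card]
    exact card_ne_zero_mod (P := P) q hq⟩
  apply Pool.Agent.Lib.MP_938ce2_ag_h79.iso_of_card_hom
  rw [card_hom_eq (ZMod q), card_hom_eq (ZMod q), card_hom_eq (ZMod q), card_hom_eq (ZMod q),
    finrank_hom_red_mod _ _ q hq, finrank_hom_red_mod _ _ q hq, finrank_hom_red_mod _ _ q hq,
    finrank_hom_red_mod _ _ q hq]
  have e1 : finrank ℚ (M →ₗ[MonoidAlgebra ℚ P] M) = finrank ℚ (M →ₗ[MonoidAlgebra ℚ P] M') :=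
    finrank_hom_congr (LinearEquiv.refl _ _) e
  have e2 : finrank ℚ (M' →ₗ[MonoidAlgebra ℚ P] M) = finrank ℚ (M →ₗ[MonoidAlgebra ℚ P] M') :=
    finrank_hom_congr e.symm e
  have e3 : finrank ℚ (M' →ₗ[MonoidAlgebra ℚ P] M') = finrank ℚ (M →ₗ[MonoidAlgebra ℚ P] M') :=
    finrank_hom_congr e.symm (LinearEquiv.refl _ _)
  rw [e1, e2, e3]

/-- Elements of the reduction are reductions of integral points. -/
lemma exists_of_mem_red {v : VV (ZMod q) P Ω} (hv : v ∈ red M (ZMod q)) :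
    ∃ f ∈ lat M, v = mkV P (fun x => (f x : ZMod q)) := by
  obtain ⟨w, rfl⟩ := hv
  refine ⟨(mat M).mulVec (fun x => ((ev w x).val : ℤ)), mat_mem M _, ?_⟩
  apply ev_ext
  intro x
  rw [ev_opM, ev_mkV, Matrix.mulVec, dotProduct]
  push_cast
  refine Finset.sum_congr rfl fun y _ => ?_
  rw [ZMod.natCast_zmod_val]
  rfl

open Classical in
/-- Counting the weights orthogonal to some copy of `M`. -/
theorem card_bad_mul_le (hq : ¬ q ∣ Fintype.card P) (w : Finset Ω → Ω → ℤ) (B : ℝ)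
    (hB : ∀ U : Submodule (MonoidAlgebra (ZMod q) P) (VV (ZMod q) P Ω),
      finrank (ZMod q) U = finrank ℚ M →
      ((Finset.univ.filter fun η : Finset Ω => ∀ v ∈ U, ∑ x, (w η x : ZMod q) * ev v x = 0).card : ℝ)
        ≤ B) :
    ((Finset.univ.filter fun η : Finset Ω =>
        ∃ M' : Submodule (MonoidAlgebra ℚ P) (VV ℚ P Ω),
          Nonempty (M ≃ₗ[MonoidAlgebra ℚ P] M') ∧
            ∀ v ∈ M', ∑ x, (w η x : ℚ) * ev v x = 0).card : ℝ)
      * Nat.card (red M (ZMod q) ≃ₗ[MonoidAlgebra (ZMod q) P] red M (ZMod q))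
      ≤ (q : ℝ) ^ finrank ℚ (M →ₗ[MonoidAlgebra ℚ P] VV ℚ P Ω) * B := by
  let 𝒰 : Type := {U : Submodule (MonoidAlgebra (ZMod q) P) (VV (ZMod q) P Ω) //
    Nonempty (red M (ZMod q) ≃ₗ[MonoidAlgebra (ZMod q) P] U)}
  have hfin : Finite 𝒰 := inferInstanceAs (Finite {U : Submodule (MonoidAlgebra (ZMod q) P)
    (VV (ZMod q) P Ω) // Nonempty (red M (ZMod q) ≃ₗ[MonoidAlgebra (ZMod q) P] U)})
  let _ : Fintype 𝒰 := Fintype.ofFinite 𝒰
  have h1 : Nat.card 𝒰 * Nat.card (red M (ZMod q) ≃ₗ[MonoidAlgebra (ZMod q) P] red M (ZMod q))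
      ≤ q ^ finrank ℚ (M →ₗ[MonoidAlgebra ℚ P] VV ℚ P Ω) := by
    have h2 := Pool.Agent.Lib.MP_938ce2_ag_h79.card_submodules_iso_le
      (R := MonoidAlgebra (ZMod q) P) (A := red M (ZMod q)) (V := VV (ZMod q) P Ω)
    rw [card_hom_eq (ZMod q), finrank_hom_top_mod M q hq, ZMod.card] at h2
    exact h2
  have hfr : ∀ U : 𝒰, finrank (ZMod q) U.1 = finrank ℚ M := by
    rintro ⟨U, ⟨e⟩⟩
    rw [← finrank_red_mod M q hq]
    exact (e.restrictScalars (ZMod q)).finrank_eq.symm
  have hB0 : 0 ≤ B := le_trans (Nat.cast_nonneg _) (hB (red M (ZMod q)) (finrank_red_mod M q hq))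
  have h3 : ((Finset.univ.filter fun η : Finset Ω =>
        ∃ M' : Submodule (MonoidAlgebra ℚ P) (VV ℚ P Ω),
          Nonempty (M ≃ₗ[MonoidAlgebra ℚ P] M') ∧
            ∀ v ∈ M', ∑ x, (w η x : ℚ) * ev v x = 0).card : ℝ) ≤ Nat.card 𝒰 * B := by
    have h4 : (Finset.univ.filter fun η : Finset Ω =>
        ∃ M' : Submodule (MonoidAlgebra ℚ P) (VV ℚ P Ω),
          Nonempty (M ≃ₗ[MonoidAlgebra ℚ P] M') ∧
            ∀ v ∈ M', ∑ x, (w η x : ℚ) * ev v x = 0)
        ⊆ (Finset.univ : Finset 𝒰).biUnion fun U =>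
          Finset.univ.filter fun η : Finset Ω => ∀ v ∈ U.1, ∑ x, (w η x : ZMod q) * ev v x = 0 := by
      intro η hη
      obtain ⟨M', hM', hv⟩ := (Finset.mem_filter.mp hη).2
      rw [Finset.mem_biUnion]
      refine ⟨⟨red M' (ZMod q), red_iso M M' q hq hM'⟩, Finset.mem_univ _, ?_⟩
      rw [Finset.mem_filter]
      refine ⟨Finset.mem_univ _, ?_⟩
      intro v hvU
      obtain ⟨f, hf, rfl⟩ := exists_of_mem_red M' q hvU
      have h5 := hv _ ((mem_lat M' f).mp hf)
      have h6 : ((∑ x, w η x * f x : ℤ) : ℚ) = 0 := by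
        push_cast
        exact h5
      have h7 : (∑ x, w η x * f x : ℤ) = 0 := by exact_mod_cast h6
      have h8 := congrArg (fun t : ℤ => (t : ZMod q)) h7
      simp only [Int.cast_sum, Int.cast_mul, Int.cast_zero] at h8
      exact h8
    calc ((Finset.univ.filter fun η : Finset Ω =>
        ∃ M' : Submodule (MonoidAlgebra ℚ P) (VV ℚ P Ω),
          Nonempty (M ≃ₗ[MonoidAlgebra ℚ P] M') ∧
            ∀ v ∈ M', ∑ x, (w η x : ℚ) * ev v x = 0).card : ℝ)
        ≤ ((Finset.univ : Finset 𝒰).biUnion fun U =>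
          Finset.univ.filter fun η : Finset Ω =>
            ∀ v ∈ U.1, ∑ x, (w η x : ZMod q) * ev v x = 0).card := by
          exact_mod_cast Finset.card_le_card h4
      _ ≤ ∑ U : 𝒰, ((Finset.univ.filter fun η : Finset Ω =>
            ∀ v ∈ U.1, ∑ x, (w η x : ZMod q) * ev v x = 0).card : ℝ) := by
          exact_mod_cast Finset.card_biUnion_le
      _ ≤ ∑ _U : 𝒰, B := Finset.sum_le_sum fun U _ => hB U.1 (hfr U)
      _ = Nat.card 𝒰 * B := by
          rw [Finset.sum_const, Finset.card_univ, nsmul_eq_mul, Nat.card_eq_fintype_card]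
  have h9 : (Nat.card 𝒰 : ℝ) * Nat.card (red M (ZMod q) ≃ₗ[MonoidAlgebra (ZMod q) P] red M (ZMod q))
      ≤ (q : ℝ) ^ finrank ℚ (M →ₗ[MonoidAlgebra ℚ P] VV ℚ P Ω) := by exact_mod_cast h1
  calc _ ≤ Nat.card 𝒰 * B
        * Nat.card (red M (ZMod q) ≃ₗ[MonoidAlgebra (ZMod q) P] red M (ZMod q)) :=
        mul_le_mul_of_nonneg_right h3 (Nat.cast_nonneg _)
    _ = (Nat.card 𝒰 * Nat.card (red M (ZMod q) ≃ₗ[MonoidAlgebra (ZMod q) P] red M (ZMod q))) * B := by
        ring
    _ ≤ _ := mul_le_mul_of_nonneg_right h9 hB0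

end

end Pool.Agent.Lib.MP_938ce2_ag_h67
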