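import Mathlib
import Pool.Agent.Lib.MP_938ce2_ag_h67.Red

/-!
Lower bounds for the number of automorphisms of a finite semisimple module.
-/

set_option autoImplicit false
set_option linter.unusedSectionVars false

namespace Pool.Agent.Lib.MP_938ce2_ag_h67

open Module

lemma pow_add_one_le (a : ℝ) (ha : 0 ≤ a) (d : ℕ) (hd : 1 ≤ d) : a ^ d + 1 ≤ (a + 1) ^ d := by
  induction d, hd using Nat.le_induction with
  | base => simp
  | succ d hd ih =>
    have h1 : (a + 1) ^ (d + 1) = (a + 1) ^ d * (a + 1) := pow_succ _ _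
    have h2 : 0 ≤ a ^ d := by positivity
    rw [h1]
    have h3 : (a ^ d + 1) * (a + 1) ≤ (a + 1) ^ d * (a + 1) :=
      mul_le_mul_of_nonneg_right ih (by linarith)
    refine le_trans ?_ h3
    rw [pow_succ]
    nlinarith

section

variable {q : ℕ} [Fact q.Prime] {R A : Type} [Ring R] [Algebra (ZMod q) R] [AddCommGroup A]
  [Module (ZMod q) A] [Module R A] [IsScalarTower (ZMod q) R A] [Finite A]
  [IsSemisimpleModule R A]

theorem aut_ge_odd (hq : 3 ≤ q) :
    ((q : ℝ) - 1) ^ finrank (ZMod q) (A →ₗ[R] A) ≤ Nat.card (A ≃ₗ[R] A) := by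
  have hq3 : (3 : ℝ) ≤ q := by exact_mod_cast hq
  have hlog : 0 < Real.log q := Real.log_pos (by linarith)
  set θ : ℝ := Real.log (q - 1) / Real.log q with hθ
  have h0 : 0 ≤ θ := div_nonneg (Real.log_nonneg (by linarith)) hlog.le
  have h1 : θ ≤ 1 := by
    rw [hθ, div_le_one hlog]
    exact Real.log_le_log (by linarith) (by linarith)
  have hqθ : (q : ℝ) ^ θ = q - 1 := by
    rw [Real.rpow_def_of_pos (by linarith), hθ, mul_div_cancel₀ _ hlog.ne', Real.exp_log (by linarith)]
  have hpow : ∀ d : ℕ, (((q ^ d : ℕ) : ℝ)) ^ θ = ((q : ℝ) - 1) ^ d := by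
    intro d
    push_cast
    rw [← Real.rpow_natCast, ← Real.rpow_mul (by linarith), mul_comm, Real.rpow_mul (by linarith),
      hqθ, Real.rpow_natCast]
  have hmain := Pool.Agent.Lib.MP_938ce2_ag_h79.card_end_rpow_le_card_aut (R := R) (A := A) θ h0 h1 (by
    intro N hN
    have hNfin : Finite N := inferInstance
    rw [card_hom_eq (ZMod q), ZMod.card, hpow]
    have hnt : Nontrivial N := IsSimpleModule.nontrivial R N
    have hnt2 : Nontrivial (N →ₗ[R] N) := by
      obtain ⟨x, hx⟩ := exists_ne (0 : N)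
      exact ⟨⟨LinearMap.id, 0, fun h => hx (by simpa using congrArg (fun f => f x) h)⟩⟩
    have hfe : Finite (N →ₗ[R] N) := DFunLike.finite _
    have hfin : Module.Finite (ZMod q) (N →ₗ[R] N) := inferInstance
    have hd : 1 ≤ finrank (ZMod q) (N →ₗ[R] N) := Module.finrank_pos
    have h2 := pow_add_one_le ((q : ℝ) - 1) (by linarith) _ hd
    have h3 : ((q : ℝ) - 1 + 1) = q := by ring
    rw [h3] at h2
    push_cast
    linarith)
  rw [card_hom_eq (ZMod q), ZMod.card, hpow] at hmain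
  exact hmain

end

section

variable {R A : Type} [Ring R] [Algebra (ZMod 2) R] [AddCommGroup A]
  [Module (ZMod 2) A] [Module R A] [IsScalarTower (ZMod 2) R A] [Finite A]
  [IsSemisimpleModule R A]

theorem aut_ge_two (h : ∀ N : Submodule R A, IsSimpleModule R N → 3 ≤ Nat.card (N →ₗ[R] N)) :
    (2 : ℝ) ^ ((finrank (ZMod 2) (A →ₗ[R] A) : ℝ) / 2) ≤ Nat.card (A ≃ₗ[R] A) := by
  have hmain := Pool.Agent.Lib.MP_938ce2_ag_h79.card_end_rpow_le_card_aut (R := R) (A := A)
    (1 / 2) (by norm_num) (by norm_num) (by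
    intro N hN
    have h3 : (3 : ℝ) ≤ Nat.card (N →ₗ[R] N) := by exact_mod_cast h N hN
    rw [← Real.sqrt_eq_rpow, Real.sqrt_le_left (by linarith)]
    nlinarith)
  have : Fact (Nat.Prime 2) := ⟨Nat.prime_two⟩
  rw [card_hom_eq (ZMod 2), ZMod.card] at hmain
  refine le_trans (le_of_eq ?_) hmain
  push_cast
  rw [← Real.rpow_natCast, ← Real.rpow_mul (by norm_num)]
  congr 1
  ring

end

end Pool.Agent.Lib.MP_938ce2_ag_h67
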