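import Pool.Agent.Lib.MP_938ce2_ag_h67.Char

/-!
Codes invariant under a transitive group: information sets and the number of orthogonal sign
vectors.
-/

set_option autoImplicit false

namespace Pool.Agent.Lib.MP_938ce2_ag_h67

open Finset Real Module

section Info

variable {F : Type} [Field F] {Ω : Type} [Fintype Ω]

/-- existence of an information set -/
lemma exists_info (C : Submodule F (Ω → F)) :
    ∃ (κ : Type) (_ : Fintype κ) (a : κ → Ω), Function.Injective a ∧
      Fintype.card κ = finrank F C ∧
      Function.Bijective (fun (y : C) (i : κ) => (y : Ω → F) (a i)) := by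
  classical
  let v : Ω → Dual F C := fun x => (LinearMap.proj x).comp C.subtype
  obtain ⟨κ, a, ha, hsp, hli⟩ := exists_linearIndependent' F v
  have hfin : Finite κ := Finite.of_injective a ha
  let _ : Fintype κ := Fintype.ofFinite κ
  let r : C →ₗ[F] (κ → F) := LinearMap.pi fun i => v (a i)
  have hr : ∀ (y : C) (i : κ), r y i = (y : Ω → F) (a i) := fun y i => rfl
  have hinj : Function.Injective r := by
    rw [injective_iff_map_eq_zero]
    intro y hy
    have h1 : ∀ φ ∈ Submodule.span F (Set.range (v ∘ a)), φ y = 0 := by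
      intro φ hφ
      induction hφ using Submodule.span_induction with
      | mem φ hφ =>
        obtain ⟨i, rfl⟩ := hφ
        exact congrFun hy i
      | zero => rfl
      | add φ ψ _ _ h1 h2 => rw [LinearMap.add_apply, h1, h2, add_zero]
      | smul c φ _ h => rw [LinearMap.smul_apply, h, smul_zero]
    apply Subtype.ext
    funext x
    have h2 : v x ∈ Submodule.span F (Set.range (v ∘ a)) := by
      rw [hsp]
      exact Submodule.subset_span ⟨x, rfl⟩
    exact h1 _ h2
  have hle : finrank F C ≤ Fintype.card κ := by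
    have := LinearMap.finrank_le_finrank_of_injective hinj
    rwa [finrank_fintype_fun_eq_card] at this
  have hge : Fintype.card κ ≤ finrank F C := by
    have := hli.fintype_card_le_finrank
    rwa [Subspace.dual_finrank_eq] at this
  have hcard := le_antisymm hge hle
  refine ⟨κ, inferInstance, a, ha, hcard, ?_⟩
  have hsur : Function.Surjective r := by
    rw [← LinearMap.injective_iff_surjective_of_finrank_eq_finrank]
    · exact hinj
    · rw [finrank_fintype_fun_eq_card, hcard]
  exact ⟨hinj, hsur⟩

end Info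

section Transitive

variable {P : Type} [Group P] [Fintype P] {Ω : Type} [Fintype Ω] [MulAction P Ω]
  [MulAction.IsPretransitive P Ω]

lemma sum_smul_transitive (f : Ω → ℝ) (x₀ : Ω) :
    (Fintype.card Ω : ℝ) * ∑ σ : P, f (σ • x₀) = Fintype.card P * ∑ x, f x := by
  have h1 : ∀ x₁ : Ω, ∑ σ : P, f (σ • x₁) = ∑ σ : P, f (σ • x₀) := by
    intro x₁
    obtain ⟨τ, rfl⟩ := MulAction.exists_smul_eq P x₀ x₁
    rw [← Equiv.sum_comp (Equiv.mulRight τ) (fun σ : P => f (σ • x₀))]
    refine Finset.sum_congr rfl fun σ _ => ?_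
    rw [Equiv.coe_mulRight, mul_smul]
  have h2 : ∑ x₁ : Ω, ∑ σ : P, f (σ • x₁) = Fintype.card P * ∑ x, f x := by
    rw [Finset.sum_comm]
    have : ∀ σ : P, ∑ x : Ω, f (σ • x) = ∑ x, f x := fun σ =>
      Equiv.sum_comp (MulAction.toPerm σ) f
    rw [Finset.sum_congr rfl fun σ _ => this σ, Finset.sum_const, Finset.card_univ, nsmul_eq_mul]
  rw [← h2, Finset.sum_congr rfl fun x₁ _ => h1 x₁, Finset.sum_const, Finset.card_univ,
    nsmul_eq_mul]

variable {q : ℕ} [Fact q.Prime]

lemma sum_pi_pow {κ : Type} [Fintype κ] [DecidableEq κ] (c : ℝ) :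
    ∑ z : κ → ZMod q, c ^ (univ.filter fun i => z i ≠ 0).card
      = (1 + (q - 1) * c) ^ Fintype.card κ := by
  have h1 : ∀ z : κ → ZMod q, c ^ (univ.filter fun i => z i ≠ 0).card
      = ∏ i, (if z i ≠ 0 then c else 1) := by
    intro z
    rw [Finset.prod_ite, Finset.prod_const, Finset.prod_const_one, mul_one]
  have h2 : ∑ t : ZMod q, (if t ≠ 0 then c else 1) = 1 + (q - 1) * c := by
    rw [Finset.sum_ite, Finset.sum_const, Finset.sum_const]
    have h3 : (univ.filter fun t : ZMod q => t ≠ 0).card = q - 1 := by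
      rw [Finset.filter_ne', Finset.card_erase_of_mem (Finset.mem_univ _), Finset.card_univ,
        ZMod.card]
    have h4 : (univ.filter fun t : ZMod q => ¬ t ≠ 0).card = 1 := by
      have : (univ.filter fun t : ZMod q => ¬ t ≠ 0) = {0} := by
        ext t; simp
      rw [this, Finset.card_singleton]
    rw [h3, h4, nsmul_eq_mul, nsmul_eq_mul, Nat.cast_sub (Fact.out : q.Prime).one_le]
    push_cast
    ring
  rw [Finset.sum_congr rfl fun z _ => h1 z, ← h2, ← Finset.card_univ, ← Finset.prod_const,
    Finset.prod_univ_sum, Fintype.piFinset_univ]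

variable (C : Submodule (ZMod q) (Ω → ZMod q))

open Classical in
lemma sum_code_le (hC : ∀ σ : P, ∀ y ∈ C, (fun x => y (σ • x)) ∈ C)
    (hpos : 0 < finrank (ZMod q) C) {β : ℝ} :
    ∑ y : C, exp (-β) ^ wt (y : Ω → ZMod q)
      ≤ (1 + (q - 1) * exp (-(β * Fintype.card Ω / finrank (ZMod q) C)))
        ^ finrank (ZMod q) C := by
  obtain ⟨κ, _, a, ha, hcard, hbij⟩ := exists_info C
  set ν := finrank (ZMod q) C with hν
  set g := Fintype.card Ω with hg
  have hνR : (0 : ℝ) < ν := by exact_mod_cast hpos
  have hP : (0 : ℝ) < Fintype.card P := by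
    exact_mod_cast Fintype.card_pos
  -- weights on the translates of the information set
  let w : P → C → ℕ := fun σ y => (univ.filter fun i : κ => (y : Ω → ZMod q) (σ • a i) ≠ 0).card
  have hw : ∀ y : C, (ν : ℝ) * (Fintype.card P * wt (y : Ω → ZMod q)) = g * ∑ σ : P, (w σ y : ℝ) := by
    intro y
    have h1 : ∀ i : κ, (g : ℝ) * ∑ σ : P, (if (y : Ω → ZMod q) (σ • a i) ≠ 0 then (1 : ℝ) else 0)
        = Fintype.card P * wt (y : Ω → ZMod q) := by
      intro i
      rw [hg, sum_smul_transitive (P := P) (fun x => if (y : Ω → ZMod q) x ≠ 0 then (1 : ℝ) else 0)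
        (a i), wt, Finset.sum_ite, Finset.sum_const, Finset.sum_const_zero, add_zero,
        nsmul_eq_mul, mul_one]
    have h2 : ∀ σ : P, (w σ y : ℝ)
        = ∑ i : κ, (if (y : Ω → ZMod q) (σ • a i) ≠ 0 then (1 : ℝ) else 0) := by
      intro σ
      rw [Finset.sum_ite, Finset.sum_const, Finset.sum_const_zero, add_zero, nsmul_eq_mul, mul_one]
    rw [Finset.sum_congr rfl fun σ _ => h2 σ, Finset.sum_comm, Finset.mul_sum,
      Finset.sum_congr rfl fun i _ => h1 i, Finset.sum_const, Finset.card_univ, hcard,
      nsmul_eq_mul]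
  set γ : ℝ := β * g / ν with hγ
  have h3 : ∀ y : C, exp (-β) ^ wt (y : Ω → ZMod q)
      ≤ ∑ σ : P, (Fintype.card P : ℝ)⁻¹ * exp (-γ) ^ w σ y := by
    intro y
    have h4 := convexOn_exp.map_sum_le (t := (univ : Finset P))
      (w := fun _ => (Fintype.card P : ℝ)⁻¹) (p := fun σ => (w σ y : ℝ) * (-γ))
      (fun _ _ => by positivity) (by
        rw [Finset.sum_const, Finset.card_univ, nsmul_eq_mul, mul_inv_cancel₀ hP.ne'])
      (fun _ _ => Set.mem_univ _)
    simp only [smul_eq_mul] at h4
    have h5 : exp (-β) ^ wt (y : Ω → ZMod q)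
        = exp (∑ σ : P, (Fintype.card P : ℝ)⁻¹ * ((w σ y : ℝ) * (-γ))) := by
      rw [← exp_nat_mul]
      congr 1
      rw [← Finset.mul_sum, ← Finset.sum_mul]
      have h6 := hw y
      have h7 : (wt (y : Ω → ZMod q) : ℝ)
          = g * (∑ σ : P, (w σ y : ℝ)) / (ν * Fintype.card P) := by
        rw [← h6]
        field_simp
      rw [h7, hγ]
      field_simp
    rw [h5]
    refine h4.trans (le_of_eq (Finset.sum_congr rfl fun σ _ => ?_))
    rw [exp_nat_mul]
  have h8 : ∀ σ : P, ∑ y : C, exp (-γ) ^ w σ y = (1 + (q - 1) * exp (-γ)) ^ ν := by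
    intro σ
    have hb : Function.Bijective (fun (y : C) (i : κ) => (y : Ω → ZMod q) (σ • a i)) := by
      let T : C → C := fun y => ⟨fun x => (y : Ω → ZMod q) (σ • x), hC σ y y.2⟩
      have hT : Function.Bijective T := by
        refine Function.bijective_iff_has_inverse.mpr
          ⟨fun y => ⟨fun x => (y : Ω → ZMod q) (σ⁻¹ • x), hC σ⁻¹ y y.2⟩, fun y => ?_, fun y => ?_⟩
        · apply Subtype.ext
          funext x
          show (y : Ω → ZMod q) (σ • σ⁻¹ • x) = _
          rw [smul_inv_smul]
        · apply Subtype.ext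
          funext x
          show (y : Ω → ZMod q) (σ⁻¹ • σ • x) = _
          rw [inv_smul_smul]
      exact hbij.comp hT
    have h9 := Function.Bijective.sum_comp hb
      (fun z : κ → ZMod q => exp (-γ) ^ (univ.filter fun i => z i ≠ 0).card)
    rw [sum_pi_pow, hcard] at h9
    exact h9
  calc ∑ y : C, exp (-β) ^ wt (y : Ω → ZMod q)
      ≤ ∑ y : C, ∑ σ : P, (Fintype.card P : ℝ)⁻¹ * exp (-γ) ^ w σ y :=
        Finset.sum_le_sum fun y _ => h3 y
    _ = ∑ σ : P, (Fintype.card P : ℝ)⁻¹ * ∑ y : C, exp (-γ) ^ w σ y := by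
        rw [Finset.sum_comm]
        exact Finset.sum_congr rfl fun σ _ => by rw [Finset.mul_sum]
    _ = (1 + (q - 1) * exp (-γ)) ^ ν := by
        rw [Finset.sum_congr rfl fun σ _ => by rw [h8 σ], Finset.sum_const, Finset.card_univ,
          nsmul_eq_mul, ← mul_assoc, mul_inv_cancel₀ hP.ne', one_mul]

open Classical in
/-- The number of sign vectors orthogonal to an invariant code, odd characteristic. -/
theorem card_orth_code_le (hq : Odd q) (hC : ∀ σ : P, ∀ y ∈ C, (fun x => y (σ • x)) ∈ C)
    (hpos : 0 < finrank (ZMod q) C) :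
    ((univ.filter fun η : Finset Ω => ∀ y ∈ C, ∑ x, (sg η x : ZMod q) * y x = 0).card : ℝ)
        * (q : ℝ) ^ finrank (ZMod q) C
      ≤ 2 ^ Fintype.card Ω *
        (1 + (q - 1) * exp (-(2 * Fintype.card Ω / (finrank (ZMod q) C * (q : ℝ) ^ 2))))
          ^ finrank (ZMod q) C := by
  have h1 := card_orth_le hq C
  have h2 := sum_code_le (P := P) C hC hpos (β := 2 / (q : ℝ) ^ 2)
  have h3 : Nat.card C = q ^ finrank (ZMod q) C := by
    have := Module.card_eq_pow_finrank (K := ZMod q) (V := C)
    rw [Nat.card_eq_fintype_card, this, ZMod.card]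
  rw [h3] at h1
  push_cast at h1
  refine h1.trans ?_
  have h4 : -(2 / (q : ℝ) ^ 2 * Fintype.card Ω / finrank (ZMod q) C)
      = -(2 * Fintype.card Ω / (finrank (ZMod q) C * (q : ℝ) ^ 2)) := by
    have hq0 : (q : ℝ) ≠ 0 := by exact_mod_cast (Fact.out : q.Prime).ne_zero
    have hν : (finrank (ZMod q) C : ℝ) ≠ 0 := by exact_mod_cast hpos.ne'
    field_simp
  rw [h4] at h2
  have h5 : -2 / (q : ℝ) ^ 2 = -(2 / (q : ℝ) ^ 2) := by ring
  rw [h5]
  exact mul_le_mul_of_nonneg_left h2 (by positivity)

end Transitive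

section Two

variable {F : Type} [Field F] {Ω : Type} [Fintype Ω]

open Classical in
/-- The number of subsets orthogonal to a subspace (over any field). -/
theorem card_orth_set_le (C : Submodule F (Ω → F)) :
    (univ.filter fun η : Finset Ω => ∀ y ∈ C, ∑ x ∈ η, y x = 0).card * 2 ^ finrank F C
      ≤ 2 ^ Fintype.card Ω := by
  obtain ⟨κ, _, a, ha, hcard, hbij⟩ := exists_info C
  set B : Finset Ω := univ.map ⟨a, ha⟩ with hB
  have hBc : B.card = finrank F C := by rw [hB, Finset.card_map, Finset.card_univ, hcard]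
  have h1 : (univ.filter fun η : Finset Ω => ∀ y ∈ C, ∑ x ∈ η, y x = 0).card
      ≤ (univ \ B).powerset.card := by
    refine Finset.card_le_card_of_injOn (fun η => η \ B) ?_ ?_
    · intro η _
      rw [Finset.mem_coe, Finset.mem_powerset]
      exact Finset.sdiff_subset_sdiff (Finset.subset_univ η) le_rfl
    · intro η hη θ hθ h
      rw [Finset.mem_coe, Finset.mem_filter] at hη hθ
      simp only at h
      have key : ∀ i : κ, (a i ∈ η ↔ a i ∈ θ) := by
        intro i
        obtain ⟨y, hy⟩ := hbij.2 (Pi.single i 1)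
        have hy' : ∀ j, (y : Ω → F) (a j) = (Pi.single i (1 : F) : κ → F) j :=
          fun j => congrFun hy j
        have split : ∀ ζ : Finset Ω, ∑ x ∈ ζ, (y : Ω → F) x
            = ∑ x ∈ ζ \ B, (y : Ω → F) x + (if a i ∈ ζ then 1 else 0) := by
          intro ζ
          rw [← Finset.sum_sdiff (Finset.inter_subset_left : ζ ∩ B ⊆ ζ), Finset.sdiff_inter_self_left]
          congr 1
          by_cases hi : a i ∈ ζ
          · rw [if_pos hi, Finset.sum_eq_single (a i)]
            · rw [hy', Pi.single_eq_same]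
            · intro b hb hne
              obtain ⟨j, _, rfl⟩ := Finset.mem_map.mp (Finset.mem_inter.mp hb).2
              have hji : j ≠ i := fun h => hne (by rw [h]; rfl)
              show (y : Ω → F) (a j) = 0
              rw [hy', Pi.single_eq_of_ne hji]
            · intro h'
              exact absurd (Finset.mem_inter.mpr
                ⟨hi, Finset.mem_map.mpr ⟨i, Finset.mem_univ _, rfl⟩⟩) h'
          · rw [if_neg hi]
            refine Finset.sum_eq_zero fun b hb => ?_
            obtain ⟨j, _, rfl⟩ := Finset.mem_map.mp (Finset.mem_inter.mp hb).2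
            have hji : j ≠ i := by
              rintro rfl
              exact hi (Finset.mem_inter.mp hb).1
            show (y : Ω → F) (a j) = 0
            rw [hy', Pi.single_eq_of_ne hji]
        have e1 := hη.2 y y.2
        have e2 := hθ.2 y y.2
        rw [split] at e1 e2
        rw [h] at e1
        have e3 : (if a i ∈ η then (1 : F) else 0) = if a i ∈ θ then (1 : F) else 0 :=
          add_left_cancel (e1.trans e2.symm)
        by_cases h3 : a i ∈ η
        · by_cases h4 : a i ∈ θ
          · exact ⟨fun _ => h4, fun _ => h3⟩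
          · rw [if_pos h3, if_neg h4] at e3
            exact absurd e3 one_ne_zero
        · by_cases h4 : a i ∈ θ
          · rw [if_neg h3, if_pos h4] at e3
            exact absurd e3.symm one_ne_zero
          · exact ⟨fun h' => absurd h' h3, fun h' => absurd h' h4⟩
      ext x
      by_cases hx : x ∈ B
      · obtain ⟨i, _, rfl⟩ := Finset.mem_map.mp hx
        exact key i
      · have := congrArg (fun s => x ∈ s) h
        simp only [Finset.mem_sdiff, hx, not_false_eq_true, and_true] at this
        exact this.to_iff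
  rw [Finset.card_powerset, Finset.card_sdiff_of_subset (Finset.subset_univ _), Finset.card_univ,
    hBc] at h1
  have h2 : finrank F C ≤ Fintype.card Ω := by
    rw [← hBc, ← Finset.card_univ]
    exact Finset.card_le_card (Finset.subset_univ _)
  calc _ ≤ 2 ^ (Fintype.card Ω - finrank F C) * 2 ^ finrank F C :=
        Nat.mul_le_mul_right _ h1
    _ = 2 ^ Fintype.card Ω := by rw [← pow_add, Nat.sub_add_cancel h2]

end Two

end Pool.Agent.Lib.MP_938ce2_ag_h67
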