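import Mathlib
import Pool.Agent.Lib.MP_938ce2_ag_h67.Red
import Pool.Agent.Lib.MP_938ce2_ag_h67.Aut
import Pool.Agent.Lib.MP_938ce2_ag_h67.Code

/-!
The number of sign vectors orthogonal to some submodule of a given type.
-/

set_option autoImplicit false
set_option linter.unusedSectionVars false

namespace Pool.Agent.Lib.MP_938ce2_ag_h67

open Module MonoidAlgebra

section Code

variable {P Ω : Type} [Group P] [Fintype P] [MulAction P Ω] [Fintype Ω]

/-- a submodule of the permutation module as a linear code -/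
noncomputable def code {K : Type} [Field K] (U : Submodule (MonoidAlgebra K P) (VV K P Ω)) :
    Submodule K (Ω → K) :=
  (U.restrictScalars K).map (mkV P).symm.toLinearMap

lemma mem_code {K : Type} [Field K] (U : Submodule (MonoidAlgebra K P) (VV K P Ω)) (y : Ω → K) :
    y ∈ code U ↔ mkV P y ∈ U := by
  unfold code
  rw [Submodule.mem_map]
  constructor
  · rintro ⟨v, hv, rfl⟩
    exact hv
  · intro h
    exact ⟨mkV P y, h, rfl⟩

lemma finrank_code {K : Type} [Field K] (U : Submodule (MonoidAlgebra K P) (VV K P Ω)) :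
    finrank K (code U) = finrank K U := by
  unfold code
  rw [LinearEquiv.finrank_map_eq]
  rfl

lemma code_inv {K : Type} [Field K] (U : Submodule (MonoidAlgebra K P) (VV K P Ω)) (σ : P)
    (y : Ω → K) (hy : y ∈ code U) : (fun x => y (σ • x)) ∈ code U := by
  rw [mem_code] at hy ⊢
  have h := U.smul_mem (MonoidAlgebra.single σ⁻¹ (1 : K)) hy
  have h2 : MonoidAlgebra.single σ⁻¹ (1 : K) • mkV P y = mkV P (fun x => y (σ • x)) := by
    apply ev_ext
    intro x
    rw [ev_single, one_mul, inv_inv, ev_mkV, ev_mkV]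
  rwa [h2] at h

variable {q : ℕ} [Fact q.Prime] [MulAction.IsPretransitive P Ω] [DecidableEq Ω]

open Classical in
/-- one submodule, odd characteristic -/
lemma card_one_odd (hq : Odd q) (U : Submodule (MonoidAlgebra (ZMod q) P) (VV (ZMod q) P Ω))
    (hpos : 0 < finrank (ZMod q) U) :
    ((Finset.univ.filter fun η : Finset Ω => ∀ v ∈ U, ∑ x, (sg η x : ZMod q) * ev v x = 0).card : ℝ)
      ≤ 2 ^ Fintype.card Ω * (1 + (q - 1) * Real.exp (-(2 * Fintype.card Ω
          / (finrank (ZMod q) U * (q : ℝ) ^ 2)))) ^ finrank (ZMod q) U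
        / (q : ℝ) ^ finrank (ZMod q) U := by
  have hinst : (inferInstance : DecidableEq Ω) = fun a b => Classical.propDecidable (a = b) :=
    Subsingleton.elim _ _
  have h := card_orth_code_le (P := P) (Ω := Ω) (q := q) (code U) hq
    (fun σ y hy => code_inv U σ y hy) (by rw [finrank_code]; exact hpos)
  rw [finrank_code] at h
  have hq0 : (0 : ℝ) < (q : ℝ) ^ finrank (ZMod q) U := by
    have : (0 : ℝ) < q := by exact_mod_cast (Fact.out : q.Prime).pos
    positivity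
  rw [le_div_iff₀ hq0]
  refine le_trans (le_of_eq ?_) h
  congr 1
  have e : (Finset.univ.filter fun η : Finset Ω => ∀ v ∈ U, ∑ x, (sg η x : ZMod q) * ev v x = 0)
      = (Finset.univ.filter fun η : Finset Ω => ∀ y ∈ code U, ∑ x, (@sg Ω (fun a b => Classical.propDecidable (a = b)) η x : ZMod q) * y x = 0) := by
    ext η
    simp only [Finset.mem_filter, Finset.mem_univ, true_and]
    constructor
    · intro h' y hy
      have := h' (mkV P y) ((mem_code U y).mp hy)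
      rw [← hinst]
      exact this
    · intro h' v hv
      have := h' (ev v) ((mem_code U (ev v)).mpr hv)
      rw [← hinst] at this
      exact this
  rw [e]
  congr!

open Classical in
/-- one submodule, characteristic two -/
lemma card_one_two (U : Submodule (MonoidAlgebra (ZMod q) P) (VV (ZMod q) P Ω)) :
    ((Finset.univ.filter fun η : Finset Ω =>
      ∀ v ∈ U, ∑ x, ((if x ∈ η then 1 else 0 : ℤ) : ZMod q) * ev v x = 0).card : ℝ)
      ≤ 2 ^ Fintype.card Ω / 2 ^ finrank (ZMod q) U := by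
  have h := card_orth_set_le (Ω := Ω) (code U)
  rw [finrank_code] at h
  rw [le_div_iff₀ (by positivity)]
  have h2 : (((Finset.univ.filter fun η : Finset Ω => ∀ y ∈ code U, ∑ x ∈ η, y x = 0).card : ℝ)
      * 2 ^ finrank (ZMod q) U) ≤ 2 ^ Fintype.card Ω := by exact_mod_cast h
  refine le_trans (le_of_eq ?_) h2
  congr 1
  have e : ∀ (η : Finset Ω) (y : Ω → ZMod q),
      ∑ x, (((if x ∈ η then 1 else 0 : ℤ) : ZMod q)) * y x = ∑ x ∈ η, y x := by
    intro η y
    rw [← Finset.sum_subset (Finset.subset_univ η)]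
    · refine Finset.sum_congr rfl fun x hx => ?_
      rw [if_pos hx, Int.cast_one, one_mul]
    · intro x _ hx
      rw [if_neg hx, Int.cast_zero, zero_mul]
  have e2 : (Finset.univ.filter fun η : Finset Ω =>
      ∀ v ∈ U, ∑ x, ((if x ∈ η then 1 else 0 : ℤ) : ZMod q) * ev v x = 0)
      = (Finset.univ.filter fun η : Finset Ω => ∀ y ∈ code U, ∑ x ∈ η, y x = 0) := by
    ext η
    simp only [Finset.mem_filter, Finset.mem_univ, true_and]
    constructor
    · intro h' y hy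
      have := h' (mkV P y) ((mem_code U y).mp hy)
      rw [← e]
      exact this
    · intro h' v hv
      have := h' (ev v) ((mem_code U (ev v)).mpr hv)
      rw [← e] at this
      exact this
  rw [e2]

end Code

section Bound

variable {P Ω : Type} [Group P] [Fintype P] [MulAction P Ω] [Fintype Ω] [DecidableEq Ω]
  [MulAction.IsPretransitive P Ω]

open Classical in
/-- the sign vectors orthogonal to some copy of `M` -/
noncomputable def badOf (M : Submodule (MonoidAlgebra ℚ P) (VV ℚ P Ω)) : Finset (Finset Ω) :=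
  Finset.univ.filter fun η => ∃ M' : Submodule (MonoidAlgebra ℚ P) (VV ℚ P Ω),
    Nonempty (M ≃ₗ[MonoidAlgebra ℚ P] M') ∧ ∀ v ∈ M', ∑ x, (sg η x : ℚ) * ev v x = 0

lemma mem_badOf (M : Submodule (MonoidAlgebra ℚ P) (VV ℚ P Ω)) (η : Finset Ω) :
    η ∈ badOf M ↔ ∃ M' : Submodule (MonoidAlgebra ℚ P) (VV ℚ P Ω),
    Nonempty (M ≃ₗ[MonoidAlgebra ℚ P] M') ∧ ∀ v ∈ M', ∑ x, (sg η x : ℚ) * ev v x = 0 := by
  classical
  unfold badOf
  rw [Finset.mem_filter]
  exact ⟨fun h => h.2, fun h => ⟨Finset.mem_univ _, h⟩⟩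

variable (M : Submodule (MonoidAlgebra ℚ P) (VV ℚ P Ω))

theorem type_odd (q : ℕ) (hq : q.Prime) (hq2 : q ≠ 2) (hqP : ¬ q ∣ Fintype.card P)
    (hm : 0 < finrank ℚ M)
    (hκ : finrank ℚ (M →ₗ[MonoidAlgebra ℚ P] VV ℚ P Ω) ≤ finrank ℚ M) :
    ((badOf M).card : ℝ) / 2 ^ Fintype.card Ω
      ≤ (1 + ((q : ℝ) - 1) * Real.exp (-(2 * Fintype.card Ω / (finrank ℚ M * (q : ℝ) ^ 2))))
          ^ finrank ℚ M
        / ((q : ℝ) - 1) ^ (finrank ℚ (M →ₗ[MonoidAlgebra ℚ P] M) + finrank ℚ M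
          - finrank ℚ (M →ₗ[MonoidAlgebra ℚ P] VV ℚ P Ω)) := by
  have hf : Fact q.Prime := ⟨hq⟩
  have hodd : Odd q := hq.odd_of_ne_two hq2
  have hq3 : 3 ≤ q := by
    have := hq.two_le
    omega
  have hq3R : (3 : ℝ) ≤ q := by exact_mod_cast hq3
  set m := finrank ℚ M with hmdef
  set κ := finrank ℚ (M →ₗ[MonoidAlgebra ℚ P] VV ℚ P Ω) with hκdef
  set δ := finrank ℚ (M →ₗ[MonoidAlgebra ℚ P] M) with hδdef
  set g := Fintype.card Ω with hg
  set E : ℝ := (1 + ((q : ℝ) - 1) * Real.exp (-(2 * g / (m * (q : ℝ) ^ 2)))) ^ m with hE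
  have hE0 : 0 ≤ E := by
    have h1 : 0 ≤ ((q : ℝ) - 1) * Real.exp (-(2 * g / (m * (q : ℝ) ^ 2))) :=
      mul_nonneg (by linarith) (Real.exp_nonneg _)
    rw [hE]
    exact pow_nonneg (by linarith) _
  have h1 := card_bad_mul_le M q hqP sg (2 ^ g * E / (q : ℝ) ^ m) (by
    intro U hU
    have h2 := card_one_odd hodd U (by rw [hU]; exact hm)
    rw [hU] at h2
    exact h2)
  have hne : NeZero (Nat.card P : ZMod q) := ⟨by
    rw [Nat.card_eq_fintype_card]
    exact card_ne_zero_mod (P := P) q hqP⟩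
  have h2 : ((q : ℝ) - 1) ^ δ
      ≤ Nat.card (red M (ZMod q) ≃ₗ[MonoidAlgebra (ZMod q) P] red M (ZMod q)) := by
    have h3 := aut_ge_odd (q := q) (R := MonoidAlgebra (ZMod q) P) (A := red M (ZMod q)) hq3
    rwa [finrank_hom_red_mod M M q hqP] at h3
  have h3 : ((badOf M).card : ℝ) * ((q : ℝ) - 1) ^ δ ≤ (q : ℝ) ^ κ * (2 ^ g * E / (q : ℝ) ^ m) :=
    le_trans (mul_le_mul_of_nonneg_left h2 (Nat.cast_nonneg _)) h1
  have hq1 : (0 : ℝ) < (q : ℝ) - 1 := by linarith
  have hq0 : (0 : ℝ) < (q : ℝ) := by linarith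
  have h4 : (q : ℝ) ^ κ * (2 ^ g * E / (q : ℝ) ^ m) = 2 ^ g * (E / (q : ℝ) ^ (m - κ)) := by
    have : (q : ℝ) ^ m = (q : ℝ) ^ κ * (q : ℝ) ^ (m - κ) := by
      rw [← pow_add, Nat.add_sub_cancel' hκ]
    rw [this]
    field_simp
  have h5 : E / (q : ℝ) ^ (m - κ) ≤ E / ((q : ℝ) - 1) ^ (m - κ) := by
    apply div_le_div_of_nonneg_left hE0 (by positivity)
    exact pow_le_pow_left₀ hq1.le (by linarith) _
  have h6 : δ + m - κ = (m - κ) + δ := by omega
  rw [h6, pow_add, ← div_div, le_div_iff₀ (by positivity), div_mul_eq_mul_div,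
    div_le_iff₀ (by positivity)]
  calc ((badOf M).card : ℝ) * ((q : ℝ) - 1) ^ δ ≤ 2 ^ g * (E / (q : ℝ) ^ (m - κ)) := by
        rw [← h4]; exact h3
    _ ≤ 2 ^ g * (E / ((q : ℝ) - 1) ^ (m - κ)) := mul_le_mul_of_nonneg_left h5 (by positivity)
    _ = _ := by ring

open Classical in
theorem type_two (hP : Odd (Fintype.card P))
    (hsum : ∀ M' : Submodule (MonoidAlgebra ℚ P) (VV ℚ P Ω),
      Nonempty (M ≃ₗ[MonoidAlgebra ℚ P] M') → ∀ v ∈ M', ∑ x, ev v x = 0)
    (h3 : ∀ N : Submodule (MonoidAlgebra (ZMod 2) P) (red M (ZMod 2)),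
      IsSimpleModule (MonoidAlgebra (ZMod 2) P) N →
      3 ≤ Nat.card (N →ₗ[MonoidAlgebra (ZMod 2) P] N))
    (hκ : finrank ℚ (M →ₗ[MonoidAlgebra ℚ P] VV ℚ P Ω) ≤ finrank ℚ M) :
    ((badOf M).card : ℝ) / 2 ^ Fintype.card Ω
      ≤ (2 : ℝ) ^ (-((finrank ℚ (M →ₗ[MonoidAlgebra ℚ P] M) + finrank ℚ M
          - finrank ℚ (M →ₗ[MonoidAlgebra ℚ P] VV ℚ P Ω) : ℕ) : ℝ) / 2) := by
  have hf : Fact (Nat.Prime 2) := ⟨Nat.prime_two⟩
  have hqP : ¬ 2 ∣ Fintype.card P := by
    rw [← even_iff_two_dvd]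
    exact Nat.not_even_iff_odd.mpr hP
  set m := finrank ℚ M with hmdef
  set κ := finrank ℚ (M →ₗ[MonoidAlgebra ℚ P] VV ℚ P Ω) with hκdef
  set δ := finrank ℚ (M →ₗ[MonoidAlgebra ℚ P] M) with hδdef
  set g := Fintype.card Ω with hg
  have h1 := card_bad_mul_le M 2 hqP (fun η x => if x ∈ η then 1 else 0) (2 ^ g / 2 ^ m) (by
    intro U hU
    have h2 := card_one_two U
    rw [hU] at h2
    exact h2)
  have hsub : badOf M ⊆ (Finset.univ.filter fun η : Finset Ω =>
        ∃ M' : Submodule (MonoidAlgebra ℚ P) (VV ℚ P Ω),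
          Nonempty (M ≃ₗ[MonoidAlgebra ℚ P] M') ∧
            ∀ v ∈ M', ∑ x, (((if x ∈ η then 1 else 0 : ℤ)) : ℚ) * ev v x = 0) := by
    intro η hη
    obtain ⟨M', hM', hv⟩ := (mem_badOf M η).mp hη
    rw [Finset.mem_filter]
    refine ⟨Finset.mem_univ _, M', hM', ?_⟩
    intro v hvM
    have e1 := hv v hvM
    have e2 := hsum M' hM' v hvM
    have e3 : ∀ x, ((sg η x : ℤ) : ℚ) * ev v x
        = 2 * ((((if x ∈ η then 1 else 0 : ℤ)) : ℚ) * ev v x) - ev v x := by
      intro x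
      unfold sg
      by_cases hx : x ∈ η
      · rw [if_pos hx, if_pos hx]
        push_cast
        ring
      · rw [if_neg hx, if_neg hx]
        push_cast
        ring
    rw [Finset.sum_congr rfl fun x _ => e3 x, Finset.sum_sub_distrib, e2, sub_zero,
      ← Finset.mul_sum] at e1
    have e4 := (mul_eq_zero.mp e1).resolve_left two_ne_zero
    exact e4
  have hne : NeZero (Nat.card P : ZMod 2) := ⟨by
    rw [Nat.card_eq_fintype_card]
    exact card_ne_zero_mod (P := P) 2 hqP⟩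
  have h2 : (2 : ℝ) ^ ((δ : ℝ) / 2)
      ≤ Nat.card (red M (ZMod 2) ≃ₗ[MonoidAlgebra (ZMod 2) P] red M (ZMod 2)) := by
    have h4 := aut_ge_two (R := MonoidAlgebra (ZMod 2) P) (A := red M (ZMod 2)) h3
    rwa [finrank_hom_red_mod M M 2 hqP] at h4
  have h5 : ((badOf M).card : ℝ) * (2 : ℝ) ^ ((δ : ℝ) / 2)
      ≤ (2 : ℝ) ^ κ * (2 ^ g / 2 ^ m) := by
    refine le_trans (mul_le_mul ?_ h2 (by positivity) (Nat.cast_nonneg _)) h1
    exact_mod_cast Finset.card_le_card hsub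
  rw [div_le_iff₀ (by positivity)]
  have h6 : ((badOf M).card : ℝ)
      ≤ (2 : ℝ) ^ κ * (2 ^ g / 2 ^ m) / (2 : ℝ) ^ ((δ : ℝ) / 2) := by
    rw [le_div_iff₀ (by positivity)]
    exact h5
  refine h6.trans ?_
  have h7 : (2 : ℝ) ^ κ * (2 ^ g / 2 ^ m) / (2 : ℝ) ^ ((δ : ℝ) / 2)
      = (2 : ℝ) ^ ((κ : ℝ) - m - δ / 2) * 2 ^ g := by
    rw [Real.rpow_sub two_pos, Real.rpow_sub two_pos, Real.rpow_natCast, Real.rpow_natCast]
    ring
  rw [h7]
  apply mul_le_mul_of_nonneg_right _ (by positivity)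
  apply Real.rpow_le_rpow_of_exponent_le (by norm_num)
  have h8 : ((δ + m - κ : ℕ) : ℝ) = (δ : ℝ) + m - κ := by
    rw [Nat.cast_sub (by omega)]
    push_cast
    ring
  rw [h8]
  have h9 : (κ : ℝ) ≤ m := by exact_mod_cast hκ
  linarith

end Bound

end Pool.Agent.Lib.MP_938ce2_ag_h67
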