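import Mathlib
import Pool.Agent.Lib.MP_938ce2_ag_h67.Type
import Pool.Agent.Lib.MP_938ce2_ag_h67.Cos
import Pool.Agent.Lib.MP_938ce2_ag_h85d.Isotypic

/-!
Passing to a quotient of a permutation action, and the count of the sign vectors orthogonal to a
submodule whose type only lives on the quotient.
-/

set_option autoImplicit false
set_option linter.unusedSectionVars false

namespace Pool.Agent.Lib.MP_938ce2_ag_h67

open Module MonoidAlgebra
open Pool.Agent.Lib.MP_938ce2_ag_h85d (finite_hom)

/-- a quotient of a permutation action -/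
structure QD (P Q Ω Ω' : Type) [Group P] [Group Q] [MulAction P Ω] [MulAction Q Ω'] where
  /-- the homomorphism of groups -/
  φ : P →* Q
  /-- the map of sets -/
  π : Ω → Ω'
  hφ : Function.Surjective φ
  hπ : Function.Surjective π
  comm : ∀ σ x, π (σ • x) = φ σ • π x

section Pull

variable {F : Type} [Field F] {P Q Ω Ω' : Type} [Group P] [Group Q] [MulAction P Ω]
  [MulAction Q Ω']

/-- pull back of functions -/
def pull (F P Q : Type) [Field F] {Ω Ω' : Type} (π : Ω → Ω') : VV F Q Ω' →ₗ[F] VV F P Ω where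
  toFun u := mkV P (fun x => ev u (π x))
  map_add' _ _ := rfl
  map_smul' _ _ := rfl

lemma ev_pull (π : Ω → Ω') (u : VV F Q Ω') (x : Ω) : ev (pull F P Q π u) x = ev u (π x) := rfl

lemma pull_inj {π : Ω → Ω'} (hs : Function.Surjective π) : Function.Injective (pull F P Q π) := by
  intro u v h
  apply ev_ext
  intro y
  obtain ⟨x, rfl⟩ := hs y
  rw [← ev_pull (P := P) π u x, ← ev_pull (P := P) π v x, h]

variable (D : QD P Q Ω Ω')

lemma pull_single (σ : P) (a : F) (u : VV F Q Ω') :
    pull F P Q D.π (MonoidAlgebra.single (D.φ σ) a • u)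
      = MonoidAlgebra.single σ a • pull F P Q D.π u := by
  apply ev_ext
  intro x
  rw [ev_pull, ev_single, ev_single, ev_pull, D.comm, map_inv]

/-- the functions on the quotient whose pull back lies in a submodule -/
def down (N : Submodule (MonoidAlgebra F P) (VV F P Ω)) :
    Submodule (MonoidAlgebra F Q) (VV F Q Ω') where
  carrier := {u | pull F P Q D.π u ∈ N}
  zero_mem' := by
    show pull F P Q D.π 0 ∈ N
    rw [map_zero]
    exact N.zero_mem
  add_mem' := by
    intro u v hu hv
    show pull F P Q D.π (u + v) ∈ N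
    rw [map_add]
    exact N.add_mem hu hv
  smul_mem' := by
    intro r u hu
    show pull F P Q D.π (r • u) ∈ N
    induction r using MonoidAlgebra.induction_linear with
    | zero =>
      rw [zero_smul, map_zero]
      exact N.zero_mem
    | add a b ha hb =>
      rw [add_smul, map_add]
      exact N.add_mem ha hb
    | single τ a =>
      obtain ⟨σ, rfl⟩ := D.hφ τ
      rw [pull_single]
      exact N.smul_mem _ hu

lemma mem_down (N : Submodule (MonoidAlgebra F P) (VV F P Ω)) (u : VV F Q Ω') :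
    u ∈ down D N ↔ pull F P Q D.π u ∈ N := Iff.rfl

/-- the submodules consisting of functions on the quotient -/
def Fac (N : Submodule (MonoidAlgebra F P) (VV F P Ω)) : Prop :=
  ∀ v ∈ N, ∀ x y, D.π x = D.π y → ev v x = ev v y

lemma exists_pull {v : VV F P Ω} (hv : ∀ x y, D.π x = D.π y → ev v x = ev v y) :
    ∃ u : VV F Q Ω', pull F P Q D.π u = v := by
  refine ⟨mkV Q (fun z => ev v (Function.surjInv D.hπ z)), ?_⟩
  apply ev_ext
  intro x
  exact hv _ _ (Function.surjInv_eq D.hπ _)

/-- a submodule of functions on the quotient -/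
noncomputable def eN (N : Submodule (MonoidAlgebra F P) (VV F P Ω)) (hN : Fac D N) :
    down D N ≃ₗ[F] N :=
  LinearEquiv.ofBijective
    { toFun := fun u => (⟨pull F P Q D.π u.1, u.2⟩ : N)
      map_add' := fun u v => rfl
      map_smul' := fun a u => rfl }
    ⟨fun u v h => Subtype.ext (pull_inj D.hπ (congrArg Subtype.val h)), fun v => by
      obtain ⟨u, hu⟩ := exists_pull D (hN v.1 v.2)
      refine ⟨⟨u, ?_⟩, Subtype.ext hu⟩
      rw [mem_down, hu]
      exact v.2⟩

variable {N : Submodule (MonoidAlgebra F P) (VV F P Ω)} (hN : Fac D N)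

lemma eN_coe (u : down D N) : ((eN D N hN u : N) : VV F P Ω) = pull F P Q D.π u.1 := rfl

lemma eN_single (σ : P) (a : F) (u : down D N) :
    eN D N hN (MonoidAlgebra.single (D.φ σ) a • u) = MonoidAlgebra.single σ a • eN D N hN u := by
  apply Subtype.ext
  rw [eN_coe]
  exact pull_single D σ a u.1

lemma eN_symm_single (σ : P) (a : F) (v : N) :
    (eN D N hN).symm (MonoidAlgebra.single σ a • v)
      = MonoidAlgebra.single (D.φ σ) a • (eN D N hN).symm v := by
  apply (eN D N hN).injective
  rw [LinearEquiv.apply_symm_apply, eN_single, LinearEquiv.apply_symm_apply]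

include hN in
lemma finrank_down : finrank F (down D N) = finrank F N := (eN D N hN).finrank_eq

/-- homomorphisms from the quotient module to functions on the quotient -/
noncomputable def upH (b : down D N →ₗ[MonoidAlgebra F Q] VV F Q Ω') :
    N →ₗ[MonoidAlgebra F P] VV F P Ω :=
  MonoidAlgebra.equivariantOfLinearOfComm
    ((pull F P Q D.π).comp ((b.restrictScalars F).comp (eN D N hN).symm.toLinearMap)) (by
    intro σ v
    show pull F P Q D.π (b ((eN D N hN).symm (MonoidAlgebra.single σ (1 : F) • v)))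
      = MonoidAlgebra.single σ (1 : F) • pull F P Q D.π (b ((eN D N hN).symm v))
    rw [eN_symm_single, map_smul, pull_single])

lemma upH_apply (b : down D N →ₗ[MonoidAlgebra F Q] VV F Q Ω') (v : N) :
    upH D hN b v = pull F P Q D.π (b ((eN D N hN).symm v)) := rfl

include hN in
lemma finrank_hom_down_le [Finite Ω] :
    finrank F (down D N →ₗ[MonoidAlgebra F Q] VV F Q Ω')
      ≤ finrank F (N →ₗ[MonoidAlgebra F P] VV F P Ω) := by
  have hfin : Module.Finite F N := Module.Finite.of_injective (N.subtype.restrictScalars F)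
    Subtype.val_injective
  have hf2 : Module.Finite F (N →ₗ[MonoidAlgebra F P] VV F P Ω) := finite_hom
  let L : (down D N →ₗ[MonoidAlgebra F Q] VV F Q Ω') →ₗ[F]
      (N →ₗ[MonoidAlgebra F P] VV F P Ω) :=
    { toFun := fun b => upH D hN b
      map_add' := fun b c => by
        apply LinearMap.ext
        intro v
        rw [upH_apply, LinearMap.add_apply, LinearMap.add_apply, map_add]
        rfl
      map_smul' := fun a b => by
        apply LinearMap.ext
        intro v
        rw [upH_apply, LinearMap.smul_apply, map_smul]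
        rfl }
  refine LinearMap.finrank_le_finrank_of_injective (f := L) ?_
  intro b c h
  apply LinearMap.ext
  intro u
  have h1 := congrArg (fun t : N →ₗ[MonoidAlgebra F P] VV F P Ω => t (eN D N hN u)) h
  have h2 : pull F P Q D.π (b ((eN D N hN).symm (eN D N hN u)))
      = pull F P Q D.π (c ((eN D N hN).symm (eN D N hN u))) := h1
  rw [LinearEquiv.symm_apply_apply] at h2
  exact pull_inj D.hπ h2

variable {N' : Submodule (MonoidAlgebra F P) (VV F P Ω)} (hN' : Fac D N')

/-- homomorphisms between modules of functions on the quotient -/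
noncomputable def downH (a : N →ₗ[MonoidAlgebra F P] N') :
    down D N →ₗ[MonoidAlgebra F Q] down D N' :=
  MonoidAlgebra.equivariantOfLinearOfComm
    ((eN D N' hN').symm.toLinearMap.comp ((a.restrictScalars F).comp (eN D N hN).toLinearMap)) (by
    intro τ u
    obtain ⟨σ, rfl⟩ := D.hφ τ
    show (eN D N' hN').symm (a (eN D N hN (MonoidAlgebra.single (D.φ σ) (1 : F) • u)))
      = MonoidAlgebra.single (D.φ σ) (1 : F) • (eN D N' hN').symm (a (eN D N hN u))
    rw [eN_single, map_smul, eN_symm_single])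

lemma downH_apply (a : N →ₗ[MonoidAlgebra F P] N') (u : down D N) :
    downH D hN hN' a u = (eN D N' hN').symm (a (eN D N hN u)) := rfl

include hN in
lemma finrank_end_le_down [Finite Ω] [Finite Ω'] :
    finrank F (N →ₗ[MonoidAlgebra F P] N)
      ≤ finrank F (down D N →ₗ[MonoidAlgebra F Q] down D N) := by
  have hfin : Module.Finite F (down D N) :=
    Module.Finite.of_injective ((down D N).subtype.restrictScalars F) Subtype.val_injective
  have hf2 : Module.Finite F (down D N →ₗ[MonoidAlgebra F Q] down D N) := finite_hom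
  let L : (N →ₗ[MonoidAlgebra F P] N) →ₗ[F]
      (down D N →ₗ[MonoidAlgebra F Q] down D N) :=
    { toFun := fun b => downH D hN hN b
      map_add' := fun b c => by
        apply LinearMap.ext
        intro v
        rw [downH_apply, LinearMap.add_apply, LinearMap.add_apply, map_add]
        rfl
      map_smul' := fun a b => by
        apply LinearMap.ext
        intro v
        rw [downH_apply, LinearMap.smul_apply, map_smul]
        rfl }
  refine LinearMap.finrank_le_finrank_of_injective (f := L) ?_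
  intro b c h
  apply LinearMap.ext
  intro v
  have h1 := congrArg (fun t : down D N →ₗ[MonoidAlgebra F Q] down D N =>
    t ((eN D N hN).symm v)) h
  have h2 : (eN D N hN).symm (b (eN D N hN ((eN D N hN).symm v)))
      = (eN D N hN).symm (c (eN D N hN ((eN D N hN).symm v))) := h1
  rw [LinearEquiv.apply_symm_apply] at h2
  exact (eN D N hN).symm.injective h2

include hN hN' in
lemma down_iso (h : Nonempty (N ≃ₗ[MonoidAlgebra F P] N')) :
    Nonempty (down D N ≃ₗ[MonoidAlgebra F Q] down D N') := by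
  obtain ⟨e⟩ := h
  refine ⟨LinearEquiv.ofLinearMap (downH D hN hN' e.toLinearMap) (downH D hN' hN e.symm.toLinearMap)
    ?_ ?_⟩
  · apply LinearMap.ext
    intro u
    show (eN D N' hN').symm (e (eN D N hN ((eN D N hN).symm (e.symm (eN D N' hN' u))))) = u
    rw [LinearEquiv.apply_symm_apply, LinearEquiv.apply_symm_apply, LinearEquiv.symm_apply_apply]
  · apply LinearMap.ext
    intro u
    show (eN D N hN).symm (e.symm (eN D N' hN' ((eN D N' hN').symm (e (eN D N hN u))))) = u
    rw [LinearEquiv.apply_symm_apply, LinearEquiv.symm_apply_apply, LinearEquiv.symm_apply_apply]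

end Pull

section General

variable {P Ω : Type} [Group P] [Fintype P] [MulAction P Ω] [Fintype Ω] [DecidableEq Ω]
  (M : Submodule (MonoidAlgebra ℚ P) (VV ℚ P Ω)) (q : ℕ) [Fact q.Prime]

open Classical in
/-- Counting the weights orthogonal to some copy of `M`, arbitrary index set. -/
theorem card_bad_mul_le_gen {I : Type} [Fintype I] (hq : ¬ q ∣ Fintype.card P) (w : I → Ω → ℤ)
    (B : ℝ)
    (hB : ∀ U : Submodule (MonoidAlgebra (ZMod q) P) (VV (ZMod q) P Ω),
      finrank (ZMod q) U = finrank ℚ M →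
      ((Finset.univ.filter fun η : I => ∀ v ∈ U, ∑ x, (w η x : ZMod q) * ev v x = 0).card : ℝ)
        ≤ B) :
    ((Finset.univ.filter fun η : I =>
        ∃ M' : Submodule (MonoidAlgebra ℚ P) (VV ℚ P Ω),
          Nonempty (M ≃ₗ[MonoidAlgebra ℚ P] M') ∧
            ∀ v ∈ M', ∑ x, (w η x : ℚ) * ev v x = 0).card : ℝ)
      * Nat.card (red M (ZMod q) ≃ₗ[MonoidAlgebra (ZMod q) P] red M (ZMod q))
      ≤ (q : ℝ) ^ finrank ℚ (M →ₗ[MonoidAlgebra ℚ P] VV ℚ P Ω) * B := by
  let 𝒰 : Type := {U : Submodule (MonoidAlgebra (ZMod q) P) (VV (ZMod q) P Ω) //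
    Nonempty (red M (ZMod q) ≃ₗ[MonoidAlgebra (ZMod q) P] U)}
  have hfin : Finite 𝒰 := inferInstanceAs (Finite {U : Submodule (MonoidAlgebra (ZMod q) P)
    (VV (ZMod q) P Ω) // Nonempty (red M (ZMod q) ≃ₗ[MonoidAlgebra (ZMod q) P] U)})
  let _ : Fintype 𝒰 := Fintype.ofFinite 𝒰
  have h1 : Nat.card 𝒰 * Nat.card (red M (ZMod q) ≃ₗ[MonoidAlgebra (ZMod q) P] red M (ZMod q))
      ≤ q ^ finrank ℚ (M →ₗ[MonoidAlgebra ℚ P] VV ℚ P Ω) := by
    have h2 := Pool.Agent.Lib.MP_938ce2_ag_h79.card_submodules_iso_le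
      (R := MonoidAlgebra (ZMod q) P) (A := red M (ZMod q)) (V := VV (ZMod q) P Ω)
    rw [card_hom_eq (ZMod q), finrank_hom_top_mod M q hq, ZMod.card] at h2
    exact h2
  have hfr : ∀ U : 𝒰, finrank (ZMod q) U.1 = finrank ℚ M := by
    rintro ⟨U, ⟨e⟩⟩
    rw [← finrank_red_mod M q hq]
    exact (e.restrictScalars (ZMod q)).finrank_eq.symm
  have hB0 : 0 ≤ B := le_trans (Nat.cast_nonneg _) (hB (red M (ZMod q)) (finrank_red_mod M q hq))
  have h3 : ((Finset.univ.filter fun η : I =>
        ∃ M' : Submodule (MonoidAlgebra ℚ P) (VV ℚ P Ω),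
          Nonempty (M ≃ₗ[MonoidAlgebra ℚ P] M') ∧
            ∀ v ∈ M', ∑ x, (w η x : ℚ) * ev v x = 0).card : ℝ) ≤ Nat.card 𝒰 * B := by
    have h4 : (Finset.univ.filter fun η : I =>
        ∃ M' : Submodule (MonoidAlgebra ℚ P) (VV ℚ P Ω),
          Nonempty (M ≃ₗ[MonoidAlgebra ℚ P] M') ∧
            ∀ v ∈ M', ∑ x, (w η x : ℚ) * ev v x = 0)
        ⊆ (Finset.univ : Finset 𝒰).biUnion fun U =>
          Finset.univ.filter fun η : I => ∀ v ∈ U.1, ∑ x, (w η x : ZMod q) * ev v x = 0 := by
      intro η hη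
      obtain ⟨M', hM', hv⟩ := (Finset.mem_filter.mp hη).2
      rw [Finset.mem_biUnion]
      refine ⟨⟨red M' (ZMod q), red_iso M M' q hq hM'⟩, Finset.mem_univ _, ?_⟩
      rw [Finset.mem_filter]
      refine ⟨Finset.mem_univ _, ?_⟩
      intro v hvU
      obtain ⟨f, hf, rfl⟩ := exists_of_mem_red M' q hvU
      have h5 := hv _ ((mem_lat M' f).mp hf)
      have h6 : ((∑ x, w η x * f x : ℤ) : ℚ) = 0 := by
        push_cast
        exact h5
      have h7 : (∑ x, w η x * f x : ℤ) = 0 := by exact_mod_cast h6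
      have h8 := congrArg (fun t : ℤ => (t : ZMod q)) h7
      simp only [Int.cast_sum, Int.cast_mul, Int.cast_zero] at h8
      exact h8
    calc ((Finset.univ.filter fun η : I =>
        ∃ M' : Submodule (MonoidAlgebra ℚ P) (VV ℚ P Ω),
          Nonempty (M ≃ₗ[MonoidAlgebra ℚ P] M') ∧
            ∀ v ∈ M', ∑ x, (w η x : ℚ) * ev v x = 0).card : ℝ)
        ≤ ((Finset.univ : Finset 𝒰).biUnion fun U =>
          Finset.univ.filter fun η : I =>
            ∀ v ∈ U.1, ∑ x, (w η x : ZMod q) * ev v x = 0).card := by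
          exact_mod_cast Finset.card_le_card h4
      _ ≤ ∑ U : 𝒰, ((Finset.univ.filter fun η : I =>
            ∀ v ∈ U.1, ∑ x, (w η x : ZMod q) * ev v x = 0).card : ℝ) := by
          exact_mod_cast Finset.card_biUnion_le
      _ ≤ ∑ _U : 𝒰, B := Finset.sum_le_sum fun U _ => hB U.1 (hfr U)
      _ = Nat.card 𝒰 * B := by
          rw [Finset.sum_const, Finset.card_univ, nsmul_eq_mul, Nat.card_eq_fintype_card]
  have h9 : (Nat.card 𝒰 : ℝ) * Nat.card (red M (ZMod q) ≃ₗ[MonoidAlgebra (ZMod q) P] red M (ZMod q))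
      ≤ (q : ℝ) ^ finrank ℚ (M →ₗ[MonoidAlgebra ℚ P] VV ℚ P Ω) := by exact_mod_cast h1
  calc _ ≤ Nat.card 𝒰 * B
        * Nat.card (red M (ZMod q) ≃ₗ[MonoidAlgebra (ZMod q) P] red M (ZMod q)) :=
        mul_le_mul_of_nonneg_right h3 (Nat.cast_nonneg _)
    _ = (Nat.card 𝒰 * Nat.card (red M (ZMod q) ≃ₗ[MonoidAlgebra (ZMod q) P] red M (ZMod q))) * B := by
        ring
    _ ≤ _ := mul_le_mul_of_nonneg_right h9 hB0

end General

end Pool.Agent.Lib.MP_938ce2_ag_h67
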