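import Mathlib
import Pool.Agent.Lib.MP_938ce2_ag_h67.Quot

/-!
The count of the sign vectors orthogonal to a submodule which lives on a quotient.
-/

set_option autoImplicit false
set_option linter.unusedSectionVars false

namespace Pool.Agent.Lib.MP_938ce2_ag_h67

open Module MonoidAlgebra

section Weights

variable {P Q Ω Ω' : Type} [Group P] [Fintype P] [Group Q] [Fintype Q] [MulAction P Ω]
  [MulAction Q Ω'] [Fintype Ω] [DecidableEq Ω] [Fintype Ω'] [DecidableEq Ω']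
  (D : QD P Q Ω Ω')

/-- the sums of the signs over the fibres -/
def fw (η : Finset Ω) (y : Ω') : ℤ := ∑ x ∈ Finset.univ.filter (fun x => D.π x = y), sg η x

lemma sum_fw {F : Type} [CommRing F] (η : Finset Ω) (u : Ω' → F) :
    ∑ y, (fw D η y : F) * u y = ∑ x, (sg η x : F) * u (D.π x) := by
  have h1 : ∀ y, (fw D η y : F) * u y
      = ∑ x ∈ Finset.univ.filter (fun x => D.π x = y), (sg η x : F) * u (D.π x) := by
    intro y
    unfold fw
    rw [Int.cast_sum, Finset.sum_mul]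
    refine Finset.sum_congr rfl fun x hx => ?_
    rw [(Finset.mem_filter.mp hx).2]
  rw [Finset.sum_congr rfl fun y _ => h1 y]
  exact Finset.sum_fiberwise _ _ _

variable [MulAction.IsPretransitive P Ω] {q : ℕ} [Fact q.Prime]

open Classical in
lemma card_one_quot (hq : Odd q) (U : Submodule (MonoidAlgebra (ZMod q) Q) (VV (ZMod q) Q Ω'))
    (hpos : 0 < finrank (ZMod q) U) :
    ((Finset.univ.filter fun η : Finset Ω =>
        ∀ v ∈ U, ∑ y, (fw D η y : ZMod q) * ev v y = 0).card : ℝ)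
      ≤ 2 ^ Fintype.card Ω * csum q ((Fintype.card Ω : ℝ) / finrank (ZMod q) U)
          ^ finrank (ZMod q) U / (q : ℝ) ^ finrank (ZMod q) U := by
  have hinst : (inferInstance : DecidableEq Ω) = fun a b => Classical.propDecidable (a = b) :=
    Subsingleton.elim _ _
  let L : (Ω' → ZMod q) →ₗ[ZMod q] (Ω → ZMod q) := LinearMap.funLeft (ZMod q) (ZMod q) D.π
  have hL : Function.Injective L := LinearMap.funLeft_injective_of_surjective _ _ _ D.hπ
  let C : Submodule (ZMod q) (Ω → ZMod q) := (code U).map L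
  have hC : ∀ σ : P, ∀ y ∈ C, (fun x => y (σ • x)) ∈ C := by
    rintro σ _ ⟨u, hu, rfl⟩
    refine ⟨fun z => u (D.φ σ • z), code_inv U (D.φ σ) u hu, ?_⟩
    funext x
    show u (D.φ σ • D.π x) = u (D.π (σ • x))
    rw [D.comm]
  have hCr : finrank (ZMod q) C = finrank (ZMod q) U := by
    rw [← finrank_code U]
    exact (Submodule.equivMapOfInjective L hL (code U)).finrank_eq.symm
  have h := card_orth_code_cos (P := P) (Ω := Ω) (q := q) hq C hC (by rw [hCr]; exact hpos)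
  rw [hCr] at h
  have hq0 : (0 : ℝ) < (q : ℝ) ^ finrank (ZMod q) U := by
    have : (0 : ℝ) < q := by exact_mod_cast (Fact.out : q.Prime).pos
    positivity
  rw [le_div_iff₀ hq0]
  refine le_trans (le_of_eq ?_) h
  congr 1
  have e : (Finset.univ.filter fun η : Finset Ω =>
        ∀ v ∈ U, ∑ y, (fw D η y : ZMod q) * ev v y = 0)
      = (Finset.univ.filter fun η : Finset Ω => ∀ y ∈ C, ∑ x, (@sg Ω (fun a b => Classical.propDecidable (a = b)) η x : ZMod q) * y x = 0) := by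
    ext η
    simp only [Finset.mem_filter, Finset.mem_univ, true_and]
    constructor
    · rintro h' _ ⟨u, hu, rfl⟩
      have := h' (mkV Q u) ((mem_code U u).mp hu)
      rw [sum_fw] at this
      rw [← hinst]
      exact this
    · intro h' v hv
      have := h' (L (ev v)) ⟨ev v, (mem_code U (ev v)).mpr hv, rfl⟩
      rw [← hinst] at this
      rw [sum_fw]
      exact this
  rw [e]
  congr!

end Weights

section Main

variable {P Q Ω Ω' : Type} [Group P] [Fintype P] [Group Q] [Fintype Q] [MulAction P Ω]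
  [MulAction Q Ω'] [Fintype Ω] [DecidableEq Ω] [Fintype Ω'] [DecidableEq Ω']
  [MulAction.IsPretransitive P Ω] (D : QD P Q Ω Ω')
  (M : Submodule (MonoidAlgebra ℚ P) (VV ℚ P Ω))

theorem type_quot (q : ℕ) [Fact q.Prime] (hq2 : q ≠ 2) (hqQ : ¬ q ∣ Fintype.card Q)
    (hfac : ∀ M' : Submodule (MonoidAlgebra ℚ P) (VV ℚ P Ω),
      Nonempty (M ≃ₗ[MonoidAlgebra ℚ P] M') → Fac D M')
    (hm : 0 < finrank ℚ M)
    (hκ : finrank ℚ (M →ₗ[MonoidAlgebra ℚ P] VV ℚ P Ω) ≤ finrank ℚ M) :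
    ((badOf M).card : ℝ) / 2 ^ Fintype.card Ω
      ≤ csum q ((Fintype.card Ω : ℝ) / finrank ℚ M) ^ finrank ℚ M
        / ((q : ℝ) - 1) ^ (finrank ℚ (M →ₗ[MonoidAlgebra ℚ P] M) + finrank ℚ M
          - finrank ℚ (M →ₗ[MonoidAlgebra ℚ P] VV ℚ P Ω)) := by
  classical
  have hq : q.Prime := Fact.out
  have hodd : Odd q := hq.odd_of_ne_two hq2
  have hq3 : 3 ≤ q := by
    have := hq.two_le
    omega
  have hq3R : (3 : ℝ) ≤ q := by exact_mod_cast hq3
  have hMfac : Fac D M := hfac M ⟨LinearEquiv.refl _ _⟩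
  set N := down D M with hN
  have hNr : finrank ℚ N = finrank ℚ M := finrank_down D hMfac
  have hκ' : finrank ℚ (N →ₗ[MonoidAlgebra ℚ Q] VV ℚ Q Ω')
      ≤ finrank ℚ (M →ₗ[MonoidAlgebra ℚ P] VV ℚ P Ω) := finrank_hom_down_le D hMfac
  have hδ' : finrank ℚ (M →ₗ[MonoidAlgebra ℚ P] M)
      ≤ finrank ℚ (N →ₗ[MonoidAlgebra ℚ Q] N) := finrank_end_le_down D hMfac
  set m := finrank ℚ M with hmdef
  set κ := finrank ℚ (M →ₗ[MonoidAlgebra ℚ P] VV ℚ P Ω) with hκdef
  set δ := finrank ℚ (M →ₗ[MonoidAlgebra ℚ P] M) with hδdef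
  set g := Fintype.card Ω with hg
  set E : ℝ := csum q ((g : ℝ) / m) ^ m with hE
  have hE0 : 0 ≤ E := pow_nonneg (csum_nonneg _) _
  have h1 := card_bad_mul_le_gen N q (I := Finset Ω) hqQ (fw D) (2 ^ g * E / (q : ℝ) ^ m) (by
    intro U hU
    rw [hNr] at hU
    have h2 := card_one_quot D hodd U (by rw [hU]; exact hm)
    rw [hU] at h2
    refine le_trans (le_of_eq ?_) h2
    congr!)
  have hne : NeZero (Nat.card Q : ZMod q) := ⟨by
    rw [Nat.card_eq_fintype_card]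
    exact card_ne_zero_mod (P := Q) q hqQ⟩
  have hq1 : (0 : ℝ) < (q : ℝ) - 1 := by linarith
  have hq0 : (0 : ℝ) < (q : ℝ) := by linarith
  have h2 : ((q : ℝ) - 1) ^ δ
      ≤ Nat.card (red N (ZMod q) ≃ₗ[MonoidAlgebra (ZMod q) Q] red N (ZMod q)) := by
    have h3 := aut_ge_odd (q := q) (R := MonoidAlgebra (ZMod q) Q) (A := red N (ZMod q)) hq3
    rw [finrank_hom_red_mod N N q hqQ] at h3
    refine le_trans ?_ h3
    exact pow_le_pow_right₀ (by linarith) hδ'
  have hsub : ((badOf M).card : ℝ) ≤ ((Finset.univ.filter fun η : Finset Ω =>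
        ∃ M' : Submodule (MonoidAlgebra ℚ Q) (VV ℚ Q Ω'),
          Nonempty (N ≃ₗ[MonoidAlgebra ℚ Q] M') ∧
            ∀ v ∈ M', ∑ x, (fw D η x : ℚ) * ev v x = 0).card : ℝ) := by
    have h4 : badOf M ⊆ (Finset.univ.filter fun η : Finset Ω =>
        ∃ M' : Submodule (MonoidAlgebra ℚ Q) (VV ℚ Q Ω'),
          Nonempty (N ≃ₗ[MonoidAlgebra ℚ Q] M') ∧
            ∀ v ∈ M', ∑ x, (fw D η x : ℚ) * ev v x = 0) := by
      intro η hη
      obtain ⟨M', hM', hv⟩ := (mem_badOf M η).mp hη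
      rw [Finset.mem_filter]
      refine ⟨Finset.mem_univ _, down D M', down_iso D hMfac (hfac M' hM') hM', ?_⟩
      intro u hu
      rw [sum_fw]
      exact hv _ ((mem_down D M' u).mp hu)
    exact_mod_cast Finset.card_le_card h4
  have hB0 : 0 ≤ 2 ^ g * E / (q : ℝ) ^ m := by positivity
  have h3 : ((badOf M).card : ℝ) * ((q : ℝ) - 1) ^ δ ≤ (q : ℝ) ^ κ * (2 ^ g * E / (q : ℝ) ^ m) := by
    calc ((badOf M).card : ℝ) * ((q : ℝ) - 1) ^ δ
        ≤ _ := mul_le_mul hsub h2 (by positivity) (Nat.cast_nonneg _)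
      _ ≤ _ := h1
      _ ≤ (q : ℝ) ^ κ * (2 ^ g * E / (q : ℝ) ^ m) :=
        mul_le_mul_of_nonneg_right (pow_le_pow_right₀ (by linarith) hκ') hB0
  have h4 : (q : ℝ) ^ κ * (2 ^ g * E / (q : ℝ) ^ m) = 2 ^ g * (E / (q : ℝ) ^ (m - κ)) := by
    have : (q : ℝ) ^ m = (q : ℝ) ^ κ * (q : ℝ) ^ (m - κ) := by
      rw [← pow_add, Nat.add_sub_cancel' hκ]
    rw [this]
    field_simp
  have h5 : E / (q : ℝ) ^ (m - κ) ≤ E / ((q : ℝ) - 1) ^ (m - κ) := by
    apply div_le_div_of_nonneg_left hE0 (by positivity)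
    exact pow_le_pow_left₀ hq1.le (by linarith) _
  have h6 : δ + m - κ = (m - κ) + δ := by omega
  rw [h6, pow_add, ← div_div, le_div_iff₀ (by positivity), div_mul_eq_mul_div,
    div_le_iff₀ (by positivity)]
  calc ((badOf M).card : ℝ) * ((q : ℝ) - 1) ^ δ ≤ 2 ^ g * (E / (q : ℝ) ^ (m - κ)) := by
        rw [← h4]; exact h3
    _ ≤ 2 ^ g * (E / ((q : ℝ) - 1) ^ (m - κ)) := mul_le_mul_of_nonneg_left h5 (by positivity)
    _ = _ := by ring

end Main

end Pool.Agent.Lib.MP_938ce2_ag_h67
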