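import Mathlib
import Pool.Agent.Lib.MP_938ce2_ag_h67.Quot2

/-!
The quotient by the kernel of a submodule: a prime which does not divide the number of points and
is larger than `e` does not divide the order of the quotient.
-/

set_option autoImplicit false
set_option linter.unusedSectionVars false

namespace Pool.Agent.Lib.MP_938ce2_ag_h67

open Module MonoidAlgebra Polynomial
open Pool.Agent.Lib.MP_938ce2_ag_h85d (finite_hom)

/-- an automorphism of prime order of a rational vector space -/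
lemma prime_sub_one_le {V : Type} [AddCommGroup V] [Module ℚ V] [Module.Finite ℚ V]
    (q : ℕ) [Fact q.Prime] (T : V →ₗ[ℚ] V) (hT : T ^ q = 1) (hT1 : T ≠ 1) :
    q - 1 ≤ finrank ℚ (LinearMap.range (T - 1)) := by
  have hq : q.Prime := Fact.out
  set W := LinearMap.range (T - 1) with hW
  have hinv : ∀ w ∈ W, T w ∈ W := by
    rintro _ ⟨v, rfl⟩
    refine ⟨T v, ?_⟩
    simp only [LinearMap.sub_apply, Module.End.one_apply, map_sub]
  let S : W →ₗ[ℚ] W := T.restrict hinv
  have hS : ∀ (i : ℕ) (w : W), (((S ^ i) w : W) : V) = (T ^ i) (w : V) := by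
    intro i
    induction i with
    | zero => intro w; rfl
    | succ i ih =>
      intro w
      rw [pow_succ, pow_succ, Module.End.mul_apply, Module.End.mul_apply, ih]
      rfl
  have h0 : aeval S (cyclotomic q ℚ) = 0 := by
    rw [cyclotomic_prime, map_sum]
    apply LinearMap.ext
    rintro ⟨_, v, rfl⟩
    apply Subtype.ext
    rw [LinearMap.sum_apply, AddSubmonoidClass.coe_finsetSum]
    have h1 : ∀ i ∈ Finset.range q, (((aeval S (X ^ i : ℚ[X])) ⟨(T - 1) v, v, rfl⟩ : W) : V)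
        = (T ^ i * (T - 1)) v := by
      intro i _
      rw [map_pow, aeval_X, hS]
      rfl
    rw [Finset.sum_congr rfl h1, ← LinearMap.sum_apply, ← Finset.sum_mul, geom_sum_mul, hT,
      sub_self]
    rfl
  have hne : Nontrivial W := by
    obtain ⟨v, hv⟩ : ∃ v, T v ≠ v := by
      by_contra hcon
      push Not at hcon
      exact hT1 (LinearMap.ext hcon)
    refine ⟨⟨⟨(T - 1) v, v, rfl⟩, 0, fun h => hv ?_⟩⟩
    have h1 : (T - 1) v = 0 := congrArg Subtype.val h
    rw [LinearMap.sub_apply, Module.End.one_apply, sub_eq_zero] at h1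
    exact h1
  have hd : minpoly ℚ S ∣ cyclotomic q ℚ := minpoly.dvd ℚ S h0
  have hirr := cyclotomic.irreducible_rat hq.pos
  have hint : IsIntegral ℚ S := Algebra.IsIntegral.isIntegral S
  have hnu : ¬ IsUnit (minpoly ℚ S) := minpoly.not_isUnit ℚ S
  have has : Associated (minpoly ℚ S) (cyclotomic q ℚ) :=
    ((hirr.dvd_iff).mp hd).resolve_left hnu |>.symm
  have hdeg : (minpoly ℚ S).natDegree = q - 1 := by
    rw [natDegree_eq_of_degree_eq (degree_eq_degree_of_associated has), natDegree_cyclotomic,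
      Nat.totient_prime hq]
  have h2 : minpoly ℚ S ∣ S.charpoly := LinearMap.minpoly_dvd_charpoly S
  have h3 := natDegree_le_of_dvd h2 (LinearMap.charpoly_monic S).ne_zero
  rw [hdeg, LinearMap.charpoly_natDegree] at h3
  exact h3

section

variable {P Ω : Type} [Group P] [Fintype P] [MulAction P Ω] [Fintype Ω] [DecidableEq Ω]
  (M : Submodule (MonoidAlgebra ℚ P) (VV ℚ P Ω))

/-- a group element as a linear map -/
noncomputable def actL (τ : P) : M →ₗ[ℚ] M where
  toFun s := MonoidAlgebra.single τ (1 : ℚ) • s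
  map_add' v w := smul_add _ _ _
  map_smul' a v := by
    rw [RingHom.id_apply]
    exact smul_comm _ _ _

lemma actL_apply (τ : P) (s : M) : actL M τ s = MonoidAlgebra.single τ (1 : ℚ) • s := rfl

lemma actL_mul (σ τ : P) : actL M (σ * τ) = actL M σ * actL M τ := by
  apply LinearMap.ext
  intro s
  rw [Module.End.mul_apply, actL_apply, actL_apply, actL_apply, ← mul_smul,
    MonoidAlgebra.single_mul_single, one_mul]

lemma actL_one : actL M (1 : P) = 1 := by
  apply LinearMap.ext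
  intro s
  rw [actL_apply, ← MonoidAlgebra.one_def, one_smul]
  rfl

lemma actL_pow (τ : P) (i : ℕ) : actL M (τ ^ i) = actL M τ ^ i := by
  induction i with
  | zero => rw [pow_zero, pow_zero, actL_one]
  | succ i ih => rw [pow_succ, pow_succ, actL_mul, ih]

variable [MulAction.IsPretransitive P Ω]

/-- the fixed functionals -/
lemma finrank_range_add_le (τ : P) (x₀ : Ω) (hτ : τ • x₀ = x₀) :
    finrank ℚ (LinearMap.range (actL M τ - 1))
      + finrank ℚ (M →ₗ[MonoidAlgebra ℚ P] VV ℚ P Ω) ≤ finrank ℚ M := by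
  have hfin : Module.Finite ℚ M := Module.Finite.of_injective (M.subtype.restrictScalars ℚ)
    Subtype.val_injective
  set W := LinearMap.range (actL M τ - 1) with hW
  rw [← Subspace.finrank_add_finrank_dualAnnihilator_eq W]
  apply Nat.add_le_add_left
  let ℓ : (M →ₗ[MonoidAlgebra ℚ P] VV ℚ P Ω) → Module.Dual ℚ M := fun f =>
    { toFun := fun s => ev (f s) x₀
      map_add' := fun s t => by rw [map_add, ev_add]
      map_smul' := fun a s => by
        rw [LinearMap.map_smul_of_tower, ev_smul, RingHom.id_apply, smul_eq_mul] }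
  have hℓ : ∀ f s, ℓ f s = ev (f s) x₀ := fun f s => rfl
  have hmem : ∀ f, ℓ f ∈ W.dualAnnihilator := by
    intro f
    rw [Submodule.mem_dualAnnihilator]
    rintro _ ⟨s, rfl⟩
    rw [LinearMap.sub_apply, Module.End.one_apply, map_sub, hℓ, hℓ, actL_apply, map_smul,
      ev_single, one_mul]
    have : τ⁻¹ • x₀ = x₀ := by
      conv_lhs => rw [← hτ]
      rw [inv_smul_smul]
    rw [this, sub_self]
  let Λ : (M →ₗ[MonoidAlgebra ℚ P] VV ℚ P Ω) →ₗ[ℚ] W.dualAnnihilator :=
    { toFun := fun f => ⟨ℓ f, hmem f⟩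
      map_add' := fun f g => rfl
      map_smul' := fun a f => rfl }
  refine LinearMap.finrank_le_finrank_of_injective (f := Λ) ?_
  intro f g h
  apply LinearMap.ext
  intro s
  apply ev_ext
  intro x
  obtain ⟨σ, rfl⟩ := MulAction.exists_smul_eq P x₀ x
  have h1 : ∀ (f : M →ₗ[MonoidAlgebra ℚ P] VV ℚ P Ω),
      ev (f s) (σ • x₀) = ℓ f (MonoidAlgebra.single σ⁻¹ (1 : ℚ) • s) := by
    intro f
    rw [hℓ, map_smul, ev_single, one_mul, inv_inv]
  have h2 : ℓ f = ℓ g := congrArg Subtype.val h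
  rw [h1, h1, h2]

variable {Q Ω' : Type} [Group Q] [Fintype Q] [MulAction Q Ω'] [Fintype Ω']

theorem not_dvd_card (D : QD P Q Ω Ω') (x₀ : Ω)
    (hK : ∀ σ : P, D.φ σ = 1 ↔ ∀ s : M, MonoidAlgebra.single σ (1 : ℚ) • s = s)
    (hfib : ∀ x y, D.π x = D.π y → ∃ σ : P, D.φ σ = 1 ∧ σ • x = y)
    (q : ℕ) [Fact q.Prime] (hqg : ¬ q ∣ Fintype.card Ω)
    (he : finrank ℚ M < q - 1 + finrank ℚ (M →ₗ[MonoidAlgebra ℚ P] VV ℚ P Ω)) :
    ¬ q ∣ Fintype.card Q := by
  intro hd
  have hfin : Module.Finite ℚ M := Module.Finite.of_injective (M.subtype.restrictScalars ℚ)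
    Subtype.val_injective
  have hq : q.Prime := Fact.out
  have htr : MulAction.IsPretransitive Q Ω' := ⟨fun a b => by
    obtain ⟨x, rfl⟩ := D.hπ a
    obtain ⟨y, rfl⟩ := D.hπ b
    obtain ⟨σ, rfl⟩ := MulAction.exists_smul_eq P x y
    exact ⟨D.φ σ, (D.comm σ x).symm⟩⟩
  have h1 := MulAction.index_stabilizer_of_transitive P x₀
  have h2 := MulAction.index_stabilizer_of_transitive Q (D.π x₀)
  have h3 : (MulAction.stabilizer Q (D.π x₀)).index ∣ (MulAction.stabilizer P x₀).index := by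
    have h4 : ((MulAction.stabilizer Q (D.π x₀)).comap D.φ).index
        = (MulAction.stabilizer Q (D.π x₀)).index :=
      Subgroup.index_comap_of_surjective _ D.hφ
    rw [← h4]
    apply Subgroup.index_dvd_of_le
    intro σ hσ
    rw [Subgroup.mem_comap, MulAction.mem_stabilizer_iff, ← D.comm,
      MulAction.mem_stabilizer_iff.mp hσ]
  have h5 : ¬ q ∣ (MulAction.stabilizer Q (D.π x₀)).index := by
    intro h6
    apply hqg
    rw [← Nat.card_eq_fintype_card, ← h1]
    exact h6.trans h3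
  have h6 : q ∣ Nat.card (MulAction.stabilizer Q (D.π x₀)) := by
    have h7 := Subgroup.card_mul_index (MulAction.stabilizer Q (D.π x₀))
    rw [← Nat.card_eq_fintype_card, ← h7] at hd
    exact (hq.dvd_mul.mp hd).resolve_right h5
  obtain ⟨⟨τ', hτ'⟩, hord⟩ := exists_prime_orderOf_dvd_card' q h6
  obtain ⟨σ, hσ⟩ := D.hφ τ'
  have h7 : D.π (σ • x₀) = D.π x₀ := by
    rw [D.comm, hσ]
    exact hτ'
  obtain ⟨k, hk1, hk2⟩ := hfib _ _ h7
  have hφ : D.φ (k * σ) = τ' := by rw [map_mul, hk1, one_mul, hσ]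
  have hfix : (k * σ) • x₀ = x₀ := by rw [mul_smul, hk2]
  have hord' : orderOf τ' = q := by
    rw [← hord]
    exact (Subgroup.orderOf_mk τ' hτ').symm
  have hTq : actL M (k * σ) ^ q = 1 := by
    rw [← actL_pow]
    apply LinearMap.ext
    intro s
    rw [actL_apply]
    refine (hK ((k * σ) ^ q)).mp ?_ s
    rw [map_pow, hφ, ← hord', pow_orderOf_eq_one]
  have hT1 : actL M (k * σ) ≠ 1 := by
    intro h8
    have h9 : D.φ (k * σ) = 1 := by
      rw [hK]
      intro s
      exact congrArg (fun t : M →ₗ[ℚ] M => t s) h8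
    rw [hφ] at h9
    rw [h9, orderOf_one] at hord'
    exact hq.one_lt.ne hord'
  have h8 := prime_sub_one_le q (actL M (k * σ)) hTq hT1
  have h9 := finrank_range_add_le M (k * σ) x₀ hfix
  omega

end

section Orb

variable {P Ω : Type} [Group P] [MulAction P Ω]

/-- the space of orbits of a subgroup -/
def Orb (K : Subgroup P) (Ω : Type) [MulAction P Ω] : Type := Quotient (MulAction.orbitRel K Ω)

/-- the projection to the space of orbits -/
def Orb.mk (K : Subgroup P) (x : Ω) : Orb K Ω := Quotient.mk (MulAction.orbitRel K Ω) x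

lemma Orb.mk_eq (K : Subgroup P) {x y : Ω} : Orb.mk K x = Orb.mk K y ↔ ∃ k ∈ K, k • y = x := by
  constructor
  · intro h
    obtain ⟨⟨k, hk⟩, h1⟩ := Quotient.exact h
    exact ⟨k, hk, h1⟩
  · rintro ⟨k, hk, h⟩
    exact Quotient.sound ⟨⟨k, hk⟩, h⟩

lemma Orb.mk_surj (K : Subgroup P) : Function.Surjective (Orb.mk K : Ω → Orb K Ω) :=
  Quotient.mk_surjective

instance (K : Subgroup P) [K.Normal] : MulAction P (Orb K Ω) where
  smul σ := Quotient.lift (fun x => Orb.mk K (σ • x)) (by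
    intro x y h
    obtain ⟨⟨k, hk⟩, h1⟩ := h
    have h2 : k • y = x := h1
    rw [Orb.mk_eq]
    refine ⟨σ * k * σ⁻¹, ‹K.Normal›.conj_mem k hk σ, ?_⟩
    rw [mul_smul, mul_smul, inv_smul_smul, h2])
  one_smul := by
    intro a
    obtain ⟨x, rfl⟩ := Orb.mk_surj K a
    show Orb.mk K ((1 : P) • x) = Orb.mk K x
    rw [one_smul]
  mul_smul := by
    intro σ τ a
    obtain ⟨x, rfl⟩ := Orb.mk_surj K a
    show Orb.mk K ((σ * τ) • x) = Orb.mk K (σ • τ • x)
    rw [mul_smul]

lemma Orb.smul_mk (K : Subgroup P) [K.Normal] (σ : P) (x : Ω) :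
    σ • Orb.mk K x = Orb.mk K (σ • x) := rfl

end Orb

section Final

variable {P Ω : Type} [Group P] [Fintype P] [MulAction P Ω] [Fintype Ω] [DecidableEq Ω]
  (M : Submodule (MonoidAlgebra ℚ P) (VV ℚ P Ω))

/-- the kernel of the action on a submodule -/
def kerM : Subgroup P where
  carrier := {σ | ∀ s : M, MonoidAlgebra.single σ (1 : ℚ) • s = s}
  mul_mem' := by
    intro σ τ hσ hτ s
    have h1 := actL_mul M σ τ
    have h2 := congrArg (fun t : M →ₗ[ℚ] M => t s) h1
    rw [Module.End.mul_apply, actL_apply, actL_apply, actL_apply, hτ s, hσ s] at h2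
    exact h2
  one_mem' := by
    intro s
    rw [← MonoidAlgebra.one_def, one_smul]
  inv_mem' := by
    intro σ hσ s
    have h1 := actL_mul M σ⁻¹ σ
    have h2 := congrArg (fun t : M →ₗ[ℚ] M => t s) h1
    rw [inv_mul_cancel, actL_one, Module.End.mul_apply, actL_apply, actL_apply, hσ s] at h2
    exact h2.symm

lemma mem_kerM (σ : P) : σ ∈ kerM M ↔ ∀ s : M, MonoidAlgebra.single σ (1 : ℚ) • s = s := Iff.rfl

instance : (kerM M).Normal where
  conj_mem := by
    intro σ hσ τ s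
    have h1 : MonoidAlgebra.single (τ * σ * τ⁻¹) (1 : ℚ) • s
        = actL M τ (actL M σ (actL M τ⁻¹ s)) := by
      rw [← actL_apply, actL_mul, actL_mul]
      rfl
    have h2 : actL M σ (actL M τ⁻¹ s) = actL M τ⁻¹ s := hσ _
    rw [h1, h2, ← Module.End.mul_apply, ← actL_mul, mul_inv_cancel, actL_one]
    rfl

variable [MulAction.IsPretransitive P Ω]

/-- The count of the sign vectors orthogonal to a copy of `M`, for a prime `q > e` which does not
divide the number of points. -/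
theorem type_ker (q : ℕ) (hq : q.Prime) (hq2 : q ≠ 2) (hqg : ¬ q ∣ Fintype.card Ω)
    (hm : 0 < finrank ℚ M)
    (hκ : finrank ℚ (M →ₗ[MonoidAlgebra ℚ P] VV ℚ P Ω) ≤ finrank ℚ M)
    (he : finrank ℚ (M →ₗ[MonoidAlgebra ℚ P] M) + finrank ℚ M
      - finrank ℚ (M →ₗ[MonoidAlgebra ℚ P] VV ℚ P Ω) < q) [Fact q.Prime] :
    ((badOf M).card : ℝ) / 2 ^ Fintype.card Ω
      ≤ csum q ((Fintype.card Ω : ℝ) / finrank ℚ M) ^ finrank ℚ M
        / ((q : ℝ) - 1) ^ (finrank ℚ (M →ₗ[MonoidAlgebra ℚ P] M) + finrank ℚ M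
          - finrank ℚ (M →ₗ[MonoidAlgebra ℚ P] VV ℚ P Ω)) := by
  classical
  have hfin : Module.Finite ℚ M := Module.Finite.of_injective (M.subtype.restrictScalars ℚ)
    Subtype.val_injective
  have hfe : Module.Finite ℚ (M →ₗ[MonoidAlgebra ℚ P] M) := finite_hom
  have hntM : Nontrivial M := Module.nontrivial_of_finrank_pos hm
  have hδ : 0 < finrank ℚ (M →ₗ[MonoidAlgebra ℚ P] M) := by
    have : Nontrivial (M →ₗ[MonoidAlgebra ℚ P] M) := by
      obtain ⟨x, hx⟩ := exists_ne (0 : M)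
      exact ⟨⟨LinearMap.id, 0, fun h => hx
        (congrArg (fun f : M →ₗ[MonoidAlgebra ℚ P] M => f x) h)⟩⟩
    exact Module.finrank_pos (R := ℚ) (M := M →ₗ[MonoidAlgebra ℚ P] M)
  have hne : Nonempty Ω := by
    obtain ⟨x, hx⟩ := exists_ne (0 : M)
    by_contra hcon
    rw [not_nonempty_iff] at hcon
    apply hx
    apply Subtype.ext
    apply ev_ext
    intro y
    exact (hcon.false y).elim
  obtain ⟨x₀⟩ := hne
  let K := kerM M
  have hft : Finite (Orb K Ω) := Finite.of_surjective _ (Orb.mk_surj K)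
  let _ : Fintype (Orb K Ω) := Fintype.ofFinite _
  let Q : Subgroup (Equiv.Perm (Orb K Ω)) := (MulAction.toPermHom P (Orb K Ω)).range
  let D : QD P Q Ω (Orb K Ω) :=
    { φ := (MulAction.toPermHom P (Orb K Ω)).rangeRestrict
      π := Orb.mk K
      hφ := MonoidHom.rangeRestrict_surjective _
      hπ := Orb.mk_surj K
      comm := fun σ x => rfl }
  have hKφ : ∀ σ ∈ K, D.φ σ = 1 := by
    intro σ hσ
    apply Subtype.ext
    apply Equiv.ext
    intro a
    obtain ⟨x, rfl⟩ := Orb.mk_surj K a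
    show Orb.mk K (σ • x) = Orb.mk K x
    rw [Orb.mk_eq]
    exact ⟨σ, hσ, rfl⟩
  have hfac : ∀ M' : Submodule (MonoidAlgebra ℚ P) (VV ℚ P Ω),
      Nonempty (M ≃ₗ[MonoidAlgebra ℚ P] M') → Fac D M' := by
    rintro M' ⟨e⟩ v hv x y hxy
    obtain ⟨k, hk, hkx⟩ := (Orb.mk_eq K).mp hxy
    have h1 : MonoidAlgebra.single k (1 : ℚ) • (⟨v, hv⟩ : M') = ⟨v, hv⟩ := by
      have h2 := hk (e.symm ⟨v, hv⟩)
      have h3 := congrArg e h2
      rw [map_smul, LinearEquiv.apply_symm_apply] at h3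
      exact h3
    have h2 : MonoidAlgebra.single k (1 : ℚ) • v = v := congrArg Subtype.val h1
    rw [← hkx]
    conv_lhs => rw [← h2]
    rw [ev_single, one_mul, inv_smul_smul]
  have hMfac : Fac D M := hfac M ⟨LinearEquiv.refl _ _⟩
  have hK : ∀ σ : P, D.φ σ = 1 ↔ ∀ s : M, MonoidAlgebra.single σ (1 : ℚ) • s = s := by
    intro σ
    constructor
    · intro h s
      apply Subtype.ext
      apply ev_ext
      intro x
      show ev (MonoidAlgebra.single σ (1 : ℚ) • (s : VV ℚ P Ω)) x = ev (s : VV ℚ P Ω) x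
      rw [ev_single, one_mul]
      apply hMfac s.1 s.2
      rw [D.comm, map_inv, h, inv_one, one_smul]
    · intro h
      exact hKφ σ h
  have hfib : ∀ x y, D.π x = D.π y → ∃ σ : P, D.φ σ = 1 ∧ σ • x = y := by
    intro x y hxy
    obtain ⟨k, hk, hkx⟩ := (Orb.mk_eq K).mp hxy.symm
    exact ⟨k, hKφ k hk, hkx⟩
  have hqQ : ¬ q ∣ Fintype.card Q := not_dvd_card M D x₀ hK hfib q hqg (by omega)
  exact type_quot D M q hq2 hqQ hfac hm hκ

/-- the crude form -/
theorem type_ker_crude (q : ℕ) (hq : q.Prime) (hq2 : q ≠ 2) (hqg : ¬ q ∣ Fintype.card Ω)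
    (hm : 0 < finrank ℚ M)
    (hκ : finrank ℚ (M →ₗ[MonoidAlgebra ℚ P] VV ℚ P Ω) ≤ finrank ℚ M)
    (he : finrank ℚ (M →ₗ[MonoidAlgebra ℚ P] M) + finrank ℚ M
      - finrank ℚ (M →ₗ[MonoidAlgebra ℚ P] VV ℚ P Ω) < q) :
    ((badOf M).card : ℝ) / 2 ^ Fintype.card Ω
      ≤ (1 + ((q : ℝ) - 1) * Real.exp (-(2 * Fintype.card Ω / (finrank ℚ M * (q : ℝ) ^ 2))))
          ^ finrank ℚ M
        / ((q : ℝ) - 1) ^ (finrank ℚ (M →ₗ[MonoidAlgebra ℚ P] M) + finrank ℚ M
          - finrank ℚ (M →ₗ[MonoidAlgebra ℚ P] VV ℚ P Ω)) := by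
  have hf : Fact q.Prime := ⟨hq⟩
  refine (type_ker M q hq hq2 hqg hm hκ he).trans ?_
  have hq1 : (0 : ℝ) < (q : ℝ) - 1 := by
    have : (1 : ℝ) < q := by exact_mod_cast hq.one_lt
    linarith
  apply div_le_div_of_nonneg_right _ (by positivity)
  apply pow_le_pow_left₀ (csum_nonneg _)
  refine (csum_le (hq.odd_of_ne_two hq2) (by positivity)).trans (le_of_eq ?_)
  have hm0 : (finrank ℚ M : ℝ) ≠ 0 := by exact_mod_cast hm.ne'
  have hq0 : (q : ℝ) ≠ 0 := by exact_mod_cast hq.ne_zero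
  congr 3
  field_simp

/-- the refined form -/
theorem type_ker_refined (q : ℕ) (hq : q.Prime) (hq2 : q ≠ 2) (hqg : ¬ q ∣ Fintype.card Ω)
    (hm : 0 < finrank ℚ M)
    (hκ : finrank ℚ (M →ₗ[MonoidAlgebra ℚ P] VV ℚ P Ω) ≤ finrank ℚ M)
    (he : finrank ℚ (M →ₗ[MonoidAlgebra ℚ P] M) + finrank ℚ M
      - finrank ℚ (M →ₗ[MonoidAlgebra ℚ P] VV ℚ P Ω) < q)
    (hmq : finrank ℚ M * q ^ 2 ≤ Fintype.card Ω) :
    ((badOf M).card : ℝ) / 2 ^ Fintype.card Ω
      ≤ (1 + 3 * Real.exp (-(Fintype.card Ω / (finrank ℚ M * (q : ℝ) ^ 2)))) ^ finrank ℚ M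
        / ((q : ℝ) - 1) ^ (finrank ℚ (M →ₗ[MonoidAlgebra ℚ P] M) + finrank ℚ M
          - finrank ℚ (M →ₗ[MonoidAlgebra ℚ P] VV ℚ P Ω)) := by
  have hf : Fact q.Prime := ⟨hq⟩
  refine (type_ker M q hq hq2 hqg hm hκ he).trans ?_
  have hq1 : (0 : ℝ) < (q : ℝ) - 1 := by
    have : (1 : ℝ) < q := by exact_mod_cast hq.one_lt
    linarith
  have hm0 : (0 : ℝ) < (finrank ℚ M : ℝ) := by exact_mod_cast hm
  have hq0 : (q : ℝ) ≠ 0 := by exact_mod_cast hq.ne_zero
  apply div_le_div_of_nonneg_right _ (by positivity)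
  apply pow_le_pow_left₀ (csum_nonneg _)
  refine (csum_le_refined (hq.odd_of_ne_two hq2) ?_).trans (le_of_eq ?_)
  · rw [le_div_iff₀ hm0, mul_comm]
    exact_mod_cast hmq
  · congr 3
    field_simp

end Final

end Pool.Agent.Lib.MP_938ce2_ag_h67
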