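import Mathlib
import Pool.Agent.Lib.MP_938ce2_ag_h67.Type
import Pool.Agent.Lib.MP_938ce2_ag_h79.Central

/-!
Simple submodules with nontrivial action.
-/

set_option autoImplicit false
set_option linter.unusedSectionVars false

namespace Pool.Agent.Lib.MP_938ce2_ag_h67

open Module MonoidAlgebra

variable {P Ω : Type} [Group P] [Fintype P] [MulAction P Ω] [Fintype Ω] [DecidableEq Ω]

section Two

variable (M : Submodule (MonoidAlgebra ℚ P) (VV ℚ P Ω))

lemma smul_mkV {K : Type} [Field K] (σ : P) (f : Ω → K) :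
    MonoidAlgebra.single σ (1 : K) • mkV P f = mkV P (fun x => f (σ⁻¹ • x)) := by
  apply ev_ext
  intro x
  rw [ev_single, one_mul, ev_mkV, ev_mkV]

/-- multiplication by a group element which acts centrally -/
noncomputable def cen {K N : Type} [Field K] [AddCommGroup N] [Module K N]
    [Module (MonoidAlgebra K P) N] [IsScalarTower K (MonoidAlgebra K P) N] (z : P)
    (h : ∀ (σ : P) (v : N), MonoidAlgebra.single (z * σ) (1 : K) • v
      = MonoidAlgebra.single (σ * z) (1 : K) • v) : N →ₗ[MonoidAlgebra K P] N :=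
  MonoidAlgebra.equivariantOfLinearOfComm
    { toFun := fun v => MonoidAlgebra.single z (1 : K) • v
      map_add' := fun v w => smul_add _ _ _
      map_smul' := fun a v => by
        rw [RingHom.id_apply]
        exact smul_comm _ _ _ } (by
    intro σ v
    show MonoidAlgebra.single z (1 : K) • MonoidAlgebra.single σ (1 : K) • v
      = MonoidAlgebra.single σ (1 : K) • MonoidAlgebra.single z (1 : K) • v
    rw [← mul_smul, ← mul_smul, MonoidAlgebra.single_mul_single, MonoidAlgebra.single_mul_single,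
      one_mul]
    exact h σ v)

theorem three_le (z : P) (l : ℕ) (hl : Odd l)
    (hz1 : ∀ (σ : P) (s : M), MonoidAlgebra.single (z * σ) (1 : ℚ) • s
        = MonoidAlgebra.single (σ * z) (1 : ℚ) • s)
    (hz2 : ∀ s : M, ∑ i ∈ Finset.range l, MonoidAlgebra.single (z ^ i) (1 : ℚ) • s = 0)
    (N : Submodule (MonoidAlgebra (ZMod 2) P) (red M (ZMod 2)))
    (hN : IsSimpleModule (MonoidAlgebra (ZMod 2) P) N) :
    3 ≤ Nat.card (N →ₗ[MonoidAlgebra (ZMod 2) P] N) := by
  have hf2 : Fact (Nat.Prime 2) := ⟨Nat.prime_two⟩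
  have h1 : ∀ (σ : P) (v : N), MonoidAlgebra.single (z * σ) (1 : ZMod 2) • v
      = MonoidAlgebra.single (σ * z) (1 : ZMod 2) • v := by
    intro σ v
    apply Subtype.ext
    apply Subtype.ext
    obtain ⟨f, hf, hv⟩ := exists_of_mem_red M 2 v.1.2
    show MonoidAlgebra.single (z * σ) (1 : ZMod 2) • (v.1.1) = MonoidAlgebra.single (σ * z) (1 : ZMod 2) • (v.1.1)
    rw [hv, smul_mkV, smul_mkV]
    congr 1
    funext x
    have h2 := congrArg (Subtype.val) (hz1 σ ⟨_, (mem_lat M f).mp hf⟩)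
    have h3 : MonoidAlgebra.single (z * σ) (1 : ℚ) • mkV P (fun x => (f x : ℚ))
        = MonoidAlgebra.single (σ * z) (1 : ℚ) • mkV P (fun x => (f x : ℚ)) := h2
    rw [smul_mkV, smul_mkV] at h3
    have h4 := congrArg (fun t => ev t x) h3
    simp only [ev_mkV] at h4
    have h5 : f ((z * σ)⁻¹ • x) = f ((σ * z)⁻¹ • x) := by exact_mod_cast h4
    rw [h5]
  have h2 : ∀ v : N, ∑ i ∈ Finset.range l, MonoidAlgebra.single (z ^ i) (1 : ZMod 2) • v = 0 := by
    intro v
    apply Subtype.ext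
    apply Subtype.ext
    obtain ⟨f, hf, hv⟩ := exists_of_mem_red M 2 v.1.2
    have e1 : ((∑ i ∈ Finset.range l, MonoidAlgebra.single (z ^ i) (1 : ZMod 2) • v : N) : 
        red M (ZMod 2)).1 = ∑ i ∈ Finset.range l, MonoidAlgebra.single (z ^ i) (1 : ZMod 2) • v.1.1 := by
      rw [AddSubmonoidClass.coe_finsetSum, AddSubmonoidClass.coe_finsetSum]
      rfl
    rw [e1, hv]
    apply ev_ext
    intro x
    rw [ev_sum]
    have h3 := congrArg (Subtype.val) (hz2 ⟨_, (mem_lat M f).mp hf⟩)
    rw [AddSubmonoidClass.coe_finsetSum] at h3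
    have h4 : ∑ i ∈ Finset.range l, MonoidAlgebra.single (z ^ i) (1 : ℚ) • mkV P (fun x => (f x : ℚ)) = 0 := h3
    have h5 := congrArg (fun t => ev t x) h4
    simp only [ev_sum, smul_mkV, ev_mkV, ev_zero] at h5
    have h6 : ((∑ i ∈ Finset.range l, f ((z ^ i)⁻¹ • x) : ℤ) : ℚ) = 0 := by
      push_cast
      exact h5
    have h7 : (∑ i ∈ Finset.range l, f ((z ^ i)⁻¹ • x) : ℤ) = 0 := by exact_mod_cast h6
    have h8 := congrArg (fun t : ℤ => (t : ZMod 2)) h7
    simp only [Int.cast_sum, Int.cast_zero] at h8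
    simp only [smul_mkV, ev_mkV]
    exact h8
  let zN : N →ₗ[MonoidAlgebra (ZMod 2) P] N := cen (K := ZMod 2) (N := N) z h1
  have hzN : ∀ v, zN v = MonoidAlgebra.single z (1 : ZMod 2) • v := fun v => rfl
  have hnt : Nontrivial N := IsSimpleModule.nontrivial (MonoidAlgebra (ZMod 2) P) N
  obtain ⟨v, hv⟩ := exists_ne (0 : N)
  have n1 : zN ≠ 0 := by
    intro h
    apply hv
    have h3 := congrArg (fun t => MonoidAlgebra.single z⁻¹ (1 : ZMod 2) • t v) h
    simp only [hzN, LinearMap.zero_apply, smul_zero] at h3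
    rw [← mul_smul, MonoidAlgebra.single_mul_single, inv_mul_cancel, one_mul] at h3
    have h4 : (MonoidAlgebra.single (1 : P) (1 : ZMod 2)) = 1 := rfl
    rwa [h4, one_smul] at h3
  have n2 : (LinearMap.id : N →ₗ[MonoidAlgebra (ZMod 2) P] N) ≠ 0 := by
    intro h
    exact hv (by simpa using congrArg (fun f => f v) h)
  have n3 : zN ≠ LinearMap.id := by
    intro h
    apply hv
    have h3 : ∀ i : ℕ, MonoidAlgebra.single (z ^ i) (1 : ZMod 2) • v = v := by
      intro i
      induction i with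
      | zero =>
        have h4 : (MonoidAlgebra.single (z ^ 0) (1 : ZMod 2)) = 1 := by rw [pow_zero]; rfl
        rw [h4, one_smul]
      | succ i ih =>
        have h5 : MonoidAlgebra.single (z ^ (i + 1)) (1 : ZMod 2)
            = MonoidAlgebra.single z (1 : ZMod 2) * MonoidAlgebra.single (z ^ i) (1 : ZMod 2) := by
          rw [MonoidAlgebra.single_mul_single, one_mul, pow_succ']
        rw [h5, mul_smul, ih, ← hzN, h, LinearMap.id_apply]
    have h4 := h2 v
    rw [Finset.sum_congr rfl fun i _ => h3 i, Finset.sum_const, Finset.card_range] at h4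
    obtain ⟨r, hr⟩ := hl
    have h5 : (2 : ℕ) • v = 0 := by
      have h6 : ((2 : ℕ) : ZMod 2) • v = 0 := by
        have : ((2 : ℕ) : ZMod 2) = 0 := ZMod.natCast_self 2
        rw [this, zero_smul]
      rwa [Nat.cast_smul_eq_nsmul] at h6
    rw [hr, add_smul, one_smul, mul_comm, mul_smul, h5, smul_zero, zero_add] at h4
    exact h4
  have hfe : Finite (N →ₗ[MonoidAlgebra (ZMod 2) P] N) := DFunLike.finite _
  classical
  let _ : Fintype (N →ₗ[MonoidAlgebra (ZMod 2) P] N) := Fintype.ofFinite _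
  rw [Nat.card_eq_fintype_card]
  have h9 : ({zN, LinearMap.id, 0} : Finset (N →ₗ[MonoidAlgebra (ZMod 2) P] N)).card = 3 := by
    rw [Finset.card_eq_three]
    exact ⟨zN, LinearMap.id, 0, n3, n1, n2, rfl⟩
  rw [← h9]
  exact Finset.card_le_univ _

end Two

section Norm

/-- the norm element of the group algebra -/
noncomputable def nrm (K P : Type) [Field K] [Group P] [Fintype P] : MonoidAlgebra K P :=
  ∑ σ : P, MonoidAlgebra.single σ (1 : K)

lemma nrm_mul {K : Type} [Field K] (σ : P) : nrm K P * MonoidAlgebra.single σ (1 : K) = nrm K P := by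
  unfold nrm
  rw [Finset.sum_mul]
  simp_rw [MonoidAlgebra.single_mul_single, one_mul]
  exact Equiv.sum_comp (Equiv.mulRight σ) (fun τ : P => MonoidAlgebra.single τ (1 : K))

lemma mul_nrm {K : Type} [Field K] (σ : P) : MonoidAlgebra.single σ (1 : K) * nrm K P = nrm K P := by
  unfold nrm
  rw [Finset.mul_sum]
  simp_rw [MonoidAlgebra.single_mul_single, one_mul]
  exact Equiv.sum_comp (Equiv.mulLeft σ) (fun τ : P => MonoidAlgebra.single τ (1 : K))

/-- The norm element kills a simple module with nontrivial action. -/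
lemma nrm_smul_eq_zero {K N : Type} [Field K] [AddCommGroup N] [Module K N]
    [Module (MonoidAlgebra K P) N] [IsScalarTower K (MonoidAlgebra K P) N]
    [IsSimpleModule (MonoidAlgebra K P) N]
    (hnt : ∃ (σ : P) (s : N), MonoidAlgebra.single σ (1 : K) • s ≠ s) (v : N) :
    nrm K P • v = 0 := by
  let φ : N →ₗ[MonoidAlgebra K P] N := MonoidAlgebra.equivariantOfLinearOfComm
    { toFun := fun v => nrm K P • v
      map_add' := fun v w => smul_add _ _ _
      map_smul' := fun a v => by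
        rw [RingHom.id_apply]
        exact smul_comm _ _ _ } (by
    intro σ v
    show nrm K P • MonoidAlgebra.single σ (1 : K) • v
      = MonoidAlgebra.single σ (1 : K) • nrm K P • v
    rw [← mul_smul, ← mul_smul, nrm_mul, mul_nrm])
  have hφ : ∀ v, φ v = nrm K P • v := fun v => rfl
  by_cases h0 : φ = 0
  · rw [← hφ, h0, LinearMap.zero_apply]
  · exfalso
    obtain ⟨σ, s, hs⟩ := hnt
    obtain ⟨u, hu⟩ := (LinearMap.bijective_of_ne_zero h0).2 s
    apply hs
    rw [← hu, hφ, ← mul_smul, mul_nrm]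

/-- The elements of a simple submodule with nontrivial action have sum zero. -/
lemma sum_eq_zero_of_simple [MulAction.IsPretransitive P Ω]
    (M : Submodule (MonoidAlgebra ℚ P) (VV ℚ P Ω)) [IsSimpleModule (MonoidAlgebra ℚ P) M]
    (hnt : ∃ (σ : P) (s : M), MonoidAlgebra.single σ (1 : ℚ) • s ≠ s)
    (v : VV ℚ P Ω) (hv : v ∈ M) : ∑ x, ev v x = 0 := by
  by_cases hΩ : Nonempty Ω
  · obtain ⟨x₀⟩ := hΩ
    have h1 := nrm_smul_eq_zero hnt (⟨v, hv⟩ : M)
    have h2 : nrm ℚ P • v = 0 := congrArg Subtype.val h1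
    have h3 := congrArg (fun t => ev t x₀) h2
    have h4 : ev (nrm ℚ P • v) x₀ = ∑ σ : P, ev v (σ⁻¹ • x₀) := by
      unfold nrm
      rw [Finset.sum_smul, ev_sum]
      refine Finset.sum_congr rfl fun σ _ => ?_
      rw [ev_single, one_mul]
    simp only [ev_zero] at h3
    rw [h4] at h3
    have h5 : ∀ x₁ : Ω, ∑ σ : P, ev v (σ⁻¹ • x₁) = 0 := by
      intro x₁
      obtain ⟨τ, rfl⟩ := MulAction.exists_smul_eq P x₀ x₁
      rw [← h3, ← Equiv.sum_comp (Equiv.mulLeft τ) (fun σ : P => ev v (σ⁻¹ • τ • x₀))]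
      refine Finset.sum_congr rfl fun σ _ => ?_
      rw [Equiv.coe_mulLeft, mul_inv_rev, mul_smul, inv_smul_smul]
    have h6 : ∑ x₁ : Ω, ∑ σ : P, ev v (σ⁻¹ • x₁) = Fintype.card P * ∑ x, ev v x := by
      rw [Finset.sum_comm]
      have : ∀ σ : P, ∑ x : Ω, ev v (σ⁻¹ • x) = ∑ x, ev v x := fun σ =>
        Equiv.sum_comp (MulAction.toPerm σ⁻¹) (ev v)
      rw [Finset.sum_congr rfl fun σ _ => this σ, Finset.sum_const, Finset.card_univ, nsmul_eq_mul]
    rw [Finset.sum_congr rfl fun x₁ _ => h5 x₁, Finset.sum_const_zero] at h6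
    have h7 : (Fintype.card P : ℚ) ≠ 0 := by exact_mod_cast Fintype.card_ne_zero
    exact (mul_eq_zero.mp h6.symm).resolve_left h7
  · rw [not_nonempty_iff] at hΩ
    exact Finset.sum_eq_zero fun x _ => (hΩ.false x).elim

end Norm

section Exists

/-- A degenerate sign vector is orthogonal to a simple submodule with nontrivial action. -/
theorem exists_simple_of_bad [MulAction.IsPretransitive P Ω] (hodd : Odd (Fintype.card Ω))
    (η : Finset Ω) (f : Ω → ℤ) (hf : f ≠ 0) (h : ∀ σ : P, ∑ x, sg η x * f (σ • x) = 0) :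
    ∃ M : Submodule (MonoidAlgebra ℚ P) (VV ℚ P Ω), IsSimpleModule (MonoidAlgebra ℚ P) M ∧
      (∃ (σ : P) (s : M), MonoidAlgebra.single σ (1 : ℚ) • s ≠ s) ∧
      ∀ v ∈ M, ∑ x, (sg η x : ℚ) * ev v x = 0 := by
  set v₀ : VV ℚ P Ω := mkV P (fun x => (f x : ℚ)) with hv₀
  have hv₀0 : v₀ ≠ 0 := by
    intro h0
    apply hf
    funext x
    have := congrArg (fun t => ev t x) h0
    simp only [hv₀, ev_mkV, ev_zero] at this
    exact_mod_cast this
  let U : Submodule (MonoidAlgebra ℚ P) (VV ℚ P Ω) := Submodule.span _ {v₀}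
  have hU : ∀ u ∈ U, ∑ x, (sg η x : ℚ) * ev u x = 0 := by
    intro u hu
    obtain ⟨r, rfl⟩ := Submodule.mem_span_singleton.mp hu
    induction r using MonoidAlgebra.induction_linear with
    | zero =>
      rw [zero_smul]
      simp only [ev_zero, mul_zero, Finset.sum_const_zero]
    | add a b ha hb =>
      rw [add_smul]
      simp only [ev_add, mul_add, Finset.sum_add_distrib]
      rw [ha (Submodule.smul_mem _ _ (Submodule.mem_span_singleton_self _)),
        hb (Submodule.smul_mem _ _ (Submodule.mem_span_singleton_self _)), add_zero]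
    | single σ a =>
      simp only [ev_single]
      have h1 := h σ⁻¹
      have h2 : ((∑ x, sg η x * f (σ⁻¹ • x) : ℤ) : ℚ) = 0 := by rw [h1, Int.cast_zero]
      push_cast at h2
      have h3 : ∀ x, (sg η x : ℚ) * (a * ev v₀ (σ⁻¹ • x))
          = a * ((sg η x : ℚ) * (f (σ⁻¹ • x) : ℚ)) := by
        intro x
        rw [hv₀, ev_mkV]
        ring
      rw [Finset.sum_congr rfl fun x _ => h3 x, ← Finset.mul_sum, h2, mul_zero]
  have hne : NeZero (Nat.card P : ℚ) := ⟨by exact_mod_cast Nat.card_pos.ne'⟩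
  have hU0 : U ≠ ⊥ := by
    intro h0
    apply hv₀0
    rw [← Submodule.mem_bot (R := MonoidAlgebra ℚ P), ← h0]
    exact Submodule.mem_span_singleton_self _
  obtain ⟨M, hMU, hM⟩ := (IsSemisimpleModule.eq_bot_or_exists_simple_le U).resolve_left hU0
  refine ⟨M, hM, ?_, fun v hv => hU v (hMU hv)⟩
  by_contra hcon
  push Not at hcon
  have hnt : Nontrivial M := IsSimpleModule.nontrivial (MonoidAlgebra ℚ P) M
  obtain ⟨⟨v, hvM⟩, hv⟩ := exists_ne (0 : M)
  have hinv : ∀ (σ : P) (x : Ω), ev v (σ⁻¹ • x) = ev v x := by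
    intro σ x
    have h1 := congrArg Subtype.val (hcon σ ⟨v, hvM⟩)
    have h2 : MonoidAlgebra.single σ (1 : ℚ) • v = v := h1
    have h3 := congrArg (fun t => ev t x) h2
    simp only [ev_single, one_mul] at h3
    exact h3
  have hΩ : Nonempty Ω := by
    rw [← Fintype.card_pos_iff]
    exact hodd.pos
  obtain ⟨x₀⟩ := hΩ
  have hconst : ∀ x, ev v x = ev v x₀ := by
    intro x
    obtain ⟨τ, rfl⟩ := MulAction.exists_smul_eq P x₀ x
    rw [← hinv τ, inv_smul_smul]
  have hx0 : ev v x₀ ≠ 0 := by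
    intro h0
    apply hv
    apply Subtype.ext
    apply ev_ext
    intro x
    rw [hconst, h0]
    rfl
  have h1 := hU v (hMU hvM)
  simp only [hconst] at h1
  rw [← Finset.sum_mul] at h1
  have h2 := (mul_eq_zero.mp h1).resolve_right hx0
  have h3 : (∑ x, sg η x : ℤ) = 0 := by
    have : ((∑ x, sg η x : ℤ) : ℚ) = 0 := by push_cast; exact h2
    exact_mod_cast this
  have h4 : (∑ x, sg η x : ℤ) = 2 * (∑ x, if x ∈ η then 1 else 0) - Fintype.card Ω := by
    rw [Finset.mul_sum, ← Finset.card_univ, Finset.card_eq_sum_ones]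
    push_cast
    rw [← Finset.sum_sub_distrib]
    refine Finset.sum_congr rfl fun x _ => ?_
    unfold sg
    by_cases hx : x ∈ η
    · rw [if_pos hx, if_pos hx]; norm_num
    · rw [if_neg hx, if_neg hx]; norm_num
  obtain ⟨r, hr⟩ := hodd
  rw [h3, hr] at h4
  push_cast at h4
  omega

end Exists

end Pool.Agent.Lib.MP_938ce2_ag_h67
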