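import Mathlib
import Pool.Agent.Lib.MP_938ce2_ag_h67.Nontriv
import Pool.Agent.Lib.MP_938ce2_ag_h85d.Isotypic
import Pool.Agent.Lib.MP_938ce2_ag_h85d.Numeric
import Pool.Agent.Lib.MP_938ce2_ag_h85d.Assembly

/-!
The number of degenerate sign vectors on a transitive set of a nilpotent group of order prime to 6.
-/

set_option autoImplicit false
set_option linter.unusedSectionVars false

namespace Pool.Agent.Lib.MP_938ce2_ag_h67

open Module MonoidAlgebra
open Pool.Agent.Lib.MP_938ce2_ag_h79 (prime_dvd_card_of_faithful exists_central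
  four_le_finrank_end)
open Pool.Agent.Lib.MP_938ce2_ag_h85d (isotypic_numbers finrank_hom_le numeric BadCount)

section Faithful

variable {P Ω : Type} [Group P] [Fintype P] [Group.IsNilpotent P] [Fintype Ω] [DecidableEq Ω]
  [MulAction P Ω] [MulAction.IsPretransitive P Ω]

lemma nontriv_congr {M M' : Submodule (MonoidAlgebra ℚ P) (VV ℚ P Ω)}
    (e : M ≃ₗ[MonoidAlgebra ℚ P] M')
    (h : ∃ (σ : P) (s : M), MonoidAlgebra.single σ (1 : ℚ) • s ≠ s) :
    ∃ (σ : P) (s : M'), MonoidAlgebra.single σ (1 : ℚ) • s ≠ s := by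
  obtain ⟨σ, s, hs⟩ := h
  refine ⟨σ, e s, fun h' => hs ?_⟩
  rw [← map_smul] at h'
  exact e.injective h'

lemma card_dvd_of_transitive [Nonempty Ω] : Fintype.card Ω ∣ Fintype.card P := by
  obtain ⟨x₀⟩ := (inferInstance : Nonempty Ω)
  have h1 := MulAction.index_stabilizer_of_transitive P x₀
  rw [Nat.card_eq_fintype_card] at h1
  rw [← h1, ← Nat.card_eq_fintype_card]
  exact Subgroup.index_dvd_card _

/-- the count for faithful actions -/
theorem bad_faithful (C : ℝ)
    (hC : ∀ (ι : Type) [Fintype ι] (g : ℕ) (m k e : ι → ℕ) (N : ι → ℝ),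
    2 ≤ g → (∀ i, 1 ≤ m i) → (∀ i, 1 ≤ k i) → (∀ i, 4 ≤ e i) → (∀ i, m i ≤ k i * e i) →
    (∑ i, k i * m i ≤ g) →
    (∀ i, N i ≤ (2 : ℝ) ^ (-(e i : ℝ) / 2)) →
    (∀ (i) (q : ℕ), q.Prime → q ≠ 2 → ¬ q ∣ g →
      N i ≤ (1 + ((q : ℝ) - 1) * Real.exp (-(2 * g / (m i * (q : ℝ) ^ 2)))) ^ m i
        / ((q : ℝ) - 1) ^ e i) →
    ∑ i, N i ≤ C * Real.log g ^ 3 / g) [FaithfulSMul P Ω]
    (hcop : (Fintype.card P).Coprime 6) (hΩ : 2 ≤ Fintype.card Ω) :
    (Nat.card {η : Finset Ω // ∃ f : Ω → ℤ, f ≠ 0 ∧ ∀ σ : P, ∑ x, sg η x * f (σ • x) = 0} : ℝ)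
      ≤ C * Real.log (Fintype.card Ω) ^ 3 / Fintype.card Ω * 2 ^ Fintype.card Ω := by
  classical
  have hne : Nonempty Ω := by
    rw [← Fintype.card_pos_iff]
    omega
  have hPodd : Odd (Fintype.card P) := by
    rw [← Nat.not_even_iff_odd, even_iff_two_dvd]
    intro h
    have := Nat.dvd_gcd h (show 2 ∣ 6 by norm_num)
    rw [hcop] at this
    norm_num at this
  have hΩodd : Odd (Fintype.card Ω) := Odd.of_dvd_nat hPodd card_dvd_of_transitive
  have hneP : NeZero (Nat.card P : ℚ) := ⟨by exact_mod_cast Nat.card_pos.ne'⟩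
  obtain ⟨ι, _, S, k, hS, hall, hk1, hkδ, hsum⟩ :=
    isotypic_numbers (K := ℚ) (R := MonoidAlgebra ℚ P) (V := VV ℚ P Ω)
  set g := Fintype.card Ω with hg
  have hV : finrank ℚ (VV ℚ P Ω) = g := by
    show finrank ℚ (Ω → ℚ) = g
    rw [finrank_fintype_fun_eq_card]
  let κ : Type := {i : ι // ∃ (σ : P) (s : S i), MonoidAlgebra.single σ (1 : ℚ) • s ≠ s}
  let m : κ → ℕ := fun i => finrank ℚ (S i.1)
  let δ : κ → ℕ := fun i => finrank ℚ (S i.1 →ₗ[MonoidAlgebra ℚ P] S i.1)
  let h : κ → ℕ := fun i => finrank ℚ (S i.1 →ₗ[MonoidAlgebra ℚ P] VV ℚ P Ω)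
  have hhm : ∀ i, h i ≤ m i := fun i => finrank_hom_le (S i.1)
  have hhk : ∀ i, h i = k i.1 * δ i := fun i => hkδ i.1
  have hfin : ∀ i : ι, Module.Finite ℚ (S i) := fun i =>
    Module.Finite.of_injective ((S i).subtype.restrictScalars ℚ) Subtype.val_injective
  have hm1 : ∀ i, 1 ≤ m i := by
    intro i
    have hs := hS i.1
    have hnt : Nontrivial (S i.1) := IsSimpleModule.nontrivial (MonoidAlgebra ℚ P) (S i.1)
    have := hfin i.1
    exact Module.finrank_pos
  have hδ4 : ∀ i, 4 ≤ δ i := by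
    intro i
    have hs := hS i.1
    have := hfin i.1
    exact four_le_finrank_end hcop i.2
  let N : κ → ℝ := fun i => ((badOf (S i.1)).card : ℝ) / 2 ^ g
  have hmain := hC κ g m (fun i => k i.1) (fun i => δ i + m i - h i) N hΩ hm1 (fun i => hk1 i.1)
    (fun i => by
      have h1 := hδ4 i
      have h2 := hhm i
      show 4 ≤ δ i + m i - h i
      omega)
    (fun i => by
      show m i ≤ k i.1 * (δ i + m i - h i)
      have h1 := hk1 i.1
      have h2 := hhm i
      have h3 := hhk i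
      obtain ⟨a, ha⟩ := Nat.exists_eq_add_of_le h1
      obtain ⟨b, hb⟩ := Nat.exists_eq_add_of_le h2
      have h4 : δ i + m i - h i = δ i + b := by omega
      rw [h4, hb, h3, ha]
      nlinarith [Nat.zero_le (a * b)])
    (by
      have h1 : ∑ i : κ, k i.1 * m i
          = ∑ i ∈ (Finset.univ : Finset κ).map ⟨Subtype.val, Subtype.val_injective⟩,
            k i * finrank ℚ (S i) := by
        rw [Finset.sum_map]
        rfl
      rw [← hV]
      refine le_trans ?_ hsum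
      refine le_trans (le_of_eq h1) ?_
      exact Finset.sum_le_univ_sum_of_nonneg (fun _ => Nat.zero_le _))
    (fun i => by
      have hs := hS i.1
      obtain ⟨z, l, hlp, hl5, hz1, hz2⟩ := exists_central (S := S i.1) hcop i.2
      have hlodd : Odd l := hlp.odd_of_ne_two (by omega)
      have h1 := type_two (S i.1) hPodd (by
        rintro M' ⟨e⟩ v hv
        have hs' : IsSimpleModule (MonoidAlgebra ℚ P) M' := IsSimpleModule.congr e.symm
        exact sum_eq_zero_of_simple M' (nontriv_congr e i.2) v hv)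
        (fun N hN => three_le (S i.1) z l hlodd hz1 hz2 N hN) (hhm i)
      exact h1)
    (fun i q hq hq2 hqg => by
      have hqP : ¬ q ∣ Fintype.card P := fun hd => hqg (prime_dvd_card_of_faithful q hq hd)
      exact type_odd (S i.1) q hq hq2 hqP (hm1 i) (hhm i))
  have hcover : (Nat.card {η : Finset Ω // ∃ f : Ω → ℤ, f ≠ 0 ∧
      ∀ σ : P, ∑ x, sg η x * f (σ • x) = 0} : ℝ) ≤ ∑ i : κ, ((badOf (S i.1)).card : ℝ) := by
    rw [Nat.card_eq_fintype_card, Fintype.card_subtype]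
    have h1 : (Finset.univ.filter fun η : Finset Ω => ∃ f : Ω → ℤ, f ≠ 0 ∧
        ∀ σ : P, ∑ x, sg η x * f (σ • x) = 0)
        ⊆ (Finset.univ : Finset κ).biUnion fun i => badOf (S i.1) := by
      intro η hη
      obtain ⟨f, hf, hσ⟩ := (Finset.mem_filter.mp hη).2
      obtain ⟨M, hM, hnt, hv⟩ := exists_simple_of_bad hΩodd η f hf hσ
      obtain ⟨i, ⟨e⟩⟩ := hall M hM
      rw [Finset.mem_biUnion]
      refine ⟨⟨i, nontriv_congr e hnt⟩, Finset.mem_univ _, ?_⟩
      rw [mem_badOf]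
      exact ⟨M, ⟨e.symm⟩, hv⟩
    have h2 := (Finset.card_le_card h1).trans Finset.card_biUnion_le
    exact_mod_cast h2
  refine hcover.trans ?_
  have h1 : ∑ i : κ, ((badOf (S i.1)).card : ℝ) = (∑ i : κ, N i) * 2 ^ g := by
    rw [Finset.sum_mul]
    refine Finset.sum_congr rfl fun i _ => ?_
    show _ = ((badOf (S i.1)).card : ℝ) / 2 ^ g * 2 ^ g
    rw [div_mul_cancel₀]
    positivity
  rw [h1]
  exact mul_le_mul_of_nonneg_right hmain (by positivity)

end Faithful

section Main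

/-- the count -/
theorem bad_count : ∃ C : ℝ, 0 < C ∧ BadCount C := by
  obtain ⟨C, hC0, hC⟩ := numeric
  refine ⟨C, hC0, ?_⟩
  intro P _ _ _ Ω _ _ _ _ hcop hΩ
  classical
  -- pass to the image of `P` in the symmetric group
  let Q : Subgroup (Equiv.Perm Ω) := (MulAction.toPermHom P Ω).range
  let φ : P →* Q := (MulAction.toPermHom P Ω).rangeRestrict
  have hφ : Function.Surjective φ := MonoidHom.rangeRestrict_surjective _
  have hφa : ∀ (σ : P) (x : Ω), φ σ • x = σ • x := fun σ x => rfl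
  have _ : Group.IsNilpotent Q := Group.nilpotent_of_surjective φ hφ
  have hcopQ : (Fintype.card Q).Coprime 6 := by
    refine Nat.Coprime.coprime_dvd_left ?_ hcop
    rw [← Nat.card_eq_fintype_card, ← Nat.card_eq_fintype_card]
    exact Subgroup.card_dvd_of_surjective φ hφ
  have _ : MulAction.IsPretransitive Q Ω := ⟨fun x y => by
    obtain ⟨σ, hσ⟩ := MulAction.exists_smul_eq P x y
    exact ⟨φ σ, hσ⟩⟩
  have h1 := bad_faithful (P := Q) (Ω := Ω) C hC hcopQ hΩ
  refine le_trans (le_of_eq ?_) h1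
  congr 1
  refine Nat.card_congr (Equiv.subtypeEquivRight ?_)
  intro η
  constructor
  · rintro ⟨f, hf, h⟩
    refine ⟨f, hf, fun τ => ?_⟩
    obtain ⟨σ, rfl⟩ := hφ τ
    exact h σ
  · rintro ⟨f, hf, h⟩
    exact ⟨f, hf, fun σ => h (φ σ)⟩

end Main

end Pool.Agent.Lib.MP_938ce2_ag_h67
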