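import Mathlib
import Pool.Agent.Lib.MP_938ce2_ag_h60.GDefs
import Pool.Agent.Lib.MP_938ce2_ag_h60.NumField
import Pool.Agent.Lib.MP_938ce2_ag_h67.Bad

/-!
# Tate classes for almost all CM types

For a CM field of degree `2g`, where `g` is a power of a prime `p ≥ 5` (or, more generally, where a
nilpotent group of automorphisms of order prime to 6 is transitive on the pairs of complex conjugate
embeddings), all but a proportion `C (log g) ^ 3 / g` of the CM types have the property that the Tate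
classes on all powers of the abelian varieties of this type are generated by divisor classes.
-/

set_option autoImplicit false

namespace Pool.Agent.Lib.MP_938ce2_ag_h67

open NumberField Module
open Pool.Agent.Lib.MP_938ce2_ag_h60 (CMType GeneratedByDivisors conj)

theorem result :
    ∃ C : ℝ, 0 < C ∧ ∀ (L E : Type) [Field L] [NumberField L] [IsGalois ℚ L] [IsCMField L]
      [Field E] [NumberField E] [IsCMField E] [Nonempty (E →ₐ[ℚ] L)] (g : ℕ),
      finrank ℚ E = 2 * g → 2 ≤ g →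
      ((∃ p k : ℕ, p.Prime ∧ 5 ≤ p ∧ g = p ^ k) ∨
        ∃ P : Subgroup (L ≃ₐ[ℚ] L), Group.IsNilpotent P ∧ (Nat.card P).Coprime 6 ∧
          ∀ φ ψ : E →ₐ[ℚ] L, ∃ σ ∈ P, σ • φ = ψ ∨ σ • φ = conj L • ψ) →
      (Nat.card {Φ : Finset (E →ₐ[ℚ] L) //
          CMType (conj L) Φ ∧ ¬ GeneratedByDivisors (L ≃ₐ[ℚ] L) Φ} : ℝ)
        ≤ C * Real.log g ^ 3 / g * 2 ^ g := by
  obtain ⟨C, hC0, hC⟩ := bad_count
  refine ⟨C, hC0, ?_⟩
  intro L E _ _ _ _ _ _ _ _ g hE hg h
  have hX : Fintype.card (E →ₐ[ℚ] L) = 2 * g := by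
    rw [← hE]
    exact Pool.Agent.Lib.MP_938ce2_ag_h60.card_emb
  have hcx : ∀ φ : E →ₐ[ℚ] L, conj L • φ ≠ φ := fun φ =>
    Pool.Agent.Lib.MP_938ce2_ag_h60.conj_smul_ne φ
  rcases h with ⟨p, k, hp, hp5, rfl⟩ | ⟨P, hnil, hcop, htr⟩
  · have hk : 1 ≤ k := by
      rcases Nat.eq_zero_or_pos k with rfl | hk
      · simp at hg
      · exact hk
    exact Pool.Agent.Lib.MP_938ce2_ag_h85d.main_prime_power_of hC (L ≃ₐ[ℚ] L) (E →ₐ[ℚ] L) (conj L)
      p k hp hp5 hk Pool.Agent.Lib.MP_938ce2_ag_h60.conj_comm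
      Pool.Agent.Lib.MP_938ce2_ag_h60.conj_mul_self hcx hX
  · exact Pool.Agent.Lib.MP_938ce2_ag_h85d.main_of hC (L ≃ₐ[ℚ] L) (E →ₐ[ℚ] L) (conj L) g P
      Pool.Agent.Lib.MP_938ce2_ag_h60.conj_comm Pool.Agent.Lib.MP_938ce2_ag_h60.conj_mul_self hcx hX
      hg hnil hcop htr

end Pool.Agent.Lib.MP_938ce2_ag_h67
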